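import Pool.Agent.Lib.MP_1ef7cf_nt_r.Mg.G017
import Pool.Agent.Lib.MP_1ef7cf_nt_r.Mg.G001

section

/-!
# Groups of logarithms of elements with positive conjugates

`LamP H`: the logarithms of the elements of `H` all of whose conjugates over `K` are positive. `Sat H T`: the elements of
`LamP H` a multiple of which is in the group generated by `T`. `Sat_fg`: if `T` is a finite subset of `LamP H` then
`Sat H T` is finitely generated: the valuations at the finitely many primes which occur in the elements of `T` give a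
homomorphism to a free group of finite rank, and its kernel is contained in `Lam H`.
-/

set_option autoImplicit false

open NumberField IsDedekindDomain nonZeroDivisors IntermediateField

namespace Pool.Agent.STs

open Pool.Agent.ST
open Pool.Agent.STr
open Pool.Agent.STc (IsInt rd IsUn)

variable {K : Type*} [Field K] [NumberField K] [Algebra K ℝ] {H H' : IntermediateField K ℝ} {T T' : Set ℝ}

/-- the logarithms of the elements of `H` all of whose conjugates over `K` are positive -/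
noncomputable def LamP (H : IntermediateField K ℝ) : AddSubgroup ℝ where
  carrier := {x | Real.exp x ∈ H ∧ ∀ g : H ≃ₐ[K] H, 0 < act g (Real.exp x)}
  zero_mem' := by
    rw [Set.mem_ofPred_eq, Real.exp_zero]
    exact ⟨one_mem H, fun g => by rw [act_one_right]; exact one_pos⟩
  add_mem' := by
    rintro x y ⟨hx, hx'⟩ ⟨hy, hy'⟩
    rw [Set.mem_ofPred_eq, Real.exp_add]
    refine ⟨mul_mem hx hy, fun g => ?_⟩
    rw [act_mul _ hx hy]; exact mul_pos (hx' g) (hy' g)
  neg_mem' := by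
    rintro x ⟨hx, hx'⟩
    rw [Set.mem_ofPred_eq, Real.exp_neg]
    refine ⟨inv_mem hx, fun g => ?_⟩
    rw [act_inv _ hx]; exact inv_pos.2 (hx' g)

/-- the elements of `LamP H` a nonzero multiple of which is in the group generated by `T` -/
noncomputable def Sat (H : IntermediateField K ℝ) (T : Set ℝ) : AddSubgroup ℝ where
  carrier := {x | x ∈ LamP H ∧ ∃ k : ℕ, k ≠ 0 ∧ (k : ℝ) * x ∈ AddSubgroup.closure T}
  zero_mem' := ⟨zero_mem _, 1, one_ne_zero, by rw [mul_zero]; exact zero_mem _⟩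
  add_mem' := by
    rintro x y ⟨hx, k, hk, hkx⟩ ⟨hy, j, hj, hjy⟩
    refine ⟨add_mem hx hy, k * j, mul_ne_zero hk hj, ?_⟩
    have h1 : ((k * j : ℕ) : ℝ) * (x + y) = j • ((k : ℝ) * x) + k • ((j : ℝ) * y) := by
      rw [nsmul_eq_mul, nsmul_eq_mul]; push_cast; ring
    rw [h1]
    exact add_mem (nsmul_mem hkx _) (nsmul_mem hjy _)
  neg_mem' := by
    rintro x ⟨hx, k, hk, hkx⟩
    refine ⟨neg_mem hx, k, hk, ?_⟩
    rw [mul_neg]; exact neg_mem hkx

omit [NumberField K] in
lemma Sat_le : Sat H T ≤ LamP H := fun _ hx => hx.1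

omit [NumberField K] in
lemma Sat_of_mem {x : ℝ} (hx : x ∈ LamP H) (hT : x ∈ T) : x ∈ Sat H T :=
  ⟨hx, 1, one_ne_zero, by rw [Nat.cast_one, one_mul]; exact AddSubgroup.subset_closure hT⟩

omit [NumberField K] in
theorem LamP_mono [FiniteDimensional K H] [IsGalois K H] (h : H ≤ H') : LamP H ≤ LamP H' := by
  rintro x ⟨hx, hx'⟩
  refine ⟨h hx, fun g => ?_⟩
  rw [← act_res h g hx]
  exact hx' _

omit [NumberField K] in
theorem LamP_sat [FiniteDimensional K H'] [IsGalois K H'] [FiniteDimensional K H] [IsGalois K H] (h : H ≤ H') {x : ℝ}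
    (hx : x ∈ LamP H') {k : ℕ} (hk : k ≠ 0) (hkx : (k : ℝ) * x ∈ LamP H) : x ∈ LamP H := by
  obtain ⟨hu, hu'⟩ := hx
  obtain ⟨hv, -⟩ := hkx
  have hpow : Real.exp ((k : ℝ) * x) = Real.exp x ^ k := Real.exp_nat_mul x k
  rw [hpow] at hv
  have hmem : Real.exp x ∈ H := by
    refine mem_of_fixed h hu fun γ hγ => ?_
    have h1 : act γ (Real.exp x) ^ k = Real.exp x ^ k := by
      rw [← act_pow γ hu]
      exact hγ _ hv
    exact (pow_left_inj₀ (hu' γ).le (Real.exp_pos x).le hk).mp h1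
  refine ⟨hmem, fun g => ?_⟩
  obtain ⟨g', rfl⟩ := res_surjective h g
  rw [act_res h g' hmem]
  exact hu' g'

omit [NumberField K] in
theorem Sat_mono [FiniteDimensional K H] [IsGalois K H] (h : H ≤ H') (hT : T ⊆ T') : Sat H T ≤ Sat H' T' := by
  rintro x ⟨hx, k, hk, hkx⟩
  exact ⟨LamP_mono h hx, k, hk, AddSubgroup.closure_mono hT hkx⟩

omit [NumberField K] in
theorem Sat_sat [FiniteDimensional K H'] [IsGalois K H'] [FiniteDimensional K H] [IsGalois K H] (h : H ≤ H') {x : ℝ}
    (hx : x ∈ Sat H' T') {k : ℕ} (hk : k ≠ 0) (hkx : (k : ℝ) * x ∈ Sat H T) : x ∈ Sat H T := by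
  obtain ⟨h1, j, hj, h2⟩ := hkx
  refine ⟨LamP_sat h hx.1 hk h1, j * k, mul_ne_zero hj hk, ?_⟩
  push_cast
  rw [mul_assoc]
  exact h2

/-- the element `exp x` of `H` -/
noncomputable def el (x : LamP H) : H := ⟨Real.exp (x : ℝ), (show Real.exp (x : ℝ) ∈ H from x.2.1)⟩

omit [NumberField K] in
lemma el_ne_zero (x : LamP H) : el x ≠ 0 := fun h => (Real.exp_pos (x : ℝ)).ne' (congrArg Subtype.val h)

omit [NumberField K] in
lemma el_zero : el (0 : LamP H) = 1 := Subtype.ext Real.exp_zero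

omit [NumberField K] in
lemma el_add (x y : LamP H) : el (x + y) = el x * el y := Subtype.ext (Real.exp_add _ _)

/-- the valuation of `exp x` -/
noncomputable def vlog [NumberField H] (w : PrI H) : LamP H →+ ℤ where
  toFun x := WithZero.log (w.valuation H (el x))
  map_zero' := by
    rw [el_zero, map_one, WithZero.log_one]
  map_add' x y := by
    rw [el_add, map_mul, WithZero.log_mul ((Valuation.ne_zero_iff _).2 (el_ne_zero x))
      ((Valuation.ne_zero_iff _).2 (el_ne_zero y))]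

omit [NumberField K] in
lemma vlog_eq_zero [NumberField H] (w : PrI H) (x : LamP H) : vlog w x = 0 ↔ w.valuation H (el x) = 1 := by
  have hv : w.valuation H (el x) ≠ 0 := (Valuation.ne_zero_iff _).2 (el_ne_zero x)
  constructor
  · intro h
    have h1 : WithZero.log (w.valuation H (el x)) = 0 := h
    rw [← WithZero.exp_log hv, h1, WithZero.exp_zero]
  · intro h
    show WithZero.log (w.valuation H (el x)) = 0
    rw [h, WithZero.log_one]

/-- an element with all valuations `0` is the logarithm of a unit -/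
lemma mem_Lam [NumberField H] {x : LamP H} (h : ∀ w : PrI H, vlog w x = 0) : (x : ℝ) ∈ Lam H := by
  have hval : ∀ w : PrI H, w.valuation H (el x) = 1 := fun w => (vlog_eq_zero w x).1 (h w)
  have hne : Real.exp (x : ℝ) ≠ 0 := (Real.exp_pos _).ne'
  have hmem : Real.exp (x : ℝ) ∈ H := (el x).2
  have h1 : IsIntegral ℤ (Real.exp (x : ℝ)) := by
    obtain ⟨z, hz⟩ := HeightOneSpectrum.mem_integers_of_valuation_le_one H (el x) (fun w => (hval w).le)
    have h2 : IsIntegral ℤ (el x) := by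
      rw [← hz]; exact RingOfIntegers.isIntegral_coe z
    exact h2.map (H.val.restrictScalars ℤ)
  have h3 : IsIntegral ℤ ((Real.exp (x : ℝ))⁻¹) := by
    obtain ⟨z, hz⟩ := HeightOneSpectrum.mem_integers_of_valuation_le_one H ((el x)⁻¹)
      (fun w => by rw [map_inv₀, hval w, inv_one])
    have h2 : IsIntegral ℤ ((el x)⁻¹) := by
      rw [← hz]; exact RingOfIntegers.isIntegral_coe z
    exact h2.map (H.val.restrictScalars ℤ)
  exact ⟨⟨⟨hmem, h1⟩, ⟨H.inv_mem hmem, h3⟩, hne⟩, x.2.2⟩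

omit [NumberField K] in
lemma vlog_finite [NumberField H] (x : LamP H) : {w : PrI H | vlog w x ≠ 0}.Finite := by
  have h1 := HeightOneSpectrum.Support.finite (R := 𝓞 H) (K := H) (el x)
  have h2 := HeightOneSpectrum.Support.finite (R := 𝓞 H) (K := H) (el x)⁻¹
  refine (h1.union h2).subset ?_
  intro w hw
  by_contra hcon
  apply hw
  rw [vlog_eq_zero]
  rw [Set.mem_union, not_or] at hcon
  have h3 : w.valuation H (el x) ≤ 1 := not_lt.1 hcon.1
  have h4 : w.valuation H (el x)⁻¹ ≤ 1 := not_lt.1 hcon.2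
  have hv := (Valuation.ne_zero_iff (w.valuation H)).2 (el_ne_zero x)
  rw [map_inv₀, inv_le_one₀ (zero_lt_iff.2 hv)] at h4
  exact le_antisymm h3 h4

theorem Sat_fg [FiniteDimensional K H] (hT : T.Finite) (hTH : T ⊆ LamP H) : (Sat H T).FG := by
  classical
  have hnf : NumberField H := numberField_of_fd H
  -- the primes which occur
  let S : Set (PrI H) := ⋃ t ∈ {y : LamP H | (y : ℝ) ∈ T}, {w : PrI H | vlog w t ≠ 0}
  have hfinT : {y : LamP H | (y : ℝ) ∈ T}.Finite :=
    hT.preimage (Set.injOn_of_injective Subtype.val_injective)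
  have hS : S.Finite := hfinT.biUnion fun t _ => vlog_finite t
  have : Finite S := hS
  let ι : Sat H T →+ LamP H := AddSubgroup.inclusion Sat_le
  let φ : Sat H T →ₗ[ℤ] (S → ℤ) :=
    (AddMonoidHom.mk' (fun x => fun w : S => vlog (w : PrI H) (ι x)) (by
      intro x y
      funext w
      simp only [map_add, Pi.add_apply])).toIntLinearMap
  have hcl : ∀ (w : PrI H), w ∉ S → ∀ y : LamP H, (y : ℝ) ∈ AddSubgroup.closure T → vlog w y = 0 := by
    intro w hw y hy
    have key : ∀ z : ℝ, z ∈ AddSubgroup.closure T → ∃ hz : z ∈ LamP H, vlog w ⟨z, hz⟩ = 0 := by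
      intro z hz
      induction hz using AddSubgroup.closure_induction with
      | mem t ht =>
        refine ⟨hTH ht, ?_⟩
        by_contra hne
        exact hw (Set.mem_biUnion (show (⟨t, hTH ht⟩ : LamP H) ∈ {y : LamP H | (y : ℝ) ∈ T} from ht) hne)
      | zero => exact ⟨zero_mem _, map_zero (vlog w)⟩
      | add a b _ _ ha hb =>
        obtain ⟨ha, ha'⟩ := ha
        obtain ⟨hb, hb'⟩ := hb
        refine ⟨add_mem ha hb, ?_⟩
        have : (⟨a + b, add_mem ha hb⟩ : LamP H) = ⟨a, ha⟩ + ⟨b, hb⟩ := rfl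
        rw [this, map_add, ha', hb', add_zero]
      | neg a _ ha =>
        obtain ⟨ha, ha'⟩ := ha
        refine ⟨neg_mem ha, ?_⟩
        have : (⟨-a, neg_mem ha⟩ : LamP H) = -⟨a, ha⟩ := rfl
        rw [this, map_neg, ha', neg_zero]
    obtain ⟨_, h⟩ := key _ hy
    exact h
  have hker : ∀ x : Sat H T, φ x = 0 → (x : ℝ) ∈ Lam H := by
    intro x hx
    refine mem_Lam (x := ι x) fun w => ?_
    by_cases hw : w ∈ S
    · exact congrFun hx ⟨w, hw⟩
    · obtain ⟨-, k, hk, hkx⟩ := x.2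
      have h1 : ((k • ι x : LamP H) : ℝ) = (k : ℝ) * (x : ℝ) := by
        rw [AddSubgroup.coe_nsmul, nsmul_eq_mul]
        rfl
      have h2 := hcl w hw (k • ι x) (by rw [h1]; exact hkx)
      rw [map_nsmul, smul_eq_zero] at h2
      exact h2.resolve_left hk
  have hLam : Module.Finite ℤ (Lam H) :=
    Module.Finite.iff_addGroup_fg.2 ((AddGroup.fg_iff_addSubgroup_fg _).2 Lam_fg)
  have hkerfg : (LinearMap.ker φ).FG := by
    let ψ : LinearMap.ker φ →ₗ[ℤ] Lam H :=
      (AddMonoidHom.mk' (fun x : LinearMap.ker φ => (⟨((x : Sat H T) : ℝ), hker x.1 x.2⟩ : Lam H)) (by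
        intro x y
        rfl)).toIntLinearMap
    have hψ : Function.Injective ψ := by
      intro x y hxy
      have h1 : ((x : Sat H T) : ℝ) = ((y : Sat H T) : ℝ) := congrArg (fun z : Lam H => (z : ℝ)) hxy
      exact Subtype.ext (Subtype.ext h1)
    have : Module.Finite ℤ (LinearMap.ker φ) := Module.Finite.of_injective ψ hψ
    exact Module.Finite.iff_fg.1 this
  have htop : (⊤ : Submodule ℤ (Sat H T)).FG := by
    refine Submodule.fg_of_fg_map_of_fg_inf_ker φ (IsNoetherian.noetherian _) ?_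
    rw [top_inf_eq]
    exact hkerfg
  have hfin : Module.Finite ℤ (Sat H T) := ⟨htop⟩
  rw [← AddGroup.fg_iff_addSubgroup_fg]
  exact Module.Finite.iff_addGroup_fg.mp hfin

end Pool.Agent.STs
end

section

/-!
# TASK TA2: nonvanishing (finite groups)

PROOF. If `gq U h B X Y A = 0` for all `A`, then `∑_i U(A B^i) + ∑_i U(A B^i X⁻¹Y⁻¹) = ∑_i U(A B^i X⁻¹) + ∑_i U(A B^i Y⁻¹)`, and `X_rel` (nt_r/A2) gives `h (1 + χ(XY)⁻¹) = h (χ X⁻¹ + χ Y⁻¹)` (`χ B = 1`), i.e. `h (1 - χ X⁻¹)(1 - χ Y⁻¹) = 0`, contradiction.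
(`ι = Fin 2 × Fin h` or `Finset.range h ×ˢ ...`, or a disjoint sum, for the index sets.)
-/

set_option autoImplicit false

namespace Pool.Agent.STs

open Pool.Agent.STr

variable {C : Type*} [CommGroup C]

/-- `(1 - X⁻¹)(1 - Y⁻¹) ∑_{i < h} B^i U` at `A` -/
noncomputable def gq (U : C → ℝ) (h : ℕ) (B X Y : C) (A : C) : ℝ :=
  ∑ i ∈ Finset.range h, (U (A * B ^ i) - U (A * B ^ i * X⁻¹) - U (A * B ^ i * Y⁻¹) + U (A * B ^ i * X⁻¹ * Y⁻¹))

theorem gq_ne [Finite C] {U : C → ℝ} {χ : C →* ℂˣ} (hU : InX U χ) {h : ℕ} (hh : h ≠ 0) {B X Y : C} (hB : χ B = 1)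
    (hX : χ X ≠ 1) (hY : χ Y ≠ 1) : ∃ A, gq U h B X Y A ≠ 0 := by
  by_contra hcon
  push Not at hcon
  have h1 := X_rel hU (Finset.range h ×ˢ (Finset.univ : Finset Bool))
    (Finset.range h ×ˢ (Finset.univ : Finset Bool))
    (fun p => if p.2 then B ^ p.1 * X⁻¹ * Y⁻¹ else B ^ p.1)
    (fun p => if p.2 then B ^ p.1 * Y⁻¹ else B ^ p.1 * X⁻¹) (fun A => by
      rw [Finset.sum_product, Finset.sum_product]
      simp only [Fintype.sum_bool, if_true, if_false, Bool.false_eq_true]
      have h2 := hcon A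
      unfold gq at h2
      rw [← sub_eq_zero, ← Finset.sum_sub_distrib, ← h2]
      refine Finset.sum_congr rfl fun i _ => ?_
      simp only [← mul_assoc]
      ring)
  rw [Finset.sum_product, Finset.sum_product] at h1
  simp only [Fintype.sum_bool, if_true, if_false, Bool.false_eq_true, map_mul, map_pow, hB, one_pow,
    one_mul, map_inv, Finset.sum_const, Finset.card_range, nsmul_eq_mul, Units.val_mul,
    Units.val_one] at h1
  have hh' : (h : ℂ) ≠ 0 := Nat.cast_ne_zero.2 hh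
  have h3 := mul_left_cancel₀ hh' h1
  have h4 : (1 - (((χ X)⁻¹ : ℂˣ) : ℂ)) * (1 - (((χ Y)⁻¹ : ℂˣ) : ℂ)) = 0 := by
    linear_combination h3
  rcases mul_eq_zero.1 h4 with h5 | h5
  · apply hX
    have h6 : ((χ X)⁻¹ : ℂˣ) = 1 := Units.ext (by rw [Units.val_one]; linear_combination -h5)
    exact inv_eq_one.1 h6
  · apply hY
    have h6 : ((χ Y)⁻¹ : ℂˣ) = 1 := Units.ext (by rw [Units.val_one]; linear_combination -h5)
    exact inv_eq_one.1 h6

/-- invariance -/
theorem gq_inv (U : C → ℝ) {h : ℕ} {B X Y : C} (hB : B ^ h = 1) (A : C) : gq U h B X Y (A * B) = gq U h B X Y A := by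
  obtain ⟨g, hg⟩ : ∃ g : ℕ → ℝ, g = fun i => U (A * B ^ i) - U (A * B ^ i * X⁻¹) -
    U (A * B ^ i * Y⁻¹) + U (A * B ^ i * X⁻¹ * Y⁻¹) := ⟨_, rfl⟩
  have h1 : gq U h B X Y (A * B) = ∑ i ∈ Finset.range h, g (i + 1) := by
    unfold gq
    rw [hg]
    refine Finset.sum_congr rfl fun i _ => ?_
    have h2 : A * B * B ^ i = A * B ^ (i + 1) := by rw [pow_succ', mul_assoc]
    rw [h2]
  have h2 : gq U h B X Y A = ∑ i ∈ Finset.range h, g i := by
    unfold gq
    rw [hg]
  have h3 : g h = g 0 := by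
    rw [hg]
    simp only [hB, pow_zero]
  have h4 := Finset.sum_range_succ g h
  have h5 := Finset.sum_range_succ' g h
  rw [h1, h2]
  linarith

end Pool.Agent.STs
end
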