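import Pool.Agent.Lib.MP_1ef7cf_nt_r.Mg.G021
import Pool.Agent.Lib.MP_1ef7cf_nt_r.Mg.G019
import Pool.Agent.Lib.MP_1ef7cf_nt_r.Mg.G001
import Pool.Agent.Lib.MP_1ef7cf_nt_r.A4
import Pool.Agent.Lib.MP_1ef7cf_nt_s.X1
import Pool.Agent.Lib.MP_1ef7cf_nt_s.Mg.G001
import Pool.Agent.Lib.MP_1ef7cf_nt_s.Hx2
import Pool.Agent.Lib.MP_1ef7cf_nt_r.Mg.G015
import Pool.Agent.Lib.MP_1ef7cf_nt_r.Mg.G009
import Pool.Agent.Lib.MP_1ef7cf_nt_r.Mg.G029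
import Pool.Agent.Lib.MP_1ef7cf_nt_r.Mg.G031
import Pool.Agent.Lib.MP_1ef7cf_nt_r.Mg.G018
import Pool.Agent.Lib.MP_1ef7cf_nt_r.Mg.G016

section

/-!
# Proposition 5.1 of the paper, without units, and its form for large primes

The proof of `MP_1ef7cf_nt_r/V9.lean` with the groups `Sat` instead of `Lam`: `Sat R T`, `T` the values `Lz m A`, is finitely generated
(`Sat_fg`) and saturated in `Sat R' T'` for `R ≤ R'` (`Sat_sat`).
-/

set_option autoImplicit false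

open NumberField IsDedekindDomain nonZeroDivisors IntermediateField

namespace Pool.Agent.STs

open Pool.Agent.ST
open Pool.Agent.STr (Lz ev InX Nw SS EE EE_finite EE_int scale_hom ext_hom layer bound_finite A4_norm_int)

variable {K : Type*} [Field K] [NumberField K] [Algebra K ℝ] {σ₂ : K →+* ℝ} {n m : Ideal (𝓞 K)}

lemma X9_intz (z : ℤ) : IsIntegral ℤ (((z : ℚ) : ℂ)) := by
  have : (((z : ℚ) : ℂ)) = algebraMap ℤ ℂ z := by simp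
  rw [this]
  exact isIntegral_algebraMap

lemma X9_int {C : Type*} [CommGroup C] [Finite C] (χ : C →* ℂˣ) (B : C) :
    IsIntegral ℤ ((((χ B)⁻¹ : ℂˣ) : ℂ)) := by
  have h1 : ((((χ B)⁻¹ : ℂˣ) : ℂ)) ^ (Nat.card C) = 1 := by
    rw [← Units.val_pow_eq_pow_val, inv_pow, ← map_pow, pow_card_eq_one', map_one, inv_one, Units.val_one]
  refine IsIntegral.of_pow (Nat.card_pos (α := C)) ?_
  rw [h1]
  exact isIntegral_one

/-- the logarithms of the numbers `ε_m(A)` are in `LamP R` -/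
lemma X9_LamP {R : IntermediateField K ℝ} (L : Lw σ₂ m R) (A : RayClassGroup σ₂ m) : Lz σ₂ m A ∈ LamP R := by
  refine ⟨L.mem A, fun g => ?_⟩
  obtain ⟨B, hB⟩ := L.tr g
  have h1 : act g (ev σ₂ m A) = ev σ₂ m (A * B) := hB A
  change 0 < act g (ev σ₂ m A)
  rw [h1]
  exact Real.exp_pos _

lemma X9_field (hw : Hw σ₂ n) (hm : m ≠ ⊥) (hnm : n ∣ m) : ∃ R : IntermediateField K ℝ,
    FiniteDimensional K R ∧ IsAbelianGalois K R ∧ ∀ A, Lz σ₂ m A ∈ LamP R := by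
  obtain ⟨R, hR, ⟨L⟩⟩ := hw.lw m hm hnm
  exact ⟨R, hR.fd, hR.abel, X9_LamP L⟩

/-- a finite set of algebraic integers `z` controls the bad layers -/
theorem X9_core (hw : Hw σ₂ n) (hm : m ≠ ⊥) (hnm : n ∣ m) {χ : RayClassGroup σ₂ m →* ℂˣ} (hχ : InX (Lz σ₂ m) χ)
    (s : ℕ) :
    ∃ Z : Set ℂ, Z.Finite ∧ ∀ l : ℕ, l.Prime → ∀ (m' : Ideal (𝓞 K)) (hle : m' ≤ m), m' ≠ ⊥ →
      (Nw m m').ncard ≤ s → InX (Lz σ₂ m') (χ.comp (pr σ₂ hle)) →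
      ∀ (ω : RayClassGroup σ₂ m' →* ℂˣ) (k : ℕ), orderOf ω = l ^ k → ∀ T : Finset ℕ, T ⊆ Finset.Icc 1 k →
      (∀ i ∈ T, ∀ η ∈ Subgroup.zpowers ω, orderOf η = l ^ i →
        ¬ InX (Lz σ₂ m') (χ.comp (pr σ₂ hle) * η)) →
      ∃ z ∈ Z, z ≠ 0 ∧ IsIntegral ℤ z ∧ ∃ y : ℂ, IsIntegral ℤ y ∧ z = (l : ℂ) ^ T.card * y := by
  classical
  obtain ⟨R, hfdR, habR, hRm⟩ := X9_field hw hm hnm
  have hfinm : Finite (RayClassGroup σ₂ m) := hw.toHx.finite_cl hm hnm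
  obtain ⟨c, hc⟩ := id hχ
  set T₀ : Set ℝ := Set.range (Lz σ₂ m) with hT₀
  have hT₀f : T₀.Finite := Set.finite_range _
  have hT₀R : T₀ ⊆ LamP R := by
    rintro _ ⟨A, rfl⟩
    exact hRm A
  have hLzT : ∀ A, Lz σ₂ m A ∈ Sat R T₀ := fun A => Sat_of_mem (hRm A) ⟨A, rfl⟩
  obtain ⟨N, hN, hNc⟩ := scale_hom (Sat_fg hT₀f hT₀R) c
  set c₁ : ℝ →ₗ[ℚ] ℚ := (N : ℚ) • c with hc₁def
  have hc₁ : ∀ x ∈ Sat R T₀, ∃ z : ℤ, c₁ x = z := by
    intro x hx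
    obtain ⟨z, hz⟩ := hNc x hx
    refine ⟨z, ?_⟩
    rw [hc₁def, LinearMap.smul_apply, smul_eq_mul, hz]
  have hint₁ : IsIntegral ℤ (SS c₁ (Lz σ₂ m) χ) := by
    let _ : Fintype (RayClassGroup σ₂ m) := Fintype.ofFinite _
    unfold SS
    rw [finsum_eq_sum_of_fintype]
    refine IsIntegral.sum _ fun B _ => ?_
    obtain ⟨z, hz⟩ := hc₁ _ (hLzT B)
    refine IsIntegral.mul (X9_int χ B) ?_
    rw [hz]
    exact X9_intz z
  refine ⟨_, (EE_finite χ s).image (fun z => z * SS c₁ (Lz σ₂ m) χ), fun l hl m' hle hm' hs hX ω k hω T hT hbad => ?_⟩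
  have hmm' : m ∣ m' := Ideal.dvd_iff_le.2 hle
  have hnm' : n ∣ m' := hnm.trans hmm'
  obtain ⟨R₁, hfdR₁, habR₁, hRm'⟩ := X9_field hw hm' hnm'
  have habR' : IsAbelianGalois K (R ⊔ R₁ : IntermediateField K ℝ) := isAbelianGalois_sup
  have hfdR' : FiniteDimensional K (R ⊔ R₁ : IntermediateField K ℝ) := IntermediateField.finiteDimensional_sup _ _
  have hfinm' : Finite (RayClassGroup σ₂ m') := hw.toHx.finite_cl hm' hnm'
  have hLL' : R ≤ R ⊔ R₁ := le_sup_left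
  have hLL₁ : R₁ ≤ R ⊔ R₁ := le_sup_right
  have hT₁R : T₀ ∪ Set.range (Lz σ₂ m') ⊆ LamP (R ⊔ R₁) := by
    rintro x (hx | ⟨A, rfl⟩)
    · exact LamP_mono hLL' (hT₀R hx)
    · exact LamP_mono hLL₁ (hRm' A)
  obtain ⟨c', hc', hc'z⟩ := ext_hom (Sat_mono (T' := T₀ ∪ Set.range (Lz σ₂ m')) hLL' Set.subset_union_left)
    (Sat_fg (hT₀f.union (Set.finite_range _)) hT₁R)
    (fun x hx k hk hkx => Sat_sat hLL' hx hk hkx) c₁ hc₁
  have hFF : ∀ B : RayClassGroup σ₂ m', ∃ z : ℤ, c' (Lz σ₂ m' B) = z := fun B =>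
    hc'z _ (Sat_of_mem (LamP_mono hLL₁ (hRm' B)) (Or.inr ⟨B, rfl⟩))
  choose F hFz using hFF
  let _ : Fintype (RayClassGroup σ₂ m') := Fintype.ofFinite _
  have hSS : ∀ ψ : RayClassGroup σ₂ m' →* ℂˣ, SS c' (Lz σ₂ m') ψ =
      ∑ g : RayClassGroup σ₂ m', (((ψ g)⁻¹ : ℂˣ) : ℂ) * (F g : ℂ) := by
    intro ψ
    unfold SS
    rw [finsum_eq_sum_of_fintype]
    refine Finset.sum_congr rfl fun B _ => ?_
    rw [hFz B]
    norm_cast
  have hSSm : SS c' (Lz σ₂ m) χ = SS c₁ (Lz σ₂ m) χ := by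
    unfold SS
    refine finsum_congr fun B => ?_
    rw [hc' _ (hLzT B)]
  have hz : SS c' (Lz σ₂ m') (χ.comp (pr σ₂ hle)) = EE χ m' * SS c₁ (Lz σ₂ m) χ := by
    rw [SS_pr hw.toHx hm hnm hm' hle c' χ, hSSm]
  have hEE : EE χ m' ≠ 0 := ((InX_pr hw.toHx hm hnm hm' hle χ).1 hX).2
  have hSS₁ : SS c₁ (Lz σ₂ m) χ ≠ 0 := by
    have : SS c₁ (Lz σ₂ m) χ = (N : ℂ) * SS c (Lz σ₂ m) χ := by
      let _ : Fintype (RayClassGroup σ₂ m) := Fintype.ofFinite _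
      unfold SS
      rw [finsum_eq_sum_of_fintype, finsum_eq_sum_of_fintype, Finset.mul_sum]
      refine Finset.sum_congr rfl fun B _ => ?_
      rw [hc₁def, LinearMap.smul_apply, smul_eq_mul]
      push_cast
      ring
    rw [this]
    exact mul_ne_zero (Nat.cast_ne_zero.2 hN) hc
  obtain ⟨y, hy1, hy2⟩ := layer F (χ.comp (pr σ₂ hle)) ω hl hω T hT (by
    intro i hi η hη ho
    have h1 := hbad i hi η hη ho
    have h2 : SS c' (Lz σ₂ m') (χ.comp (pr σ₂ hle) * η) = 0 := by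
      by_contra hne
      exact h1 ⟨c', hne⟩
    rw [hSS] at h2
    exact h2)
  rw [← hSS, hz] at hy2
  exact ⟨_, ⟨EE χ m', ⟨m', hm', hs, rfl⟩, rfl⟩, mul_ne_zero hEE hSS₁, (EE_int hm' χ).mul hint₁, y, hy1, hy2⟩

theorem prop51' (hw : Hw σ₂ n) (hm : m ≠ ⊥) (hnm : n ∣ m) {χ : RayClassGroup σ₂ m →* ℂˣ} (hχ : InX (Lz σ₂ m) χ)
    (s : ℕ) {l : ℕ} (hl : l.Prime) :
    ∃ r₀ : ℕ, ∀ (m' : Ideal (𝓞 K)) (hle : m' ≤ m), m' ≠ ⊥ → (Nw m m').ncard ≤ s →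
      InX (Lz σ₂ m') (χ.comp (pr σ₂ hle)) → ∀ (ω : RayClassGroup σ₂ m' →* ℂˣ) (k : ℕ), orderOf ω = l ^ k →
      ∃ T : Finset ℕ, T ⊆ Finset.Icc 1 k ∧ T.card ≤ r₀ ∧ ∀ i ∈ Finset.Icc 1 k, i ∉ T →
        ∃ η ∈ Subgroup.zpowers ω, orderOf η = l ^ i ∧ InX (Lz σ₂ m') (χ.comp (pr σ₂ hle) * η) := by
  classical
  obtain ⟨Z, hZ, hcore⟩ := X9_core hw hm hnm hχ s
  obtain ⟨r₀, hr₀⟩ := bound_finite hl hZ
  refine ⟨r₀, fun m' hle hm' hs hX ω k hω => ?_⟩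
  refine ⟨(Finset.Icc 1 k).filter (fun i => ∀ η ∈ Subgroup.zpowers ω, orderOf η = l ^ i →
    ¬ InX (Lz σ₂ m') (χ.comp (pr σ₂ hle) * η)), Finset.filter_subset _ _, ?_, ?_⟩
  · obtain ⟨z, hz, hz0, hzi, y, hy, hzy⟩ := hcore l hl m' hle hm' hs hX ω k hω _ (Finset.filter_subset _ _)
      fun i hi => (Finset.mem_filter.1 hi).2
    exact hr₀ z hz hz0 hzi _ y hy hzy
  · intro i hi hi'
    by_contra hcon
    apply hi'
    refine Finset.mem_filter.2 ⟨hi, fun η hη ho hX' => hcon ⟨η, hη, ho, hX'⟩⟩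

/-- a nonzero algebraic integer is divisible by finitely many prime numbers only -/
lemma X9_bound {z : ℂ} (hz : z ≠ 0) (hi : IsIntegral ℤ z) :
    ∃ r : ℕ, ∀ l : ℕ, l.Prime → ∀ y : ℂ, IsIntegral ℤ y → z = (l : ℂ) * y → l ≤ r := by
  have hiQ : IsIntegral ℚ z := hi.tower_top
  have : FiniteDimensional ℚ (IntermediateField.adjoin ℚ {z}) := IntermediateField.adjoin.finiteDimensional hiQ
  set K := IntermediateField.adjoin ℚ {z} with hK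
  have hzK : z ∈ K := IntermediateField.mem_adjoin_simple_self ℚ z
  set z' : K := ⟨z, hzK⟩ with hz'
  have hz'0 : z' ≠ 0 := by
    intro h0
    exact hz (congrArg Subtype.val h0)
  have hcoe : Function.Injective (K.val : K → ℂ) := K.val.injective
  have hint : ∀ w : K, IsIntegral ℤ (w : ℂ) → IsIntegral ℤ w := by
    intro w hw
    exact (isIntegral_algHom_iff (K.val.restrictScalars ℤ) hcoe).1 hw
  obtain ⟨n, hn⟩ := A4_norm_int (hint z' hi)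
  have hn0 : n ≠ 0 := by
    intro h0
    apply hz'0
    apply (Algebra.norm_eq_zero_iff (R := ℚ)).1
    rw [hn, h0]; simp
  refine ⟨n.natAbs, fun l hl y hy hzy => ?_⟩
  have hl0 : (l : ℂ) ≠ 0 := by exact_mod_cast hl.ne_zero
  have hyK : y ∈ K := by
    have : y = z / (l : ℂ) := by
      rw [hzy]; field_simp
    rw [this]
    exact K.div_mem hzK (_root_.natCast_mem K l)
  set y' : K := ⟨y, hyK⟩ with hy'
  obtain ⟨m, hm⟩ := A4_norm_int (hint y' hy)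
  have hmul : z' = (algebraMap ℚ K (l : ℚ)) * y' := by
    apply Subtype.ext
    rw [hz', hy']
    simp only [map_natCast]
    push_cast
    exact hzy
  have hnorm : (n : ℚ) = (l : ℚ) ^ (Module.finrank ℚ K) * (m : ℚ) := by
    rw [← hn, ← hm, hmul, map_mul, Algebra.norm_algebraMap]
  have hnorm' : n = (l : ℤ) ^ (Module.finrank ℚ K) * m := by
    exact_mod_cast hnorm
  have hd : 0 < Module.finrank ℚ K := Module.finrank_pos
  have hdvd : (l : ℤ) ∣ n := by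
    rw [hnorm']
    exact Dvd.dvd.mul_right (dvd_pow_self _ hd.ne') m
  apply Nat.le_of_dvd (Int.natAbs_pos.2 hn0)
  have := Int.natAbs_dvd_natAbs.2 hdvd
  rwa [Int.natAbs_natCast] at this

lemma X9_bound_finite {Z : Set ℂ} (hfin : Z.Finite) :
    ∃ r : ℕ, ∀ z ∈ Z, z ≠ 0 → IsIntegral ℤ z → ∀ l : ℕ, l.Prime → ∀ y : ℂ, IsIntegral ℤ y → z = (l : ℂ) * y →
      l ≤ r := by
  classical
  have hex : ∀ z : ℂ, ∃ r : ℕ, z ≠ 0 → IsIntegral ℤ z →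
      ∀ l : ℕ, l.Prime → ∀ y : ℂ, IsIntegral ℤ y → z = (l : ℂ) * y → l ≤ r := by
    intro z
    by_cases h : z ≠ 0 ∧ IsIntegral ℤ z
    · obtain ⟨r, hr⟩ := X9_bound h.1 h.2
      exact ⟨r, fun _ _ => hr⟩
    · exact ⟨0, fun h1 h2 => absurd ⟨h1, h2⟩ h⟩
  choose r hr using hex
  refine ⟨hfin.toFinset.sup r, fun z hz h0 hi l hl y hy hzy => ?_⟩
  exact (hr z h0 hi l hl y hy hzy).trans (Finset.le_sup (f := r) (hfin.mem_toFinset.2 hz))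

theorem prop51L (hw : Hw σ₂ n) (hm : m ≠ ⊥) (hnm : n ∣ m) {χ : RayClassGroup σ₂ m →* ℂˣ} (hχ : InX (Lz σ₂ m) χ)
    (s : ℕ) : ∃ l₀ : ℕ, ∀ l : ℕ, l.Prime → l₀ < l → ∀ (m' : Ideal (𝓞 K)) (hle : m' ≤ m), m' ≠ ⊥ →
      (Nw m m').ncard ≤ s → InX (Lz σ₂ m') (χ.comp (pr σ₂ hle)) → ∀ ω : RayClassGroup σ₂ m' →* ℂˣ, orderOf ω = l →
      ∃ η ∈ Subgroup.zpowers ω, orderOf η = l ∧ InX (Lz σ₂ m') (χ.comp (pr σ₂ hle) * η) := by
  classical
  obtain ⟨Z, hZ, hcore⟩ := X9_core hw hm hnm hχ s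
  obtain ⟨l₀, hl₀⟩ := X9_bound_finite hZ
  refine ⟨l₀, fun l hl hll m' hle hm' hs hX ω hω => ?_⟩
  by_contra hcon
  obtain ⟨z, hz, hz0, hzi, y, hy, hzy⟩ := hcore l hl m' hle hm' hs hX ω 1 (by rw [hω, pow_one]) {1} (by simp) (by
    intro i hi η hη ho hX'
    rw [Finset.mem_singleton.1 hi, pow_one] at ho
    exact hcon ⟨η, hη, ho, hX'⟩)
  rw [Finset.card_singleton, pow_one] at hzy
  have := hl₀ z hz hz0 hzi l hl y hy hzy
  omega

end Pool.Agent.STs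
end

section

/-!
# TASK G1s: wild twists

PROOF: word for word `stepA` in nt_r/G1.lean with `hw : Hw` in the place of `hy : Hy` (`prop51'` of X9, `InX.lift`, `Hx.finite_cl` of Hx.lean).
-/

set_option autoImplicit false

open NumberField IsDedekindDomain nonZeroDivisors IntermediateField

namespace Pool.Agent.STs

open Pool.Agent.ST
open Pool.Agent.STr (Lz ev InX Nw NT exists_wild exists_NT)

variable {K : Type*} [Field K] [NumberField K] [Algebra K ℝ] {σ₂ : K →+* ℝ} {n m : Ideal (𝓞 K)}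

theorem stepA (hw : Hw σ₂ n) (hm : m ≠ ⊥) (hnm : n ∣ m) {χ : RayClassGroup σ₂ m →* ℂˣ} (hχ : InX (Lz σ₂ m) χ)
    {r : ℕ} (hr : r.Prime) (hr2 : r ≠ 2) {q : PrI K} (hqr : q.asIdeal = Ideal.span {(r : 𝓞 K)}) (hq : ¬ q.asIdeal ∣ m)
    (hχq : χ (cls σ₂ m (prJ m q hq)) ≠ 1) (I₀ : ℕ) :
    ∃ (t i : ℕ) (hle : m * Ideal.span {(r : 𝓞 K)} ^ t ≤ m) (η₀ : (ZMod (r ^ t))ˣ →* ℂˣ)
      (η : RayClassGroup σ₂ (m * Ideal.span {(r : 𝓞 K)} ^ t) →* ℂˣ), I₀ ≤ i ∧ 1 ≤ i ∧ 2 ≤ t ∧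
      orderOf η₀ = r ^ i ∧ η₀ (-1) = 1 ∧ NT (r ^ t) η₀ η ∧
      InX (Lz σ₂ (m * Ideal.span {(r : 𝓞 K)} ^ t)) (χ.comp (pr σ₂ hle) * η) := by
  classical
  obtain ⟨r₀, hr₀⟩ := prop51' hw hm hnm hχ 1 hr
  obtain ⟨t, ht⟩ : ∃ t, t = I₀ + r₀ + 3 := ⟨_, rfl⟩
  have hle : m * Ideal.span {(r : 𝓞 K)} ^ t ≤ m := Ideal.mul_le_left
  have hP0 : Ideal.span {(r : 𝓞 K)} ≠ ⊥ := by rw [← hqr]; exact q.ne_bot
  have hPt0 : Ideal.span {(r : 𝓞 K)} ^ t ≠ ⊥ := by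
    rw [← Ideal.zero_eq_bot] at hP0 ⊢
    exact pow_ne_zero _ hP0
  have hM : m * Ideal.span {(r : 𝓞 K)} ^ t ≠ ⊥ := by
    rw [← Ideal.zero_eq_bot] at hm hPt0 ⊢
    exact mul_ne_zero hm hPt0
  have hnM : n ∣ m * Ideal.span {(r : 𝓞 K)} ^ t := hnm.mul_right _
  have hnew : ∀ v : PrI K, ¬ v.asIdeal ∣ m → v.asIdeal ∣ m * Ideal.span {(r : 𝓞 K)} ^ t → v = q := by
    intro v hv hvM
    have h1 : Prime v.asIdeal := v.prime
    rcases h1.dvd_or_dvd hvM with h | h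
    · exact absurd h hv
    · have h2 := h1.dvd_of_dvd_pow h
      rw [← hqr] at h2
      exact eq_of_dvd_prime h2
  have hNw : (Nw m (m * Ideal.span {(r : 𝓞 K)} ^ t)).ncard ≤ 1 := by
    have h1 : Nw m (m * Ideal.span {(r : 𝓞 K)} ^ t) ⊆ {q} := fun v hv => hnew v hv.2 hv.1
    have h2 := Set.ncard_le_ncard h1 (Set.finite_singleton q)
    rwa [Set.ncard_singleton] at h2
  have hX : InX (Lz σ₂ (m * Ideal.span {(r : 𝓞 K)} ^ t)) (χ.comp (pr σ₂ hle)) := by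
    refine InX_lift hw.toHx hm hnm hM hle hχ fun v hv hvM => ?_
    have h1 := hnew v hv hvM
    subst h1
    exact hχq
  obtain ⟨ω₀, ho, h1⟩ := exists_wild hr hr2 (t := t) (by omega)
  have hMN : m * Ideal.span {(r : 𝓞 K)} ^ t ≤ Ideal.span {((r ^ t : ℕ) : 𝓞 K)} := by
    refine Ideal.mul_le_right.trans (le_of_eq ?_)
    rw [Ideal.span_singleton_pow, Nat.cast_pow]
  have hf : Finite (RayClassGroup σ₂ (m * Ideal.span {(r : 𝓞 K)} ^ t)) := hw.toHx.finite_cl hM hnM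
  have hN0 : r ^ t ≠ 0 := pow_ne_zero _ hr.ne_zero
  obtain ⟨ω, hω⟩ := exists_NT (σ₂ := σ₂) hw.h2 hN0 hM hMN ω₀ h1
  have hrm : IsCoprime (Ideal.span {(r : 𝓞 K)}) m := by
    rw [← hqr]
    exact coprime_prime_iff.2 hq
  have hoω : orderOf ω = r ^ (t - 1) := (Pool.Agent.STr.NT.order_wild hw.h2 hr hr2 hm hrm rfl hω ⟨_, ho⟩).trans ho
  obtain ⟨T, hT, hTc, hT'⟩ := hr₀ _ hle hM hNw hX ω (t - 1) hoω
  obtain ⟨i, hi, hiT⟩ : ∃ i ∈ Finset.Icc (I₀ + 1) (t - 1), i ∉ T := by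
    refine Finset.exists_mem_notMem_of_card_lt_card ?_
    rw [Nat.card_Icc]
    omega
  rw [Finset.mem_Icc] at hi
  obtain ⟨η, hη, hoη, hXη⟩ := hT' i (Finset.mem_Icc.2 ⟨by omega, hi.2⟩) hiT
  obtain ⟨j, hj⟩ := Subgroup.mem_zpowers_iff.1 hη
  have hNT : NT (r ^ t) (ω₀ ^ j) (ω ^ j) := hω.pow j
  have hd : orderOf (ω₀ ^ j) ∣ r ^ (t - 1) := by
    have h3 : ω₀ ^ (r ^ (t - 1)) = 1 := by rw [← ho]; exact pow_orderOf_eq_one ω₀
    refine orderOf_dvd_of_pow_eq_one (MonoidHom.ext fun x => ?_)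
    have h4 := DFunLike.congr_fun h3 x
    rw [MonoidHom.pow_apply, MonoidHom.one_apply] at h4
    rw [MonoidHom.pow_apply, MonoidHom.zpow_apply, MonoidHom.one_apply, ← zpow_natCast, ← zpow_mul, mul_comm,
      zpow_mul, zpow_natCast, h4, one_zpow]
  obtain ⟨i', -, hi'⟩ := (Nat.dvd_prime_pow hr).1 hd
  have h2 : orderOf (ω ^ j) = orderOf (ω₀ ^ j) := Pool.Agent.STr.NT.order_wild hw.h2 hr hr2 hm hrm rfl hNT ⟨_, hi'⟩
  rw [hj] at h2 hNT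
  refine ⟨t, i, hle, ω₀ ^ j, η, by omega, by omega, by omega, h2.symm.trans hoη, ?_, hNT, hXη⟩
  rw [MonoidHom.zpow_apply, h1, one_zpow]


end Pool.Agent.STs
end

section

/-!
# TASK AK: anchors at a level

`AK σ₂ M d a N κ`: `κ` is in `X` for `M`, and trivial on the classes whose Artin symbols fix `Lf a N = K(√a, cos (2π/N))`, a subfield of the ray class field of `M`.

PROOFS (all of them are contained in the proofs of `stepB` in nt_r/G3.lean, lines with `hNM'`, `hab'`, `hLf'`, `hκtr`, `hωtr`, `hηtr'`, `htr1`, and of `order_free` in nt_r/G4.lean, step 4).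
`truth`: `truth'` (C1t); `Lf a N ≤ L.H` from `se` and `cos_mem` (nt_r/N2). `lift`: `InX.lift`, `IsRCF.le`, `Lf a N ≤ H` for the ray class field `H` of `M` and `IsRCF.res_art`/`act_res` (cf. `Lv.act_art_pr` in nt_r/V1).
The ray class field of `M` exists by `Hx.rcf`. `twist`: `κ η` for a norm type character `η` modulo `N'` (`M ≤ (N N')`): `Lf a N ≤ Lf a (N N')` (`Lf_mono`), `cos (2π/N') ∈ Lf a (N N')` (`cos_mem_of_dvd`), `NT.fix` with `art_cos`, `cos_mod_iff`.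
`of_anc`: `κ` is `A.κ ∘ pr` on the level `M ≤ m₀`, `N = 1`.
-/

set_option autoImplicit false

open NumberField IsDedekindDomain nonZeroDivisors IntermediateField

namespace Pool.Agent.STs

open Pool.Agent.ST
open Pool.Agent.STr (Lz ev InX NT)
open Pool.Agent.STh.F (FD Lf se)

variable {K : Type*} [Field K] [NumberField K] [Algebra K ℝ] {σ₂ : K →+* ℝ} {n M M' : Ideal (𝓞 K)} {d : ℕ} {a : 𝓞 K}
  {R : IntermediateField K ℝ}

structure AK (σ₂ : K →+* ℝ) (M : Ideal (𝓞 K)) (d : ℕ) (a : 𝓞 K) (N : ℕ) (κ : RayClassGroup σ₂ M →* ℂˣ) : Prop where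
  N0 : N ≠ 0
  inX : InX (Lz σ₂ M) κ
  ab : ∀ v : PrI K, (2 * d * N : 𝓞 K) ∈ v.asIdeal → v.asIdeal ∣ M
  le : M ≤ Ideal.span {(N : 𝓞 K)}
  se : ∀ (H : IntermediateField K ℝ) (Art : RayClassGroup σ₂ M ≃* (H ≃ₐ[K] H)), IsRayClassField σ₂ M H Art → se a ∈ H
  tr : ∀ (H : IntermediateField K ℝ) (Art : RayClassGroup σ₂ M ≃* (H ≃ₐ[K] H)), IsRayClassField σ₂ M H Art →
    ∀ B, (∀ x ∈ Lf a N, act (Art B) x = x) → κ B = 1

variable {N : ℕ} {κ : RayClassGroup σ₂ M →* ℂˣ}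

theorem AK_Lf_le (hx : Hx σ₂ n) (hM : M ≠ ⊥) (h : AK σ₂ M d a N κ) {H : IntermediateField K ℝ}
    {Art : RayClassGroup σ₂ M ≃* (H ≃ₐ[K] H)} (hr : IsRayClassField σ₂ M H Art) : Lf a N ≤ H := by
  refine sup_le ?_ ?_
  · rw [adjoin_simple_le_iff]
    exact h.se H Art hr
  · rw [adjoin_simple_le_iff]
    exact Pool.Agent.STr.cos_mem hx.h2 h.N0 hM h.le hr

theorem AK.truth (hx : Hx σ₂ n) (D : FD σ₂ d a) (hM : M ≠ ⊥) (hnM : n ∣ M) (h : AK σ₂ M d a N κ)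
    (L : Lw σ₂ M R) {σ : R ≃ₐ[K] R} {B : RayClassGroup σ₂ M} (hB : IsTr σ₂ M σ B) : κ B = κ (L.a σ) :=
  truth' hx D hM hnM L h.N0 h.ab (AK_Lf_le hx hM h L.rcf) h.inX (h.tr L.H L.Art L.rcf) hB

theorem AK.lift (hx : Hx σ₂ n) (hM : M ≠ ⊥) (hnM : n ∣ M) (hM' : M' ≠ ⊥) (hle : M' ≤ M) (h : AK σ₂ M d a N κ)
    (hq : ∀ (q : PrI K) (hq : ¬ q.asIdeal ∣ M), q.asIdeal ∣ M' → κ (cls σ₂ M (prJ M q hq)) ≠ 1) :
    AK σ₂ M' d a N (κ.comp (pr σ₂ hle)) where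
  N0 := h.N0
  inX := InX_lift hx hM hnM hM' hle h.inX hq
  ab := fun v hv => (h.ab v hv).trans (Ideal.dvd_iff_le.2 hle)
  le := hle.trans h.le
  se := fun H' Art' hr' => by
    obtain ⟨H, Art, hr⟩ := hx.rcf M hM hnM
    exact IsRCF.le hle hM' Set.finite_empty Set.finite_empty hr'.isRCF hr.isRCF (h.se H Art hr)
  tr := fun H' Art' hr' B hB => by
    obtain ⟨H, Art, hr⟩ := hx.rcf M hM hnM
    have hgal := hr.galois
    have hHH : H ≤ H' := IsRCF.le hle hM' Set.finite_empty Set.finite_empty hr'.isRCF hr.isRCF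
    rw [MonoidHom.comp_apply]
    apply h.tr H Art hr
    intro x hxx
    rw [← IsRCF.res_art hle hM' Set.finite_empty Set.finite_empty hr'.isRCF hr.isRCF hHH B,
      act_res _ _ (AK_Lf_le hx hM h hr hxx)]
    exact hB x hxx

theorem AK.twist (hx : Hx σ₂ n) (hM : M ≠ ⊥) (hnM : n ∣ M) (h : AK σ₂ M d a N κ) {N' : ℕ} (hN' : N' ≠ 0)
    (hle : M ≤ Ideal.span {((N * N' : ℕ) : 𝓞 K)}) (hab : ∀ v : PrI K, (N' : 𝓞 K) ∈ v.asIdeal → v.asIdeal ∣ M)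
    {η₀ : (ZMod N')ˣ →* ℂˣ} (h1 : η₀ (-1) = 1) {η : RayClassGroup σ₂ M →* ℂˣ} (hη : NT N' η₀ η)
    (hX : InX (Lz σ₂ M) (κ * η)) : AK σ₂ M d a (N * N') (κ * η) where
  N0 := mul_ne_zero h.N0 hN'
  inX := hX
  ab := fun v hv => by
    have h2 : (2 * d * ((N * N' : ℕ) : 𝓞 K) : 𝓞 K) = (2 * d * N) * N' := by push_cast; ring
    rw [h2] at hv
    rcases v.isPrime.mem_or_mem hv with h3 | h3
    · exact h.ab v h3
    · exact hab v h3
  le := hle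
  se := h.se
  tr := fun H Art hr B hB => by
    have hfin := hx.finite_cl hM hnM
    have hN0 : N * N' ≠ 0 := mul_ne_zero h.N0 hN'
    have hleN : M ≤ Ideal.span {((N' : ℕ) : 𝓞 K)} := by
      refine hle.trans ?_
      rw [Ideal.span_singleton_le_iff_mem, Nat.cast_mul]
      exact Ideal.mul_mem_left _ _ (Ideal.mem_span_singleton_self _)
    have h2 : κ B = 1 := h.tr H Art hr B fun x hxx =>
      hB x (Pool.Agent.STh.F.Lf_mono a (Dvd.intro _ rfl) hN0 hxx)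
    have hpN : Real.cos (2 * Real.pi / N') ∈ Lf a (N * N') :=
      Pool.Agent.STh.F.cos_mem_of_dvd _ (Dvd.intro_left _ rfl) hN0 (Pool.Agent.STh.F.cos_mem a (N * N'))
    have hcH : Pool.Agent.STr.cN N' ∈ H := Pool.Agent.STr.cos_mem hx.h2 hN' hM hleN hr
    have h3 : η B = 1 := by
      refine Pool.Agent.STr.NT.fix hN' hM hleN h1 hη fun I J hIJ hJB => ?_
      have h4 := hB _ hpN
      have h5 := Pool.Agent.STr.art_cos hN' hM hleN hr hcH hIJ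
      rw [hJB] at h5
      have h6 : Real.cos (2 * Real.pi * ((Ideal.absNorm I : ℕ) : ℤ) / N') =
          Real.cos (2 * Real.pi * (1 : ℤ) / N') := by
        push_cast
        rw [mul_one, ← h5]
        exact h4
      exact (Pool.Agent.STh.F.cos_mod_iff hN' _ _).1 h6
    rw [MonoidHom.mul_apply, h2, h3, mul_one]

/-- the same for a power of a norm type character (used with `η ∈ zpowers ω`) -/
theorem AK.twist' (hx : Hx σ₂ n) (hM : M ≠ ⊥) (hnM : n ∣ M) (h : AK σ₂ M d a N κ) {N' : ℕ} (hN' : N' ≠ 0)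
    (hle : M ≤ Ideal.span {((N * N' : ℕ) : 𝓞 K)}) (hab : ∀ v : PrI K, (N' : 𝓞 K) ∈ v.asIdeal → v.asIdeal ∣ M)
    {ω₀ : (ZMod N')ˣ →* ℂˣ} (h1 : ω₀ (-1) = 1) {ω η : RayClassGroup σ₂ M →* ℂˣ} (hω : NT N' ω₀ ω)
    (hη : η ∈ Subgroup.zpowers ω) (hX : InX (Lz σ₂ M) (κ * η)) : AK σ₂ M d a (N * N') (κ * η) := by
  obtain ⟨j, rfl⟩ := hη
  refine AK.twist hx hM hnM h hN' hle hab (η₀ := ω₀ ^ j) ?_ (hω.pow j) hX
  rw [MonoidHom.zpow_apply, h1, one_zpow]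

theorem AK.of_anc (hx : Hx σ₂ n) (D : FD σ₂ d a) (A : Anc σ₂ n d a) : AK σ₂ A.m₀ d a 1 A.κ where
  N0 := one_ne_zero
  inX := A.inX
  ab := fun v hv => A.ab v (by simpa using hv)
  le := by simp
  se := fun H Art hr =>
    IsRCF.le le_rfl A.hm₀ Set.finite_empty Set.finite_empty hr.isRCF A.rcf.isRCF A.mem
  tr := fun H Art hr B hB => by
    apply A.tr
    have hgal := A.rcf.galois
    have hHH : A.H ≤ H := IsRCF.le le_rfl A.hm₀ Set.finite_empty Set.finite_empty hr.isRCF A.rcf.isRCF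
    have h2 := IsRCF.res_art le_rfl A.hm₀ Set.finite_empty Set.finite_empty hr.isRCF A.rcf.isRCF hHH B
    rw [pr_refl] at h2
    rw [← h2, act_res _ _ A.mem]
    exact hB _ (Pool.Agent.STh.F.se_mem a 1)

/-- the truth for `κ` and `κ η` gives it for `η` -/
theorem AK.truth_eta (hx : Hx σ₂ n) (D : FD σ₂ d a) (hM : M ≠ ⊥) (hnM : n ∣ M) (h : AK σ₂ M d a N κ)
    {η : RayClassGroup σ₂ M →* ℂˣ} {N' : ℕ} (h' : AK σ₂ M d a N' (κ * η))
    (L : Lw σ₂ M R) {σ : R ≃ₐ[K] R} {B : RayClassGroup σ₂ M} (hB : IsTr σ₂ M σ B) : η B = η (L.a σ) := by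
  have h1 := h.truth hx D hM hnM L hB
  have h2 := h'.truth hx D hM hnM L hB
  rw [MonoidHom.mul_apply, MonoidHom.mul_apply, h1] at h2
  exact mul_left_cancel h2

end Pool.Agent.STs
end
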