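import Pool.Agent.Lib.MP_1ef7cf_nt_s.X1
import Pool.Agent.Lib.MP_1ef7cf_nt_r.Mg.G017
import Pool.Agent.Lib.MP_1ef7cf_nt_r.Mg.G024
import Pool.Agent.Lib.MP_1ef7cf_nt_r.E5
import Pool.Agent.Lib.MP_1ef7cf_nt_c.Loc
import Pool.Agent.Lib.MP_1ef7cf_nt_r.Mg.G028

section

/-!
# TASK Rl: residues of numbers which are integral at one prime

`PI P x`: `x = a / b`, `a`, `b` integers of `R`, `b` not in `P`. `PU P x`: moreover `a` is not in `P`. `rl P x`: the residue (junk `0` if not `PI P x`).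

PROOF. `𝓞 R ⧸ P.asIdeal` is a field (`P.isMaximal`, `Ideal.Quotient.field`), `rd` is multiplicative on integers (MP_1ef7cf_nt_c/Red.lean). `rl_div`: `rl P (a / b) * rd P b = rd P a`
for every such representation (cross multiplication); everything else follows. `PU_iff_val`: `⟸`: `x = a/b` with `a b ∈ 𝓞 R`, `P.valuation x = 1`; one can choose `b ∉ P` (the ideal of denominators
`{b | b x ∈ 𝓞 R}` is not contained in `P` because the valuation of `x` is `≤ 1`; e.g. `HeightOneSpectrum` / localization lemmas, or `exists` via `IsDedekindDomain` : factor `(x) = I / J` with `P` not dividing `J`).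
`val_act`: `τ` acts trivially on the residues, so `a ∈ P ↔ τ a ∈ P`, `pg τ P = P` and the valuation is invariant (`valuation of σ x`, see nt_r/I1 and `pg`). `PU_of_finite`: `x = a / b`, `a`, `b` integers of `R₁`, `≠ 0`; let `B` be
the set of primes of `K` dividing the norms of `a` and `b` to `K` (nonzero elements of `𝓞 K`; in `R₁` the norm of `a` is `a` times an integer).
-/

set_option autoImplicit false
set_option linter.unusedSectionVars false

open NumberField IsDedekindDomain nonZeroDivisors IntermediateField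

namespace Pool.Agent.STs

open Pool.Agent.ST
open Pool.Agent.STc (IsInt rd IsUn)

variable {K : Type*} [Field K] [NumberField K] [Algebra K ℝ] {R R₁ : IntermediateField K ℝ}

/-- integral at `P` -/
def PI (P : PrI R) (x : ℝ) : Prop := ∃ p : ℝ × ℝ, IsInt R p.1 ∧ IsInt R p.2 ∧ rd P p.2 ≠ 0 ∧ x = p.1 / p.2

/-- a unit at `P` -/
def PU (P : PrI R) (x : ℝ) : Prop :=
  ∃ p : ℝ × ℝ, IsInt R p.1 ∧ IsInt R p.2 ∧ rd P p.1 ≠ 0 ∧ rd P p.2 ≠ 0 ∧ x = p.1 / p.2

open Classical in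
/-- the residue -/
noncomputable def rl (P : PrI R) (x : ℝ) : 𝓞 R ⧸ P.asIdeal :=
  if h : PI P x then rd P h.choose.1 * Ring.inverse (rd P h.choose.2) else 0

variable {P : PrI R}

private lemma Rl_max : P.asIdeal.IsMaximal := by
  have : Ring.DimensionLEOne (𝓞 R) := Ring.DimensionLEOne.of_isIntegral ℤ (𝓞 R)
  exact P.isPrime.isMaximal P.ne_bot

private lemma Rl_dom : IsDomain (𝓞 R ⧸ P.asIdeal) := by
  have := P.isPrime
  infer_instance

private lemma Rl_unit {x : 𝓞 R ⧸ P.asIdeal} (h : x ≠ 0) : IsUnit x := by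
  have := Rl_max (P := P)
  let _ := Ideal.Quotient.field P.asIdeal
  exact isUnit_iff_ne_zero.2 h

private lemma Rl_mul_ne {x y : 𝓞 R ⧸ P.asIdeal} (hx : x ≠ 0) (hy : y ≠ 0) : x * y ≠ 0 := by
  have := Rl_dom (P := P)
  exact mul_ne_zero hx hy

private lemma Rl_cancel {x y z : 𝓞 R ⧸ P.asIdeal} (hz : z ≠ 0) (h : x * z = y * z) : x = y := by
  have := Rl_dom (P := P)
  exact mul_right_cancel₀ hz h

private lemma Rl_ne {a : ℝ} (h : rd P a ≠ 0) : a ≠ 0 := by
  rintro rfl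
  exact h STc.rd_zero

private lemma Rl_one_ne : rd P (1 : ℝ) ≠ 0 := by
  have := Rl_dom (P := P)
  rw [STc.rd_one]
  exact one_ne_zero

lemma rl_div {a b : ℝ} (ha : IsInt R a) (hb : IsInt R b) (h : rd P b ≠ 0) : rl P (a / b) * rd P b = rd P a := by
  have hPI : PI P (a / b) := ⟨(a, b), ha, hb, h, rfl⟩
  unfold rl
  rw [dif_pos hPI]
  obtain ⟨h1, h2, h3, h4⟩ := hPI.choose_spec
  set p := hPI.choose
  have hb0 : b ≠ 0 := Rl_ne h
  have hp0 : p.2 ≠ 0 := Rl_ne h3
  have h5 : a * p.2 = p.1 * b := by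
    rw [div_eq_div_iff hb0 hp0] at h4
    exact h4
  have h6 := congrArg (rd P) h5
  rw [STc.rd_mul ha h2, STc.rd_mul h1 hb] at h6
  have h7 : Ring.inverse (rd P p.2) * rd P p.2 = 1 := Ring.inverse_mul_cancel _ (Rl_unit h3)
  calc rd P p.1 * Ring.inverse (rd P p.2) * rd P b
      = rd P p.1 * rd P b * Ring.inverse (rd P p.2) := by ring
    _ = rd P a * (Ring.inverse (rd P p.2) * rd P p.2) := by rw [← h6]; ring
    _ = rd P a := by rw [h7, mul_one]

lemma rl_int {x : ℝ} (hx : IsInt R x) : rl P x = rd P x := by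
  have h := rl_div (P := P) hx STc.IsInt.one Rl_one_ne
  rwa [div_one, STc.rd_one, mul_one] at h

lemma PI_int {x : ℝ} (hx : IsInt R x) : PI P x :=
  ⟨(x, 1), hx, STc.IsInt.one, Rl_one_ne, (div_one x).symm⟩

lemma PU.PI {x : ℝ} (h : PU P x) : PI P x := by
  obtain ⟨p, h1, h2, -, h4, h5⟩ := h
  exact ⟨p, h1, h2, h4, h5⟩

lemma PU.mem {x : ℝ} (h : PU P x) : x ∈ R := by
  obtain ⟨p, h1, h2, -, h4, rfl⟩ := h
  exact div_mem h1.1 h2.1

lemma PU.ne_zero {x : ℝ} (h : PU P x) : x ≠ 0 := by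
  obtain ⟨p, h1, h2, h3, h4, rfl⟩ := h
  exact div_ne_zero (Rl_ne h3) (Rl_ne h4)

lemma PU.rl_ne {x : ℝ} (h : PU P x) : rl P x ≠ 0 := by
  obtain ⟨p, h1, h2, h3, h4, rfl⟩ := h
  intro h5
  have h6 := rl_div h1 h2 h4
  rw [h5, zero_mul] at h6
  exact h3 h6.symm

lemma PU.one : PU P (1 : ℝ) :=
  ⟨(1, 1), STc.IsInt.one, STc.IsInt.one, Rl_one_ne, Rl_one_ne, (div_one 1).symm⟩

lemma PU.mul {x y : ℝ} (h : PU P x) (h' : PU P y) : PU P (x * y) := by
  obtain ⟨p, h1, h2, h3, h4, rfl⟩ := h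
  obtain ⟨p', h1', h2', h3', h4', rfl⟩ := h'
  refine ⟨(p.1 * p'.1, p.2 * p'.2), h1.mul h1', h2.mul h2', ?_, ?_, ?_⟩
  · show rd P (p.1 * p'.1) ≠ 0
    rw [STc.rd_mul h1 h1']
    exact Rl_mul_ne h3 h3'
  · show rd P (p.2 * p'.2) ≠ 0
    rw [STc.rd_mul h2 h2']
    exact Rl_mul_ne h4 h4'
  · exact div_mul_div_comm _ _ _ _

lemma PU.inv {x : ℝ} (h : PU P x) : PU P x⁻¹ := by
  obtain ⟨p, h1, h2, h3, h4, rfl⟩ := h
  exact ⟨(p.2, p.1), h2, h1, h4, h3, inv_div _ _⟩

lemma PU.pow {x : ℝ} (h : PU P x) (k : ℕ) : PU P (x ^ k) := by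
  induction k with
  | zero => rw [pow_zero]; exact PU.one
  | succ k ih => rw [pow_succ]; exact ih.mul h

lemma PU.prod {ι : Type*} {s : Finset ι} {f : ι → ℝ} (h : ∀ i ∈ s, PU P (f i)) : PU P (∏ i ∈ s, f i) := by
  classical
  induction s using Finset.induction_on with
  | empty => rw [Finset.prod_empty]; exact PU.one
  | insert a s ha ih =>
    rw [Finset.prod_insert ha]
    exact (h a (Finset.mem_insert_self _ _)).mul (ih fun i hi => h i (Finset.mem_insert_of_mem hi))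

lemma rl_mul {x y : ℝ} (h : PU P x) (h' : PU P y) : rl P (x * y) = rl P x * rl P y := by
  obtain ⟨p, h1, h2, h3, h4, rfl⟩ := h
  obtain ⟨p', h1', h2', h3', h4', rfl⟩ := h'
  have e1 := rl_div (P := P) h1 h2 h4
  have e2 := rl_div (P := P) h1' h2' h4'
  have h5 : rd P (p.2 * p'.2) ≠ 0 := by
    rw [STc.rd_mul h2 h2']
    exact Rl_mul_ne h4 h4'
  have e3 := rl_div (P := P) (h1.mul h1') (h2.mul h2') h5
  rw [← div_mul_div_comm] at e3
  apply Rl_cancel h5
  rw [e3, STc.rd_mul h1 h1', STc.rd_mul h2 h2', ← e1, ← e2]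
  ring

private lemma Rl_rl_one : rl P (1 : ℝ) = 1 := by
  rw [rl_int STc.IsInt.one, STc.rd_one]

lemma rl_pow {x : ℝ} (h : PU P x) (k : ℕ) : rl P (x ^ k) = rl P x ^ k := by
  induction k with
  | zero => rw [pow_zero, pow_zero, Rl_rl_one]
  | succ k ih => rw [pow_succ, pow_succ, rl_mul (h.pow k) h, ih]

lemma rl_prod {ι : Type*} {s : Finset ι} {f : ι → ℝ} (h : ∀ i ∈ s, PU P (f i)) :
    rl P (∏ i ∈ s, f i) = ∏ i ∈ s, rl P (f i) := by
  classical
  induction s using Finset.induction_on with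
  | empty => rw [Finset.prod_empty, Finset.prod_empty, Rl_rl_one]
  | insert a s ha ih =>
    rw [Finset.prod_insert ha, Finset.prod_insert ha,
      rl_mul (h a (Finset.mem_insert_self _ _))
        (PU.prod fun i hi => h i (Finset.mem_insert_of_mem hi)),
      ih fun i hi => h i (Finset.mem_insert_of_mem hi)]

private lemma Rl_ded {A : Type*} [CommRing A] [IsDedekindDomain A] (Q : HeightOneSpectrum A) {a b : A}
    (hb0 : b ≠ 0) (hab : ∀ n : ℕ, b ∈ Q.asIdeal ^ n → a ∈ Q.asIdeal ^ n) :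
    ∃ d e : A, d ∉ Q.asIdeal ∧ e * b = a * d := by
  have hsp : Ideal.span {b} ≠ ⊥ := by
    rwa [Ne, Ideal.span_singleton_eq_bot]
  have hfin : FiniteMultiplicity Q.asIdeal (Ideal.span {b}) :=
    FiniteMultiplicity.of_prime_left (Ideal.prime_of_isPrime Q.ne_bot Q.isPrime) hsp
  obtain ⟨J, hJ, hJP⟩ := hfin.exists_eq_pow_mul_and_not_dvd
  generalize multiplicity Q.asIdeal (Ideal.span {b}) = n at hJ
  have hbn : b ∈ Q.asIdeal ^ n := by
    have h1 : b ∈ Ideal.span {b} := Ideal.mem_span_singleton_self b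
    rw [hJ] at h1
    have h2 : Q.asIdeal ^ n * J ≤ Q.asIdeal ^ n := Ideal.mul_le_left
    exact h2 h1
  have hnle : ¬ J ≤ Q.asIdeal := fun h => hJP (Ideal.dvd_iff_le.2 h)
  obtain ⟨d, hdJ, hdP⟩ := SetLike.not_le_iff_exists.1 hnle
  have hda : a * d ∈ Ideal.span {b} := by
    rw [hJ]
    exact Ideal.mul_mem_mul (hab n hbn) hdJ
  obtain ⟨e, he⟩ := Ideal.mem_span_singleton'.1 hda
  exact ⟨d, e, hdP, he⟩

private lemma Rl_val_one [NumberField R] {a : ℝ} (ha : IsInt R a) (h : rd P a ≠ 0) :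
    P.valuation R ⟨a, ha.1⟩ = 1 := by
  have h1 : ¬ P.valuation R ⟨a, ha.1⟩ < 1 := fun h2 => h ((STc.rd_eq_zero_iff_val ha).2 h2)
  exact le_antisymm (P.valuation_le_one ha.toO) (not_lt.1 h1)

lemma PU_iff_val [NumberField R] {x : R} (h0 : x ≠ 0) : PU P (x : ℝ) ↔ P.valuation R x = 1 := by
  constructor
  · rintro ⟨p, h1, h2, h3, h4, h5⟩
    have h6 : x = (⟨p.1, h1.1⟩ : R) / ⟨p.2, h2.1⟩ := Subtype.ext h5
    rw [h6, map_div₀, Rl_val_one h1 h3, Rl_val_one h2 h4, div_one]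
  · intro hv
    obtain ⟨a, b, hb, hab⟩ := IsFractionRing.div_surjective (A := 𝓞 R) x
    have hb0 : b ≠ 0 := nonZeroDivisors.ne_zero hb
    have hbR : algebraMap (𝓞 R) R b ≠ 0 := by
      intro h
      exact hb0 (RingOfIntegers.coe_injective (by rw [h, map_zero]))
    have hval : P.intValuation a = P.intValuation b := by
      rw [← hab, map_div₀, div_eq_one_iff_eq ((Valuation.ne_zero_iff _).2 hbR),
        HeightOneSpectrum.valuation_of_algebraMap, HeightOneSpectrum.valuation_of_algebraMap] at hv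
      exact hv
    obtain ⟨d, e, hdP, he⟩ := Rl_ded P hb0 (fun n hbn => by
      rw [← HeightOneSpectrum.intValuation_le_pow_iff_mem, hval,
        HeightOneSpectrum.intValuation_le_pow_iff_mem]
      exact hbn)
    have hd0 : d ≠ 0 := fun h => hdP (h ▸ P.asIdeal.zero_mem)
    have hdR : algebraMap (𝓞 R) R d ≠ 0 := by
      intro h
      exact hd0 (RingOfIntegers.coe_injective (by rw [h, map_zero]))
    have hxe : x = algebraMap (𝓞 R) R e / algebraMap (𝓞 R) R d := by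
      rw [← hab, div_eq_div_iff hbR hdR, ← map_mul, ← map_mul, he]
    have hd1 : P.valuation R (algebraMap (𝓞 R) R d) = 1 := by
      refine le_antisymm (P.valuation_le_one d) (not_lt.1 fun h => hdP ?_)
      rwa [P.valuation_lt_one_iff_mem] at h
    have he1 : P.valuation R (algebraMap (𝓞 R) R e) = 1 := by
      rw [hxe, map_div₀, hd1, div_one] at hv
      exact hv
    have heI : IsInt R ((algebraMap (𝓞 R) R e : R) : ℝ) := STc.isInt_coe e
    have hdI : IsInt R ((algebraMap (𝓞 R) R d : R) : ℝ) := STc.isInt_coe d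
    refine ⟨(((algebraMap (𝓞 R) R e : R) : ℝ), ((algebraMap (𝓞 R) R d : R) : ℝ)), heI, hdI, ?_, ?_, ?_⟩
    · intro h
      have h1 := (STc.rd_eq_zero_iff_val heI).1 h
      exact (ne_of_lt h1) he1
    · intro h
      have h1 := (STc.rd_eq_zero_iff_val hdI).1 h
      exact (ne_of_lt h1) hd1
    · rw [hxe]
      rfl

/-- an element of the inertia group -/
lemma PU.act_inertia {τ : R ≃ₐ[K] R} (hτ : ∀ x, IsInt R x → rd P (act τ x) = rd P x) {x : ℝ} (h : PU P x) :
    PU P (act τ x) ∧ rl P (act τ x) = rl P x := by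
  obtain ⟨p, h1, h2, h3, h4, rfl⟩ := h
  have e1 : act τ (p.1 / p.2) = act τ p.1 / act τ p.2 := act_div τ h1.1 h2.1
  have h4' : rd P (act τ p.2) ≠ 0 := by rw [hτ _ h2]; exact h4
  rw [e1]
  refine ⟨⟨(act τ p.1, act τ p.2), h1.act τ, h2.act τ, ?_, h4', rfl⟩, ?_⟩
  · show rd P (act τ p.1) ≠ 0
    rw [hτ _ h1]
    exact h3
  · have e2 := rl_div (P := P) (h1.act τ) (h2.act τ) h4'
    have e3 := rl_div (P := P) h1 h2 h4
    rw [hτ _ h1, hτ _ h2, ← e3] at e2
    exact Rl_cancel h4 e2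

/-- an element of the inertia group preserves the valuation -/
lemma val_act [NumberField R] {τ : R ≃ₐ[K] R} (hτ : ∀ x, IsInt R x → rd P (act τ x) = rd P x) (x : R) :
    P.valuation R (τ x) = P.valuation R x := by
  have hpg : STc.pg τ P = P := by
    apply HeightOneSpectrum.ext
    ext z
    rw [STc.mem_pg]
    have hz := STc.isInt_coe (τ⁻¹ • z)
    have h1 : ((((τ⁻¹ • z : 𝓞 R) : R)) : ℝ) = act τ⁻¹ ((z : R) : ℝ) := by
      rw [act_coe]
      rfl
    have hzI := STc.isInt_coe z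
    have h2 := hτ _ (hzI.act τ⁻¹)
    rw [act_act_inv τ hzI.1] at h2
    have h3 := STc.rd_eq_zero_iff (P := P) hzI
    have h4 := STc.rd_eq_zero_iff (P := P) (hzI.act τ⁻¹)
    have h5 : (hzI.act τ⁻¹).toO = τ⁻¹ • z := STc.IsInt.toO_act hzI τ⁻¹
    rw [h5, ← h2, h3] at h4
    exact h4.symm
  have h := STc.valuation_pg τ P x
  rwa [hpg] at h

/-- Frobenius -/
lemma PU.act_frob {φ : R ≃ₐ[K] R} (hφ : IsFrob K P φ) {x : ℝ} (h : PU P x) :
    PU P (act φ x) ∧ rl P (act φ x) = rl P x ^ pn (und K P) := by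
  obtain ⟨p, h1, h2, h3, h4, rfl⟩ := h
  have := Rl_dom (P := P)
  have e1 : act φ (p.1 / p.2) = act φ p.1 / act φ p.2 := act_div φ h1.1 h2.1
  have h4' : rd P (act φ p.2) ≠ 0 := by rw [STc.rd_frob hφ h2]; exact pow_ne_zero _ h4
  rw [e1]
  refine ⟨⟨(act φ p.1, act φ p.2), h1.act φ, h2.act φ, ?_, h4', rfl⟩, ?_⟩
  · show rd P (act φ p.1) ≠ 0
    rw [STc.rd_frob hφ h1]
    exact pow_ne_zero _ h3
  · have e2 := rl_div (P := P) (h1.act φ) (h2.act φ) h4'
    have e3 := rl_div (P := P) h1 h2 h4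
    rw [STc.rd_frob hφ h1, STc.rd_frob hφ h2, ← e3, mul_pow] at e2
    exact Rl_cancel (pow_ne_zero _ h4) e2

private lemma Rl_absNorm [NumberField R₁] {a : 𝓞 R₁} (ha : a ≠ 0) :
    ∃ n : ℕ, n ≠ 0 ∧ ∃ c : 𝓞 R₁, a * c = n := by
  refine ⟨Ideal.absNorm (Ideal.span {a}), ?_, ?_⟩
  · rw [Ne, Ideal.absNorm_eq_zero_iff, Ideal.span_singleton_eq_bot]
    exact ha
  · have h := Ideal.absNorm_mem (Ideal.span {a})
    obtain ⟨c, hc⟩ := Ideal.mem_span_singleton'.1 h
    exact ⟨c, by rw [mul_comm, hc]⟩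

private lemma Rl_natCast_ne {n : ℕ} (h : ((n : ℕ) : 𝓞 K) ∉ (und K P).asIdeal) : rd P (n : ℝ) ≠ 0 := by
  rw [STc.rd_natCast]
  intro h1
  apply h
  have h2 : ((n : ℕ) : 𝓞 R) ∈ P.asIdeal := by
    rw [← Ideal.Quotient.eq_zero_iff_mem, map_natCast]
    exact h1
  show algebraMap (𝓞 K) (𝓞 R) ((n : ℕ) : 𝓞 K) ∈ P.asIdeal
  rwa [map_natCast]

/-- almost all primes -/
theorem PU_of_finite (h₁ : AbR R₁) {x : ℝ} (hx : x ∈ R₁) (h0 : x ≠ 0) : ∃ B : Set (PrI K), B.Finite ∧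
    ∀ R : IntermediateField K ℝ, FiniteDimensional K R → R₁ ≤ R → ∀ P : PrI R, und K P ∉ B → PU P x := by
  have := h₁.fd
  have := numberField_of_fd R₁
  obtain ⟨a, b, hb, hab⟩ := IsFractionRing.div_surjective (A := 𝓞 R₁) (⟨x, hx⟩ : R₁)
  have hb0 : b ≠ 0 := nonZeroDivisors.ne_zero hb
  have ha0 : a ≠ 0 := by
    rintro rfl
    rw [map_zero, zero_div] at hab
    exact h0 (congrArg (fun z : R₁ => (z : ℝ)) hab).symm
  obtain ⟨n, hn, c, hc⟩ := Rl_absNorm ha0
  obtain ⟨m, hm, d, hd⟩ := Rl_absNorm hb0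
  have hne : Ideal.span {((n * m : ℕ) : 𝓞 K)} ≠ 0 := by
    rw [Ne, Submodule.zero_eq_bot, Ideal.span_singleton_eq_bot]
    exact_mod_cast mul_ne_zero hn hm
  refine ⟨{v : PrI K | v.asIdeal ∣ Ideal.span {((n * m : ℕ) : 𝓞 K)}}, Ideal.finite_factors hne, ?_⟩
  intro R hfd hle P hP
  have hnm : ((n * m : ℕ) : 𝓞 K) ∉ (und K P).asIdeal := by
    intro h
    apply hP
    show (und K P).asIdeal ∣ _
    rw [Ideal.dvd_span_singleton]
    exact h
  have h1 := Rl_natCast_ne (P := P) hnm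
  have hn' : rd P (n : ℝ) ≠ 0 := by
    intro h
    apply h1
    rw [Nat.cast_mul, STc.rd_mul (STc.IsInt.natCast n) (STc.IsInt.natCast m), h, zero_mul]
  have hm' : rd P (m : ℝ) ≠ 0 := by
    intro h
    apply h1
    rw [Nat.cast_mul, STc.rd_mul (STc.IsInt.natCast n) (STc.IsInt.natCast m), h, mul_zero]
  have key : ∀ (a c : 𝓞 R₁) (n : ℕ), a * c = n → rd P (n : ℝ) ≠ 0 → rd P ((a : R₁) : ℝ) ≠ 0 := by
    intro a c n h h2 h3
    apply h2
    have h4 : ((n : ℕ) : ℝ) = ((a : R₁) : ℝ) * ((c : R₁) : ℝ) := by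
      have h5 := congrArg (fun z : 𝓞 R₁ => ((z : R₁) : ℝ)) h
      simpa using h5.symm
    rw [h4, STc.rd_mul ((STc.isInt_coe a).mono hle) ((STc.isInt_coe c).mono hle), h3, zero_mul]
  refine ⟨(((a : R₁) : ℝ), ((b : R₁) : ℝ)), (STc.isInt_coe a).mono hle, (STc.isInt_coe b).mono hle,
    key a c n hc hn', key b d m hd hm', ?_⟩
  have h6 := congrArg (fun z : R₁ => (z : ℝ)) hab
  exact h6.symm

/-- comparison of two fields -/
lemma PU.up [FiniteDimensional K R] (hle : R₁ ≤ R) {P₁ : PrI R₁}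
    (hP : ∀ x, IsInt R₁ x → (rd P x = 0 ↔ rd P₁ x = 0)) {x : ℝ} (h : PU P₁ x) :
    PU P x ∧ ∀ k : ℕ, rl P x ^ k = 1 ↔ rl P₁ x ^ k = 1 := by
  obtain ⟨p, h1, h2, h3, h4, rfl⟩ := h
  have h3' : rd P p.1 ≠ 0 := fun h => h3 ((hP _ h1).1 h)
  have h4' : rd P p.2 ≠ 0 := fun h => h4 ((hP _ h2).1 h)
  refine ⟨⟨p, h1.mono hle, h2.mono hle, h3', h4', rfl⟩, fun k => ?_⟩
  have key : ∀ {R' : IntermediateField K ℝ} {Q : PrI R'} (g1 : IsInt R' p.1) (g2 : IsInt R' p.2)
      (g4 : rd Q p.2 ≠ 0), rl Q (p.1 / p.2) ^ k = 1 ↔ rd Q (p.1 ^ k - p.2 ^ k) = 0 := by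
    intro R' Q g1 g2 g4
    have := Rl_dom (P := Q)
    have e := rl_div (P := Q) g1 g2 g4
    rw [← STc.rd_eq_iff (g1.pow k) (g2.pow k), STc.rd_pow g1, STc.rd_pow g2, ← e, mul_pow]
    constructor
    · intro h
      rw [h, one_mul]
    · intro h
      have h5 : rl Q (p.1 / p.2) ^ k * rd Q p.2 ^ k = 1 * rd Q p.2 ^ k := by rw [h, one_mul]
      exact Rl_cancel (pow_ne_zero _ g4) h5
  rw [key (h1.mono hle) (h2.mono hle) h4', key h1 h2 h4]
  exact hP _ ((h1.pow k).sub (h2.pow k))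

end Pool.Agent.STs
end

section

/-!
# TASK SE: the Frobenius of `P ∩ K` in `N`

PROOF. Let `v = und K P`, `Q₀` a prime of `N` over `v` (exists), `φ` its Frobenius (`exists_isFrob`); `N/K` is abelian, all primes over `v` are unramified and conjugate, so `φ` is a Frobenius at every prime of `N` over `v` (`IsFrob` of a conjugate prime; the group is commutative).
`φ` is trivial on `M = fixL γ`: `P ∩ M` (`M ≤ E`, so `E` is an `M`-algebra, `und M P`) has residue degree one over `v` because `pn v ≤ pn (P ∩ M) ≤ pn P = pn v` (divisibility / powers), so `x^(pn v) ≡ x` modulo `P ∩ M` for `x ∈ 𝓞 M`, i.e. `1` is a Frobenius at `P ∩ M`; `M/K` is Galois (abelian) and unramified at `v`,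
the restriction of `φ` to `M` is a Frobenius at `P ∩ M` as well (abelian: at all primes over `v`), so it is `1` (`isFrob_unique`); cf. `fix_M` (nt_r/E6b). So `φ ∈ zpowers γ`
(Galois correspondence, `fixL`), `φ = γ^j`, `j < orderOf γ`. If a prime `i ∣ orderOf γ` divides `j` then `φ` is trivial on `fixL (γ^i)`, contradiction to `hi`. So `j` is prime to `orderOf γ`.
-/

set_option autoImplicit false

open NumberField IsDedekindDomain nonZeroDivisors IntermediateField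

namespace Pool.Agent.STs

open Pool.Agent.ST
open Pool.Agent.STd (jR fixL KZ)

variable {K : Type*} [Field K] [NumberField K] [Algebra K ℝ] {N : IntermediateField K ℂ}

omit [Algebra K ℝ] in
/-- in an abelian extension a Frobenius at `u` is a Frobenius at all conjugates -/
lemma SE_conj {L : Type*} [Field L] [NumberField L] [Algebra K L] [IsGalois K L]
    (hcomm : ∀ σ τ : L ≃ₐ[K] L, σ * τ = τ * σ) {u u' : PrI L} (h : und K u = und K u')
    {φ : L ≃ₐ[K] L} (hφ : IsFrob K u φ) : IsFrob K u' φ := by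
  obtain ⟨g, rfl⟩ := STc.exists_pg h
  intro x
  rw [STc.und_pg, STc.mem_pg]
  have h1 := hφ (g⁻¹ • x)
  have e : g⁻¹ • (φ • x - x ^ pn (und K u)) = φ • (g⁻¹ • x) - (g⁻¹ • x) ^ pn (und K u) := by
    rw [smul_sub, smul_pow', smul_smul, smul_smul, hcomm]
  rw [e]
  exact h1

theorem exists_j [FiniteDimensional K N] [IsGalois K N] (hcomm : ∀ σ τ : N ≃ₐ[K] N, σ * τ = τ * σ) (γ : N ≃ₐ[K] N)
    {E : IntermediateField K ℂ} [NumberField E] (hE : fixL γ ≤ E) {P : PrI E} (hP : pn (und K P) = pn P)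
    (hun : ∀ Q : PrI N, und K Q = und K P → Algebra.IsUnramifiedAt (𝓞 K) Q.asIdeal)
    (hi : ∀ i ∈ (orderOf γ).primeFactors, ∀ φ : N ≃ₐ[K] N, (∀ Q : PrI N, und K Q = und K P → IsFrob K Q φ) →
        ∃ x : N, (x : ℂ) ∈ fixL (γ ^ i) ∧ φ x ≠ x) :
    ∃ j : ℕ, j < orderOf γ ∧ j.Coprime (orderOf γ) ∧ ∀ Q : PrI N, und K Q = und K P → IsFrob K Q (γ ^ j) := by
  have hN : NumberField N := STr.numberField_C N
  obtain ⟨Q₀, hQ₀⟩ := exists_ovr (L := N) (und K P)
  obtain ⟨φ, hφ₀⟩ := exists_isFrob (K := K) Q₀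
  have hφ : ∀ Q : PrI N, und K Q = und K P → IsFrob K Q φ := fun Q hQ =>
    SE_conj hcomm (hQ₀.trans hQ.symm) hφ₀
  set F : IntermediateField K N := IntermediateField.fixedField (Subgroup.zpowers γ) with hF
  have hnormal : (Subgroup.zpowers γ).Normal := ⟨fun x hx g => by
    rw [hcomm g x, mul_assoc, mul_inv_cancel, mul_one]; exact hx⟩
  have hGal : IsGalois K F := IsGalois.of_fixedField_normal_subgroup _
  have hnorm : Normal K F := hGal.to_normal
  have hnf : NumberField F := inferInstance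
  have hmem : ∀ y : F, ((N.val).comp F.val) y ∈ E.toSubalgebra := by
    intro y
    apply hE
    exact (IntermediateField.mem_lift (y : N)).2 y.2
  let j : F →ₐ[K] E := ((N.val).comp F.val).codRestrict E.toSubalgebra hmem
  let _ : Algebra F E := j.toRingHom.toAlgebra
  have hst : IsScalarTower K F E := IsScalarTower.of_algebraMap_eq (fun x => (j.commutes x).symm)
  have hpK : und K (und F P) = und K P := und_und ..
  have h1 : pn (und F P) = pn (und K (und F P)) := by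
    apply le_antisymm
    · rw [hpK, hP]
      exact pn_und_le F P
    · exact pn_und_le K (und F P)
  have h2 : IsFrob K (und F P) (1 : F ≃ₐ[K] F) := isFrob_one_of_pn_eq h1
  obtain ⟨Q, hQ⟩ := exists_ovr (K := F) (L := N) (und F P)
  have hQK : und K Q = und K P := by rw [← und_und (E₁ := F) Q, hQ, hpK]
  have hunQ := hun Q hQK
  have hunF : Algebra.IsUnramifiedAt (𝓞 K) (und F Q).asIdeal := unramified_und Q
  have h3 : IsFrob K (und F Q) (φ.restrictNormal F) :=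
    isFrob_und (fun x => φ.restrictNormal_commutes F x) (hφ Q hQK)
  have h4 : φ.restrictNormal F = 1 := by
    refine isFrob_unique h3 ?_
    rw [hQ]
    exact h2
  have h5 : ∀ x ∈ F, φ x = x := by
    intro x hx
    have := φ.restrictNormal_commutes F ⟨x, hx⟩
    rw [h4] at this
    exact this.symm
  have h6 : φ ∈ Subgroup.zpowers γ := by
    rw [← IntermediateField.fixingSubgroup_fixedField (Subgroup.zpowers γ),
      IntermediateField.mem_fixingSubgroup_iff]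
    exact h5
  have hfin : Finite (N ≃ₐ[K] N) := inferInstance
  have hpos : 0 < orderOf γ := orderOf_pos γ
  obtain ⟨j₀, hj₀⟩ := mem_powers_iff_mem_zpowers.2 h6
  have hj₁ : γ ^ (j₀ % orderOf γ) = φ := by rw [pow_mod_orderOf]; exact hj₀
  refine ⟨j₀ % orderOf γ, Nat.mod_lt _ hpos, ?_, ?_⟩
  · by_contra hc
    obtain ⟨i, hip, ⟨k, hk⟩, hio⟩ := Nat.Prime.not_coprime_iff_dvd.1 hc
    obtain ⟨x, hx, hne⟩ := hi i (Nat.mem_primeFactors.2 ⟨hip, hio, hpos.ne'⟩) φ hφ
    apply hne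
    have h7 : (γ ^ i) x = x := (Pool.Agent.STd.mem_fixL (γ ^ i) x.2).1 hx
    rw [← hj₁, hk, pow_mul]
    have h8 : ∀ n : ℕ, ((γ ^ i) ^ n) x = x := by
      intro n
      induction n with
      | zero => simp
      | succ n ih => rw [pow_succ, AlgEquiv.mul_apply, h7, ih]
    exact h8 k
  · intro Q' hQ'
    rw [hj₁]
    exact hφ Q' hQ'

end Pool.Agent.STs
end

section

/-!
# TASK Kol: the congruence (abstract form)

`C` is a finite abelian group (the ray class group modulo `M p`), `ε : C → ℝ` the numbers, `V` a subgroup (the kernel of the projection to the lower level), `h` a number with `g ^ h ∈ V` for all `g`,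
`η` a character with `η ^ l = 1`, `l` prime, not dividing `h`, `τ` an element of the inertia group at `P` acting on `ε` as the translation by `Bτ`, `η Bτ ≠ 1`, `φ` a Frobenius at `P`,
acting as the translation by `Bφ`. `W A = ∏_{g ∈ V} ε (A g)`. If all `W A` are units at `P` and `l ∣ q - 1`, `q = pn (und K P)`, then `w = ∏_{i < h} W (A Bφ^i)` has residue with `w ^ ((q-1)/l) = 1`.

PROOF. Let `b = Bτ ^ h ∈ V`, `η b = (η Bτ) ^ h ≠ 1` (it is an `l`-th root of unity, `l` prime to `h`), `V₁ = V ∩ ker η`, `z A = ∏_{g ∈ V₁} ε (A g)`. Since `η b` has order `l` and all values of `η` are `l`-th roots of unity, every `g ∈ V` is uniquely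
`g₁ b^j` with `g₁ ∈ V₁`, `0 ≤ j < l` (the `l`-th roots of unity are the powers of `η b`). So `W A = ∏_{j < l} z (A b^j)`, and `z (A b^j) = act (τ^(h j)) (z A)` (`τ^h` acts as the translation by `b`). `τ^h` is in the inertia group, so it preserves the valuation at `P`
(`val_act`): `val (W A) = val (z A) ^ l`, and `val (W A) = 1` (`PU_iff_val`), so `val (z A) = 1` (`pow_eq_one_iff` in the linearly ordered group with zero `ℤᵐ⁰`), `z A` is a unit at `P`, `rl (W A) = rl (z A) ^ l` (`PU.act_inertia`).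
`act (φ^h) (z A) = z (A Bφ^h)` and `Bφ^h ∈ V`, `Bφ^h = g₁ b^j`, so `z (A Bφ^h) = z (A b^j) = act (τ^(h j)) (z A)` (as `z (A g₁) = z A`), which has the residue `rl (z A)`. On the other hand `rl (act (φ^h) (z A)) = rl (z A) ^ (q ^ h)` (`PU.act_frob`, `h` times).
So `rl (z A) ^ (q^h) = rl (z A)`, `rl (z A) ^ (q^h - 1) = 1`. `W (A Bφ^i) = act (φ^i) (W A)` has the residue `rl (W A) ^ (q^i)`. So `rl w = rl (W A) ^ (1 + q + ... + q^(h-1)) = rl (z A) ^ (l (1 + ... + q^(h-1)))` and `rl w ^ ((q-1)/l) = rl (z A) ^ (q^h - 1) = 1`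
(`P1_geom` in nt_r/P1).
-/

set_option autoImplicit false

open NumberField IsDedekindDomain nonZeroDivisors IntermediateField

namespace Pool.Agent.STs

open Pool.Agent.ST
open Pool.Agent.STc (IsInt rd IsUn)

variable {K : Type*} [Field K] [NumberField K] [Algebra K ℝ] {R : IntermediateField K ℝ}

/-- the group `V` is `V₁ × ⟨b⟩` -/
lemma Kol_prod {C : Type*} [CommGroup C] (V : Subgroup C) {T : Finset C}
    (hT : ∀ g, g ∈ T ↔ g ∈ V) {l : ℕ} (hl : l.Prime) (η : C →* ℂˣ) (hη : ∀ g, η g ^ l = 1)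
    {b : C} (hb : b ∈ V) (hηb : η b ≠ 1) {T₁ : Finset C} (hT₁ : ∀ g, g ∈ T₁ ↔ g ∈ V ∧ η g = 1)
    (f : C → ℝ) : ∏ g ∈ T, f g = ∏ j ∈ Finset.range l, ∏ g ∈ T₁, f (b ^ j * g) := by
  classical
  have hord : orderOf (η b) = l := by
    have := Fact.mk hl
    exact orderOf_eq_prime (hη b) hηb
  have hprim : IsPrimitiveRoot ((η b : ℂˣ) : ℂ) l := by
    rw [IsPrimitiveRoot.coe_units_iff, ← hord]
    exact IsPrimitiveRoot.orderOf _
  have : NeZero l := ⟨hl.ne_zero⟩
  rw [← Finset.prod_product']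
  symm
  refine Finset.prod_bij (fun (x : ℕ × C) _ => b ^ x.1 * x.2) ?_ ?_ ?_ ?_
  · intro x hx
    rw [Finset.mem_product, hT₁] at hx
    rw [hT]
    exact V.mul_mem (V.pow_mem hb _) hx.2.1
  · intro x hx y hy hxy
    rw [Finset.mem_product, hT₁, Finset.mem_range] at hx hy
    have h1 : η b ^ x.1 = η b ^ y.1 := by
      have := congrArg η hxy
      simpa [map_mul, map_pow, hx.2.2, hy.2.2] using this
    have h2 : x.1 = y.1 := by
      refine pow_injOn_Iio_orderOf ?_ ?_ h1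
      · rw [hord]; exact hx.1
      · rw [hord]; exact hy.1
    have h3 : x.2 = y.2 := by
      have h4 : b ^ x.1 * x.2 = b ^ y.1 * y.2 := hxy
      rw [h2] at h4
      exact mul_left_cancel h4
    exact Prod.ext h2 h3
  · intro g hg
    rw [hT] at hg
    have h1 : ((η g : ℂˣ) : ℂ) ^ l = 1 := by
      rw [← Units.val_pow_eq_pow_val, hη g, Units.val_one]
    obtain ⟨i, hi, hi'⟩ := hprim.eq_pow_of_pow_eq_one h1
    have h2 : η b ^ i = η g := by
      ext
      rw [Units.val_pow_eq_pow_val]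
      exact hi'
    refine ⟨(i, (b ^ i)⁻¹ * g), ?_, ?_⟩
    · rw [Finset.mem_product, hT₁, Finset.mem_range]
      refine ⟨hi, V.mul_mem (V.inv_mem (V.pow_mem hb _)) hg, ?_⟩
      rw [map_mul, map_inv, map_pow, h2, inv_mul_cancel]
    · exact mul_inv_cancel_left _ _
  · intro x _
    rfl

/-- translation by an element of `V₁` -/
lemma Kol_shift {C : Type*} [CommGroup C] (V : Subgroup C) (η : C →* ℂˣ) {T₁ : Finset C}
    (hT₁ : ∀ g, g ∈ T₁ ↔ g ∈ V ∧ η g = 1) {g₁ : C} (h1 : g₁ ∈ V) (h2 : η g₁ = 1) (f : C → ℝ) :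
    ∏ g ∈ T₁, f (g₁ * g) = ∏ g ∈ T₁, f g := by
  refine Finset.prod_bij (fun g _ => g₁ * g) ?_ ?_ ?_ ?_
  · intro g hg
    rw [hT₁] at hg ⊢
    exact ⟨V.mul_mem h1 hg.1, by rw [map_mul, h2, hg.2, mul_one]⟩
  · intro g _ g' _ h
    exact mul_left_cancel h
  · intro g hg
    rw [hT₁] at hg
    refine ⟨g₁⁻¹ * g, ?_, mul_inv_cancel_left _ _⟩
    rw [hT₁]
    exact ⟨V.mul_mem (V.inv_mem h1) hg.1, by rw [map_mul, map_inv, h2, hg.2, inv_one, mul_one]⟩
  · intro g _
    rfl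

omit [NumberField K] in
lemma Kol_act_pow {C : Type*} [CommGroup C] (ε : C → ℝ) (hmem : ∀ A, ε A ∈ R) {τ : R ≃ₐ[K] R}
    {B : C} (h : ∀ A, act τ (ε A) = ε (A * B)) (k : ℕ) (A : C) :
    act (τ ^ k) (ε A) = ε (A * B ^ k) := by
  induction k with
  | zero => rw [pow_zero, pow_zero, mul_one, act_one_left (hmem A)]
  | succ k ih =>
    rw [pow_succ', act_comp _ _ (hmem A), ih, h, mul_assoc, ← pow_succ]

lemma Kol_inertia_pow {P : PrI R} {τ : R ≃ₐ[K] R}
    (hτ : ∀ x, IsInt R x → rd P (act τ x) = rd P x) (k : ℕ) :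
    ∀ x, IsInt R x → rd P (act (τ ^ k) x) = rd P x := by
  induction k with
  | zero => intro x hx; rw [pow_zero, act_one_left hx.1]
  | succ k ih =>
    intro x hx
    rw [pow_succ', act_comp _ _ hx.1, hτ _ (hx.act _), ih x hx]

lemma Kol_frob_pow {P : PrI R} {φ : R ≃ₐ[K] R} (hφ : IsFrob K P φ) {x : ℝ} (h : PU P x) (k : ℕ) :
    PU P (act (φ ^ k) x) ∧ rl P (act (φ ^ k) x) = rl P x ^ (pn (und K P) ^ k) := by
  induction k with
  | zero => rw [pow_zero, pow_zero, pow_one, act_one_left h.mem]; exact ⟨h, rfl⟩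
  | succ k ih =>
    rw [pow_succ', act_comp _ _ h.mem]
    have h1 := ih.1.act_frob hφ
    refine ⟨h1.1, ?_⟩
    rw [h1.2, ih.2, ← pow_mul, pow_succ]

theorem kol (hR : AbR R) (P : PrI R) {C : Type*} [CommGroup C] [Finite C] (ε : C → ℝ) (hmem : ∀ A, ε A ∈ R)
    (h0 : ∀ A, ε A ≠ 0) (V : Subgroup C) {T : Finset C} (hT : ∀ g, g ∈ T ↔ g ∈ V) {h l : ℕ} (hl : l.Prime) (hlh : ¬ l ∣ h)
    (hh : ∀ g : C, g ^ h ∈ V) (η : C →* ℂˣ) (hη : ∀ g, η g ^ l = 1)
    {τ : R ≃ₐ[K] R} (hτ : ∀ x, IsInt R x → rd P (act τ x) = rd P x) {Bτ : C} (hBτ : ∀ A, act τ (ε A) = ε (A * Bτ))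
    (hητ : η Bτ ≠ 1) {φ : R ≃ₐ[K] R} (hφ : IsFrob K P φ) {Bφ : C} (hBφ : ∀ A, act φ (ε A) = ε (A * Bφ))
    (hW : ∀ A, PU P (∏ g ∈ T, ε (A * g))) (hlq : l ∣ pn (und K P) - 1) (A : C) :
    rl P (∏ i ∈ Finset.range h, ∏ g ∈ T, ε (A * Bφ ^ i * g)) ^ ((pn (und K P) - 1) / l) = 1 := by
  classical
  have : NumberField R := hR.numberField
  have : IsDomain (𝓞 R ⧸ P.asIdeal) := by
    have := P.isPrime
    infer_instance
  set q := pn (und K P) with hq
  set b := Bτ ^ h with hb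
  have hbV : b ∈ V := hh Bτ
  have hordτ : orderOf (η Bτ) = l := by
    have := Fact.mk hl
    exact orderOf_eq_prime (hη Bτ) hητ
  have hηb : η b ≠ 1 := by
    rw [hb, map_pow]
    intro h1
    exact hlh (hordτ ▸ orderOf_dvd_of_pow_eq_one h1)
  obtain ⟨T₁, hT₁'⟩ : ∃ T₁ : Finset C, T₁ = T.filter (fun g => η g = 1) := ⟨_, rfl⟩
  have hT₁ : ∀ g, g ∈ T₁ ↔ g ∈ V ∧ η g = 1 := by
    intro g
    rw [hT₁', Finset.mem_filter, hT]
  obtain ⟨z, hz⟩ : ∃ z : C → ℝ, ∀ A, z A = ∏ g ∈ T₁, ε (A * g) := ⟨_, fun _ => rfl⟩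
  have hzmem : ∀ A, z A ∈ R := fun A => by
    rw [hz]; exact prod_mem fun g _ => hmem _
  have hz0 : ∀ A, z A ≠ 0 := fun A => by
    rw [hz]; exact Finset.prod_ne_zero_iff.2 fun g _ => h0 _
  have hWz : ∀ A, ∏ g ∈ T, ε (A * g) = ∏ j ∈ Finset.range l, z (A * b ^ j) := by
    intro A
    rw [Kol_prod V hT hl η hη hbV hηb hT₁ (fun g => ε (A * g))]
    refine Finset.prod_congr rfl fun j _ => ?_
    rw [hz]
    refine Finset.prod_congr rfl fun g _ => ?_
    rw [mul_assoc]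
  have hact : ∀ (σ : R ≃ₐ[K] R) (B : C), (∀ A, act σ (ε A) = ε (A * B)) → ∀ (k : ℕ) (A : C),
      act (σ ^ k) (z A) = z (A * B ^ k) := by
    intro σ B hσ k A
    rw [hz, hz, act_prod _ _ _ fun g _ => hmem _]
    refine Finset.prod_congr rfl fun g _ => ?_
    rw [Kol_act_pow ε hmem hσ, mul_right_comm]
  -- the elements `τ ^ (h j)`
  have hzb : ∀ (A : C) (j : ℕ), z (A * b ^ j) = act (τ ^ (h * j)) (z A) := by
    intro A j
    rw [hact τ Bτ hBτ, hb, pow_mul]
  have hval : ∀ (A : C) (j : ℕ), P.valuation R (⟨z (A * b ^ j), hzmem _⟩ : R) =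
      P.valuation R (⟨z A, hzmem _⟩ : R) := by
    intro A j
    rw [← val_act (Kol_inertia_pow hτ (h * j)) (⟨z A, hzmem A⟩ : R)]
    congr 1
    apply Subtype.ext
    rw [← act_coe]
    exact hzb A j
  have hPz : ∀ A, PU P (z A) := by
    intro A
    have h1 : P.valuation R (∏ j ∈ Finset.range l, (⟨z (A * b ^ j), hzmem _⟩ : R)) = 1 := by
      rw [← PU_iff_val]
      · have h2 := hW A
        rw [hWz A] at h2
        simpa using h2
      · exact Finset.prod_ne_zero_iff.2 fun j _ h3 => hz0 _ (congrArg Subtype.val h3)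
    rw [map_prod, Finset.prod_congr rfl (fun j _ => hval A j), Finset.prod_const,
      Finset.card_range] at h1
    have h2 : P.valuation R (⟨z A, hzmem _⟩ : R) = 1 := by
      exact (pow_eq_one_iff.1 h1).resolve_right hl.ne_zero
    rw [← PU_iff_val] at h2
    · exact h2
    · intro h3; exact hz0 _ (congrArg Subtype.val h3)
  have hrb : ∀ (A : C) (j : ℕ), rl P (z (A * b ^ j)) = rl P (z A) := by
    intro A j
    rw [hzb]
    exact ((hPz A).act_inertia (Kol_inertia_pow hτ (h * j))).2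
  have hrW : ∀ A, rl P (∏ g ∈ T, ε (A * g)) = rl P (z A) ^ l := by
    intro A
    rw [hWz, rl_prod fun j _ => hPz _, Finset.prod_congr rfl (fun j _ => hrb A j),
      Finset.prod_const, Finset.card_range]
  -- translations by elements of `V`
  have hrV : ∀ (A v : C), v ∈ V → rl P (z (A * v)) = rl P (z A) := by
    intro A v hv
    have hprim : IsPrimitiveRoot ((η b : ℂˣ) : ℂ) l := by
      have := Fact.mk hl
      have hord : orderOf (η b) = l := orderOf_eq_prime (hη b) hηb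
      rw [IsPrimitiveRoot.coe_units_iff, ← hord]
      exact IsPrimitiveRoot.orderOf _
    have : NeZero l := ⟨hl.ne_zero⟩
    have h1 : ((η v : ℂˣ) : ℂ) ^ l = 1 := by
      rw [← Units.val_pow_eq_pow_val, hη v, Units.val_one]
    obtain ⟨i, hi, hi'⟩ := hprim.eq_pow_of_pow_eq_one h1
    have h2 : η b ^ i = η v := by
      ext
      rw [Units.val_pow_eq_pow_val]
      exact hi'
    have h3 : (b ^ i)⁻¹ * v ∈ V := V.mul_mem (V.inv_mem (V.pow_mem hbV _)) hv
    have h4 : η ((b ^ i)⁻¹ * v) = 1 := by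
      rw [map_mul, map_inv, map_pow, h2, inv_mul_cancel]
    have h5 : z (A * v) = z (A * b ^ i) := by
      rw [hz, hz, ← Kol_shift V η hT₁ h3 h4 (fun g => ε (A * b ^ i * g))]
      refine Finset.prod_congr rfl fun g _ => ?_
      congr 1
      rw [← mul_assoc, ← mul_assoc, mul_assoc A (b ^ i), mul_inv_cancel, mul_one]
    rw [h5, hrb]
  have hfr : ∀ (A : C) (k : ℕ), rl P (z (A * Bφ ^ k)) = rl P (z A) ^ (q ^ k) := by
    intro A k
    rw [← hact φ Bφ hBφ]
    exact (Kol_frob_pow hφ (hPz A) k).2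
  have hfix : rl P (z A) ^ (q ^ h) = rl P (z A) := by
    rw [← hfr, hrV _ _ (hh Bφ)]
  have hz1 : rl P (z A) ≠ 0 := (hPz A).rl_ne
  have hN2 : 2 ≤ q := two_le_pn _
  have hzz : rl P (z A) ^ ((q - 1) * ∑ i ∈ Finset.range h, q ^ i) = 1 := by
    have h6 := hfix
    rw [← STr.P1_geom q h (by omega), pow_succ] at h6
    exact mul_right_cancel₀ hz1 (by rw [h6, one_mul])
  have hw : rl P (∏ i ∈ Finset.range h, ∏ g ∈ T, ε (A * Bφ ^ i * g)) =
      rl P (z A) ^ (l * ∑ i ∈ Finset.range h, q ^ i) := by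
    rw [rl_prod fun i _ => hW _]
    rw [Finset.prod_congr rfl (fun i _ => (hrW (A * Bφ ^ i)).trans (by rw [hfr, ← pow_mul])),
      Finset.prod_pow_eq_pow_sum, Finset.mul_sum]
    congr 1
    exact Finset.sum_congr rfl fun i _ => mul_comm _ _
  rw [hw, ← pow_mul]
  have h1 : l * (∑ i ∈ Finset.range h, q ^ i) * ((q - 1) / l) =
      (q - 1) * ∑ i ∈ Finset.range h, q ^ i := by
    rw [mul_comm l, mul_assoc, Nat.mul_div_cancel' hlq, mul_comm]
  rw [h1, hzz]

end Pool.Agent.STs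
end
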