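import Pool.Agent.Lib.MP_1ef7cf_nt_s.Mg.G003
import Pool.Agent.Lib.MP_1ef7cf_nt_r.E5
import Pool.Agent.Lib.MP_1ef7cf_nt_r.Mg.G025
import Pool.Agent.Lib.MP_1ef7cf_nt_s.SB
import Pool.Agent.Lib.MP_1ef7cf_nt_s.SC
import Pool.Agent.Lib.MP_1ef7cf_nt_r.Mg.G024

section

/-!
# TASK SD: the prime `P` of `E`

`N ⊂ ℂ` finite Galois over `K`, `γ ∈ Gal(N/K)`, `M = fixL γ` its fixed field, `E = M ⊔ KZ K r ⊔ KZ K l = M(ζ_r, ζ_l)`. (`hNi`, `hζ`, `hW` are proved in SF.)

PROOF: adapt `exists_P` (nt_r/E5). Apply `exists_good_prime` (nt_r/D1) with the base field `ℚ` (so that `pn P = pn (und ℚ P)` is a PRIME NUMBER; `Bb8_pn_rat`-like: `pn v` is prime for a prime of `ℚ`) and `F = E` and the finite family of Galois extensions of `E` in `ℂ`, index type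
`{i // i ∈ (orderOf γ).primeFactors} ⊕ Unit ⊕ {w // w ∈ W}` (or nested `Option`):
(i) `E ⊔ fixL (γ ^ i)`, as an extension of `E`; it is Galois (`E5_ext`), its degree divides `i` (Mathlib: the Galois group of the compositum embeds in `Gal(fixL (γ^i) / M)`, of prime order `i`; or: `finrank_sup_le`-type bound `[E ⊔ N_i : E] ≤ [N_i : M] = i` is NOT enough, one needs `≥ i`) and is `≠ 1` by `hNi`,
so it is `i`; [the extension `fixL (γ^i) / M` is Galois of degree `i`: `M ≤ fixL (γ ^ i) ≤ N`];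
(ii) `E(ζ)`, `ζ` a primitive `r^2`-th root of unity, `ζ^r ∈ E`: degree `r` (`E5_kum` with `l := r`, `w := ζ^r`; `y ^ r = ζ ^ r`, `y ∈ E` would give a primitive `r^2`-th root of unity in `E`, contradiction to `hζ`);
(iii) `E(w^{1/l})`, `w ∈ W`: degree `l` (`E5_kum`).
Sum of the inverse degrees `< 1` by `hsum`. Avoid the primes over `B`, over `l`, over `r`, those containing some `w ∈ W`, those over primes of `K` ramified in `N`. Conclusions:
`l ∣ pn P - 1`, `r ∣ pn P - 1` by `E5_dvd`. `¬ r^2 ∣ pn P - 1`: otherwise `(ζ^r)^((pn P - 1)/r) = 1` and `kummer_frob` (D2a) shows that the Frobenius in (ii) is trivial. The last statement as in E5. `pn (und K P) = pn P`: it is `> 1` and divides / is at most the prime `pn P` (`pn P` is a power of `pn (und K P)`).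
The statement on `φ`: suppose `φ x = x` for all `x ∈ fixL (γ^i)`; as in E5 part (2) (and `E5_transfer`; here `N`, `φ` take the place of `H`, `Art [q]`: `isFrob_unique`, `isFrob_und`) the Frobenius of (i) over `P` is trivial on `fixL (γ ^ i)` and on `E`: contradiction.
-/

set_option autoImplicit false

open NumberField IsDedekindDomain nonZeroDivisors IntermediateField

namespace Pool.Agent.STs

open Pool.Agent.ST
open Pool.Agent.STd (jR fixL KZ)

set_option linter.unusedSectionVars false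

variable {K : Type*} [Field K] [NumberField K] [Algebra K ℝ] {N : IntermediateField K ℂ}

/-- the norm of a prime of the ring of integers of the rational numbers is a prime number -/
theorem SD_pn_rat (v : PrI ℚ) : (pn v).Prime := by
  have hmem : ((pn v : ℕ) : 𝓞 ℚ) ∈ v.asIdeal := Ideal.absNorm_mem v.asIdeal
  have hpr := v.isPrime
  have key : ∀ n : ℕ, n ≠ 0 → ((n : ℕ) : 𝓞 ℚ) ∈ v.asIdeal →
      ∃ p : ℕ, p.Prime ∧ ((p : ℕ) : 𝓞 ℚ) ∈ v.asIdeal := by
    intro n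
    induction n using Nat.recOnMul with
    | zero => intro h; exact absurd rfl h
    | one =>
      intro _ h
      exact absurd ((Ideal.eq_top_iff_one _).mpr (by simpa using h)) hpr.ne_top
    | prime p hp => intro _ h; exact ⟨p, hp, h⟩
    | mul x y hx hy =>
      intro h0 h
      rw [Nat.cast_mul] at h
      rcases hpr.mem_or_mem h with h1 | h1
      · exact hx (fun h2 => h0 (by rw [h2, Nat.zero_mul])) h1
      · exact hy (fun h2 => h0 (by rw [h2, Nat.mul_zero])) h1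
  obtain ⟨p, hp, hpm⟩ := key (pn v) (by have := two_le_pn v; omega) hmem
  have h1 := Ideal.absNorm_dvd_norm_of_mem hpm
  rw [Algebra.norm_natCast, NumberField.RingOfIntegers.rank, Module.finrank_self, pow_one] at h1
  have h2 : pn v ∣ p := Int.natCast_dvd_natCast.mp h1
  rcases (Nat.dvd_prime hp).mp h2 with h3 | h3
  · have := two_le_pn v
    omega
  · rw [h3]; exact hp

/-- a Frobenius of `L`, compared with one of `N`, on a common subfield -/
theorem SD_transfer [FiniteDimensional K N] (F : IntermediateField K N) [Normal K F]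
    {L : Type*} [Field L] [NumberField L] [Algebra K L] (j : F →ₐ[K] L)
    {Q : PrI L} {σ : L ≃ₐ[K] L} (hσ : IsFrob K Q σ) {φ : N ≃ₐ[K] N}
    (hun : ∀ Q' : PrI N, und K Q' = und K Q → Algebra.IsUnramifiedAt (𝓞 K) Q'.asIdeal)
    (hφ : ∀ Q' : PrI N, und K Q' = und K Q → IsFrob K Q' φ) (x : F) :
    σ (j x) = j (φ.restrictNormal F x) := by
  have hNF : NumberField N := STr.numberField_C N
  have hFF : NumberField F := inferInstance
  let _ : Algebra F L := j.toRingHom.toAlgebra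
  have : IsScalarTower K F L := IsScalarTower.of_algebraMap_eq (fun x => (j.commutes x).symm)
  have h1 : IsFrob K (und F Q) (σ.restrictNormal F) :=
    isFrob_und (fun x => σ.restrictNormal_commutes F x) hσ
  obtain ⟨Q', hQ'⟩ := exists_ovr (K := F) (L := N) (und F Q)
  have hQK : und K Q' = und K Q := by rw [← und_und (E₁ := F) Q', hQ', und_und]
  have := hun Q' hQK
  have hunF : Algebra.IsUnramifiedAt (𝓞 K) (und F Q').asIdeal := unramified_und Q'
  have h3 : IsFrob K (und F Q') (φ.restrictNormal F) :=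
    isFrob_und (fun x => φ.restrictNormal_commutes F x) (hφ Q' hQK)
  have h4 : σ.restrictNormal F = φ.restrictNormal F := by
    refine isFrob_unique (P := und F Q') ?_ h3
    rw [hQ']
    exact h1
  have h5 := σ.restrictNormal_commutes F x
  rw [h4] at h5
  exact h5.symm


theorem SD_normal (hcomm : ∀ σ τ : N ≃ₐ[K] N, σ * τ = τ * σ) (δ : N ≃ₐ[K] N) :
    (Subgroup.zpowers δ).Normal := ⟨fun x hx g => by
  rw [hcomm g x, mul_assoc, mul_inv_cancel, mul_one]; exact hx⟩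


/-- an automorphism which is trivial on the fixed field of `γ` has a trivial `i`-th power on the
fixed field of `γ ^ i` -/
theorem SD_pow [FiniteDimensional K N] [IsGalois K N] (hcomm : ∀ σ τ : N ≃ₐ[K] N, σ * τ = τ * σ)
    (γ : N ≃ₐ[K] N) (i : ℕ) {F : IntermediateField K N}
    (hF : F = IntermediateField.fixedField (Subgroup.zpowers (γ ^ i)))
    {L : Type*} [Field L] [Algebra K L] (j : F →ₐ[K] L)
    (σ : L ≃ₐ[K] L) (hσ : ∀ x : F, γ x = x → σ (j x) = j x) (x : F) :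
    (σ ^ i) (j x) = j x := by
  have hnormal := SD_normal hcomm (γ ^ i)
  have hGal : IsGalois K F := by
    rw [hF]
    exact IsGalois.of_fixedField_normal_subgroup _
  have hnorm : Normal K F := hGal.to_normal
  let _ : Algebra F L := j.toRingHom.toAlgebra
  have : IsScalarTower K F L := IsScalarTower.of_algebraMap_eq (fun x => (j.commutes x).symm)
  obtain ⟨τ, hτ⟩ := AlgEquiv.restrictNormalHom_surjective (F := K) (K₁ := F) N (σ.restrictNormal F)
  have e1 : ∀ x : F, j (σ.restrictNormal F x) = σ (j x) := fun x =>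
    σ.restrictNormal_commutes F x
  have e2 : ∀ x : F, ((σ.restrictNormal F x : F) : N) = τ x := by
    intro x
    rw [← hτ]
    exact τ.restrictNormal_commutes F x
  have hτγ : τ ∈ Subgroup.zpowers γ := by
    rw [← IntermediateField.fixingSubgroup_fixedField (Subgroup.zpowers γ),
      IntermediateField.mem_fixingSubgroup_iff]
    intro y hy
    have hyγ : γ y = y := (IntermediateField.mem_fixedField_iff _ _).1 hy γ (Subgroup.mem_zpowers γ)
    have hyF : y ∈ F := by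
      rw [hF, IntermediateField.mem_fixedField_iff]
      intro g hg
      exact (IntermediateField.mem_fixedField_iff _ _).1 hy g
        ((Subgroup.zpowers_le.2 (Subgroup.pow_mem _ (Subgroup.mem_zpowers γ) i)) hg)
    have h1 := e1 ⟨y, hyF⟩
    rw [hσ ⟨y, hyF⟩ hyγ] at h1
    have h2 := j.toRingHom.injective h1
    rw [← e2 ⟨y, hyF⟩, h2]
  obtain ⟨k, rfl⟩ := Subgroup.mem_zpowers_iff.1 hτγ
  have e3 : ∀ (n : ℕ) (x : F), (σ ^ n) (j x) = j (((σ.restrictNormal F) ^ n) x) := by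
    intro n
    induction n with
    | zero => intro x; rfl
    | succ n ih =>
      intro x
      rw [pow_succ, pow_succ, AlgEquiv.mul_apply, AlgEquiv.mul_apply, ← e1, ih]
  have e4 : ∀ (n : ℕ) (x : F), ((((σ.restrictNormal F) ^ n) x : F) : N) = ((γ ^ k) ^ n) x := by
    intro n
    induction n with
    | zero => intro x; rfl
    | succ n ih =>
      intro x
      rw [pow_succ, pow_succ, AlgEquiv.mul_apply, AlgEquiv.mul_apply, ih, e2]
  rw [e3]
  congr 1
  apply Subtype.ext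
  rw [e4]
  have h5 : (γ ^ k) ^ i ∈ Subgroup.zpowers (γ ^ i) := by
    refine Subgroup.mem_zpowers_iff.2 ⟨k, ?_⟩
    rw [← zpow_natCast γ i, ← zpow_natCast (γ ^ k) i, ← zpow_mul, ← zpow_mul, mul_comm]
  exact (IntermediateField.mem_fixedField_iff _ _).1 (hF ▸ x.2) _ h5


/-- the fixed fields are Galois over `K` -/
theorem SD_fixL [FiniteDimensional K N] [IsGalois K N] (hcomm : ∀ σ τ : N ≃ₐ[K] N, σ * τ = τ * σ)
    (δ : N ≃ₐ[K] N) : FiniteDimensional K (fixL δ) ∧ IsGalois K (fixL δ) := by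
  have hnormal := SD_normal hcomm δ
  have hGal : IsGalois K (IntermediateField.fixedField (Subgroup.zpowers δ) : IntermediateField K N) :=
    IsGalois.of_fixedField_normal_subgroup _
  let f : (IntermediateField.fixedField (Subgroup.zpowers δ) : IntermediateField K N) ≃ₐ[K] fixL δ :=
    IntermediateField.liftAlgEquiv _
  exact ⟨Module.Finite.equiv f.toLinearEquiv, IsGalois.of_algEquiv f⟩

/-- the field `E` is Galois over `K` -/
theorem SD_E [FiniteDimensional K N] [IsGalois K N] (hcomm : ∀ σ τ : N ≃ₐ[K] N, σ * τ = τ * σ)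
    (γ : N ≃ₐ[K] N) {r l : ℕ} (hr : 0 < r) (hl : 0 < l) :
    FiniteDimensional K (fixL γ ⊔ KZ K r ⊔ KZ K l : IntermediateField K ℂ) ∧
      IsGalois K (fixL γ ⊔ KZ K r ⊔ KZ K l : IntermediateField K ℂ) := by
  obtain ⟨h1, h2⟩ := SD_fixL hcomm γ
  obtain ⟨h3, h4⟩ := Pool.Agent.STd.KZ_fd (K := K) hr
  obtain ⟨h5, h6⟩ := Pool.Agent.STd.KZ_fd (K := K) hl
  have h7 : FiniteDimensional K (fixL γ ⊔ KZ K r : IntermediateField K ℂ) :=
    IntermediateField.finiteDimensional_sup _ _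
  have h8 : FiniteDimensional K (fixL γ ⊔ KZ K r ⊔ KZ K l : IntermediateField K ℂ) :=
    IntermediateField.finiteDimensional_sup _ _
  have h9 : Normal K (fixL γ ⊔ KZ K r : IntermediateField K ℂ) := inferInstance
  have h10 : Normal K (fixL γ ⊔ KZ K r ⊔ KZ K l : IntermediateField K ℂ) := inferInstance
  exact ⟨h8, ⟨⟩⟩

/-- the map of the fixed field to the compositum -/
theorem SD_map (E : IntermediateField K ℂ) (δ : N ≃ₐ[K] N) :
    ∃ j : (IntermediateField.fixedField (Subgroup.zpowers δ) : IntermediateField K N) →ₐ[K]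
      (extendScalars (le_sup_left : E ≤ E ⊔ fixL δ)), ∀ x, ((j x : _) : ℂ) = ((x : N) : ℂ) := by
  have hmem : ∀ x : (IntermediateField.fixedField (Subgroup.zpowers δ) : IntermediateField K N),
      ((x : N) : ℂ) ∈ extendScalars (le_sup_left : E ≤ E ⊔ fixL δ) := fun x =>
    (le_sup_right : fixL δ ≤ E ⊔ fixL δ) ((IntermediateField.mem_lift (x : N)).2 x.2)
  exact ⟨{ toFun := fun x => ⟨((x : N) : ℂ), hmem x⟩
           map_one' := rfl
           map_mul' := fun a b => rfl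
           map_zero' := rfl
           map_add' := fun a b => rfl
           commutes' := fun r => rfl }, fun x => rfl⟩

/-- an automorphism of the compositum over `E` which is trivial on the fixed field of `δ` -/
theorem SD_triv {E : IntermediateField K ℂ} {δ : N ≃ₐ[K] N}
    (σ : (extendScalars (le_sup_left : E ≤ E ⊔ fixL δ)) ≃ₐ[E]
      (extendScalars (le_sup_left : E ≤ E ⊔ fixL δ)))
    (h : ∀ x : (extendScalars (le_sup_left : E ≤ E ⊔ fixL δ)), (x : ℂ) ∈ fixL δ → σ x = x) : σ = 1 := by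
  have hle : (E ⊔ fixL δ) ≤ (fixL σ).restrictScalars K := by
    refine sup_le (fun z hz => ?_) fun z hz => ?_
    · exact (fixL σ).algebraMap_mem (⟨z, hz⟩ : E)
    · have hz' : z ∈ extendScalars (le_sup_left : E ≤ E ⊔ fixL δ) :=
        (le_sup_right : fixL δ ≤ E ⊔ fixL δ) hz
      exact (Pool.Agent.STd.mem_fixL σ hz').2 (h ⟨z, hz'⟩ hz)
  apply AlgEquiv.ext
  intro z
  have h5 : (z : ℂ) ∈ fixL σ := hle z.2
  exact (Pool.Agent.STd.mem_fixL σ z.2).1 h5

/-- the degree of the compositum -/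
theorem SD_deg [FiniteDimensional K N] [IsGalois K N] (hcomm : ∀ σ τ : N ≃ₐ[K] N, σ * τ = τ * σ)
    (γ : N ≃ₐ[K] N) {E : IntermediateField K ℂ} [FiniteDimensional K E] [IsGalois K E] (hME : fixL γ ≤ E)
    {i : ℕ} (hi : i.Prime) (hnot : ¬ fixL (γ ^ i) ≤ E) :
    i ∣ Module.finrank E (extendScalars (le_sup_left : E ≤ E ⊔ fixL (γ ^ i))) := by
  obtain ⟨g1, g2⟩ := SD_fixL hcomm (γ ^ i)
  obtain ⟨f1, f2⟩ := STr.E5_ext E (fixL (γ ^ i))
  have h1 : Module.finrank E (extendScalars (le_sup_left : E ≤ E ⊔ fixL (γ ^ i))) ≠ 1 := by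
    intro h1
    have h3 : extendScalars (le_sup_left : E ≤ E ⊔ fixL (γ ^ i)) = ⊥ :=
      IntermediateField.finrank_eq_one_iff.1 h1
    apply hnot
    intro x hx
    have h4 : x ∈ extendScalars (le_sup_left : E ≤ E ⊔ fixL (γ ^ i)) :=
      (le_sup_right : fixL (γ ^ i) ≤ E ⊔ fixL (γ ^ i)) hx
    rw [h3, IntermediateField.mem_bot] at h4
    obtain ⟨z, rfl⟩ := h4
    exact z.2
  have hcard := IsGalois.card_aut_eq_finrank E (extendScalars (le_sup_left : E ≤ E ⊔ fixL (γ ^ i)))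
  have hpos : 0 < Module.finrank E (extendScalars (le_sup_left : E ≤ E ⊔ fixL (γ ^ i))) :=
    Module.finrank_pos
  have hnt : Nontrivial ((extendScalars (le_sup_left : E ≤ E ⊔ fixL (γ ^ i))) ≃ₐ[E]
      (extendScalars (le_sup_left : E ≤ E ⊔ fixL (γ ^ i)))) := by
    rw [← Finite.one_lt_card_iff_nontrivial, hcard]
    omega
  obtain ⟨σ, hσ⟩ := exists_ne (1 : (extendScalars (le_sup_left : E ≤ E ⊔ fixL (γ ^ i))) ≃ₐ[E]
      (extendScalars (le_sup_left : E ≤ E ⊔ fixL (γ ^ i))))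
  obtain ⟨j, hj⟩ := SD_map (N := N) E (γ ^ i)
  have hres : ∀ (n : ℕ) (z : extendScalars (le_sup_left : E ≤ E ⊔ fixL (γ ^ i))),
      ((σ.restrictScalars K) ^ n) z = (σ ^ n) z := by
    intro n
    induction n with
    | zero => intro z; rfl
    | succ n ih =>
      intro z
      rw [pow_succ, pow_succ, AlgEquiv.mul_apply, AlgEquiv.mul_apply, ih]
      rfl
  have hpow : σ ^ i = 1 := by
    apply SD_triv (δ := γ ^ i) (σ ^ i)
    intro x hx
    have hxN : (x : ℂ) ∈ N := Pool.Agent.STd.fixL_le _ hx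
    have hxF : (⟨(x : ℂ), hxN⟩ : N) ∈ (IntermediateField.fixedField (Subgroup.zpowers (γ ^ i)) :
        IntermediateField K N) := (IntermediateField.mem_lift (⟨(x : ℂ), hxN⟩ : N)).1 hx
    have h5 := SD_pow hcomm γ i rfl j (σ.restrictScalars K) (fun y hy => by
      have hyE : ((y : N) : ℂ) ∈ E := hME ((Pool.Agent.STd.mem_fixL γ (y : N).2).2 hy)
      have h6 : j y = algebraMap E _ (⟨((y : N) : ℂ), hyE⟩ : E) := Subtype.ext (hj y)
      rw [h6]
      exact σ.commutes _) ⟨⟨(x : ℂ), hxN⟩, hxF⟩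
    have h7 : j ⟨⟨(x : ℂ), hxN⟩, hxF⟩ = x := Subtype.ext (hj _)
    rw [h7, hres] at h5
    exact h5
  have : Fact i.Prime := ⟨hi⟩
  have h8 : orderOf σ = i := orderOf_eq_prime hpow hσ
  have h9 := orderOf_dvd_natCard σ
  rw [h8, hcard] at h9
  exact h9

theorem exists_PE [FiniteDimensional K N] [IsGalois K N] (hcomm : ∀ σ τ : N ≃ₐ[K] N, σ * τ = τ * σ) (γ : N ≃ₐ[K] N)
    {r l : ℕ} (hr : r.Prime) (hl : l.Prime) {E : IntermediateField K ℂ} (hE : E = fixL γ ⊔ KZ K r ⊔ KZ K l) [NumberField E]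
    (hNi : ∀ i ∈ (orderOf γ).primeFactors, ¬ fixL (γ ^ i) ≤ E)
    (hζ : ∀ z ∈ E, ¬ IsPrimitiveRoot z (r ^ 2)) {W : Finset ℂ}
    (hW : ∀ w ∈ W, w ∈ fixL γ ∧ IsIntegral ℤ w ∧ w ≠ 0 ∧ ∀ y ∈ E, y ^ l ≠ w)
    (hsum : ∑ i ∈ (orderOf γ).primeFactors, (1 / (i : ℝ)) + 1 / r + (W.card : ℝ) / l < 1)
    {B : Set (PrI K)} (hB : B.Finite) :
    ∃ P : PrI E, und K P ∉ B ∧ (pn P).Prime ∧ pn (und K P) = pn P ∧ l ∣ pn P - 1 ∧ r ∣ pn P - 1 ∧ ¬ r ^ 2 ∣ pn P - 1 ∧
      (∀ Q : PrI N, und K Q = und K P → Algebra.IsUnramifiedAt (𝓞 K) Q.asIdeal) ∧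
      (∀ i ∈ (orderOf γ).primeFactors, ∀ φ : N ≃ₐ[K] N, (∀ Q : PrI N, und K Q = und K P → IsFrob K Q φ) →
        ∃ x : N, (x : ℂ) ∈ fixL (γ ^ i) ∧ φ x ≠ x) ∧
      ∀ w ∈ W, ∀ w' : 𝓞 E, ((w' : E) : ℂ) = w → (Ideal.Quotient.mk P.asIdeal w') ^ ((pn P - 1) / l) ≠ 1 := by
  classical
  have hNF : NumberField N := STr.numberField_C N
  obtain ⟨hfd, hgal⟩ : FiniteDimensional K E ∧ IsGalois K E := by
    rw [hE]
    exact SD_E hcomm γ hr.pos hl.pos
  have hME : fixL γ ≤ E := by rw [hE]; exact le_sup_left.trans le_sup_left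
  have hrE : KZ K r ≤ E := by rw [hE]; exact le_sup_right.trans le_sup_left
  have hlE : KZ K l ≤ E := by rw [hE]; exact le_sup_right
  -- roots of unity
  have hζlC := Complex.isPrimitiveRoot_exp l hl.ne_zero
  obtain ⟨ζl, hζl⟩ : ∃ z : E, IsPrimitiveRoot z l :=
    ⟨⟨_, hlE (subset_adjoin K _ hζlC.pow_eq_one)⟩, by
      rw [← IsPrimitiveRoot.coe_submonoidClass_iff]; exact hζlC⟩
  have hr2 : r ^ 2 ≠ 0 := pow_ne_zero 2 hr.ne_zero
  obtain ⟨u, hu⟩ : ∃ u : ℂ, IsPrimitiveRoot u (r ^ 2) := ⟨_, Complex.isPrimitiveRoot_exp (r ^ 2) hr2⟩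
  have hur : IsPrimitiveRoot (u ^ r) r := hu.pow (Nat.pos_of_ne_zero hr2) (pow_two r)
  have huE : u ^ r ∈ E := hrE (subset_adjoin K _ hur.pow_eq_one)
  obtain ⟨ζr, hζrC⟩ : ∃ z : E, (z : ℂ) = u ^ r := ⟨⟨_, huE⟩, rfl⟩
  have hζr : IsPrimitiveRoot ζr r := by
    rw [← IsPrimitiveRoot.coe_submonoidClass_iff, hζrC]
    exact hur
  have hue : ∀ z : E, z ^ r ≠ ζr := by
    intro z hz
    apply hζ z z.2
    have hz' : (z : ℂ) ^ r = u ^ r := by
      rw [← hζrC, ← hz]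
      rfl
    have h2 : orderOf (z : ℂ) ∣ r ^ 2 := orderOf_dvd_of_pow_eq_one (by
      rw [pow_two, pow_mul, hz', ← pow_mul, ← pow_two, hu.pow_eq_one])
    obtain ⟨k, hk, hk2⟩ := (Nat.dvd_prime_pow hr).1 h2
    have hk' : k = 2 := by
      by_contra hne
      have h3 : orderOf (z : ℂ) ∣ r := by
        rw [hk2]
        have h4 : k ≤ 1 := by omega
        exact (pow_dvd_pow r h4).trans (by rw [pow_one])
      have h4 : (z : ℂ) ^ r = 1 := orderOf_dvd_iff_pow_eq_one.1 h3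
      rw [hz'] at h4
      exact hur.ne_one hr.one_lt h4
    rw [hk'] at hk2
    rw [← hk2]
    exact IsPrimitiveRoot.orderOf _
  have hyw : ∀ w : ℂ, ∃ y : ℂ, y ^ l = w := fun w => IsAlgClosed.exists_pow_nat_eq w hl.pos
  choose y hy using hyw
  have hwE : ∀ w ∈ W, w ∈ E := fun w hw => hME (hW w hw).1
  have hir := STr.E5_kum (F := E) hr hζr (w := ζr) (y := u) (by rw [← hζrC]; rfl) hue
  have hil : ∀ w : {w // w ∈ W}, FiniteDimensional E E⟮y w.1⟯ ∧ IsGalois E E⟮y w.1⟯ ∧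
      Module.finrank E E⟮y w.1⟯ = l := fun w =>
    STr.E5_kum hl hζl (w := ⟨w.1, hwE w.1 w.2⟩) (hy w.1)
      (fun z hz => (hW w.1 w.2).2.2.2 z z.2 (congrArg Subtype.val hz))
  have hin : ∀ i : {i // i ∈ (orderOf γ).primeFactors},
      FiniteDimensional E (extendScalars (le_sup_left : E ≤ E ⊔ fixL (γ ^ i.1))) ∧
      IsGalois E (extendScalars (le_sup_left : E ≤ E ⊔ fixL (γ ^ i.1))) ∧
      i.1 ∣ Module.finrank E (extendScalars (le_sup_left : E ≤ E ⊔ fixL (γ ^ i.1))) := by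
    intro i
    obtain ⟨g1, g2⟩ := SD_fixL hcomm (γ ^ i.1)
    obtain ⟨f1, f2⟩ := STr.E5_ext E (fixL (γ ^ i.1))
    exact ⟨f1, f2, SD_deg hcomm γ hME (Nat.prime_of_mem_primeFactors i.2) (hNi i.1 i.2)⟩
  let EE : ({i // i ∈ (orderOf γ).primeFactors} ⊕ (Unit ⊕ {w // w ∈ W})) → IntermediateField E ℂ :=
    fun i => match i with
    | Sum.inl i => extendScalars (le_sup_left : E ≤ E ⊔ fixL (γ ^ i.1))
    | Sum.inr (Sum.inl _) => E⟮u⟯
    | Sum.inr (Sum.inr w) => E⟮y w.1⟯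
  have hFD : ∀ i, FiniteDimensional E (EE i) := by
    rintro (i | (- | w))
    · exact (hin i).1
    · exact hir.1
    · exact (hil w).1
  have hNFE : ∀ i, NumberField (EE i) := fun i => by
    have := hFD i
    exact NumberField.of_module_finite E (EE i)
  have hG : ∀ i, IsGalois E (EE i) := by
    rintro (i | (- | w))
    · exact (hin i).2.1
    · exact hir.2.1
    · exact (hil w).2.1
  have hsum' : ∑ i ∈ (Finset.univ : Finset ({i // i ∈ (orderOf γ).primeFactors} ⊕ (Unit ⊕ {w // w ∈ W}))),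
      (1 / (Module.finrank E (EE i) : ℝ)) < 1 := by
    rw [Fintype.sum_sum_type, Fintype.sum_sum_type]
    have h1 : ∑ i : {i // i ∈ (orderOf γ).primeFactors}, (1 / (Module.finrank E (EE (Sum.inl i)) : ℝ)) ≤
        ∑ i ∈ (orderOf γ).primeFactors, (1 / (i : ℝ)) := by
      rw [← Finset.sum_coe_sort (orderOf γ).primeFactors (fun i : ℕ => 1 / (i : ℝ))]
      refine Finset.sum_le_sum fun i _ => ?_
      have hFDi := hFD (Sum.inl i)
      have h2 : 0 < Module.finrank E (EE (Sum.inl i)) := Module.finrank_pos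
      have h3 : i.1 ≤ Module.finrank E (EE (Sum.inl i)) := Nat.le_of_dvd h2 (hin i).2.2
      apply one_div_le_one_div_of_le
      · exact_mod_cast (Nat.prime_of_mem_primeFactors i.2).pos
      · exact_mod_cast h3
    have h2 : ∑ a : Unit, (1 / (Module.finrank E (EE (Sum.inr (Sum.inl a))) : ℝ)) = 1 / r := by
      rw [Fintype.sum_unique, show Module.finrank E (EE (Sum.inr (Sum.inl default))) = r from hir.2.2]
    have h3 : ∀ w : {w // w ∈ W}, (1 / (Module.finrank E (EE (Sum.inr (Sum.inr w))) : ℝ)) = 1 / l :=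
      fun w => by rw [show Module.finrank E (EE (Sum.inr (Sum.inr w))) = l from (hil w).2.2]
    rw [h2, Finset.sum_congr rfl fun w _ => h3 w, Finset.sum_const, Finset.card_univ, Fintype.card_coe,
      nsmul_eq_mul, mul_one_div]
    linarith
  have hl0 : Ideal.span {(l : 𝓞 E)} ≠ ⊥ := by
    rw [Ne, Ideal.span_singleton_eq_bot, Nat.cast_eq_zero]
    exact hl.ne_zero
  have hr0 : Ideal.span {(r : 𝓞 E)} ≠ ⊥ := by
    rw [Ne, Ideal.span_singleton_eq_bot, Nat.cast_eq_zero]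
    exact hr.ne_zero
  have hover : ∀ {C : Set (PrI K)}, C.Finite → {P : PrI E | und K P ∈ C}.Finite := by
    intro C hC
    have h3 : {P : PrI E | und K P ∈ C} ⊆ ⋃ p ∈ C, ovr K (E := E) p := by
      intro P hP
      exact Set.mem_biUnion (x := und K P) hP rfl
    exact (hC.biUnion fun p _ => finite_ovr K p).subset h3
  have hBfin : ({P : PrI E | und K P ∈ B} ∪ {P : PrI E | (l : 𝓞 E) ∈ P.asIdeal} ∪
      {P : PrI E | (r : 𝓞 E) ∈ P.asIdeal} ∪
      {P : PrI E | und K P ∈ und K '' {Q : PrI N | ¬ Algebra.IsUnramifiedAt (𝓞 K) Q.asIdeal}}).Finite := by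
    refine Set.Finite.union (Set.Finite.union (Set.Finite.union (hover hB) ?_) ?_)
      (hover ((finite_ramified K).image _))
    · refine (Ideal.finite_factors hl0).subset ?_
      intro P hP
      exact Ideal.dvd_iff_le.2 ((Ideal.span_singleton_le_iff_mem _).2 hP)
    · refine (Ideal.finite_factors hr0).subset ?_
      intro P hP
      exact Ideal.dvd_iff_le.2 ((Ideal.span_singleton_le_iff_mem _).2 hP)
  obtain ⟨P, hPB, hPpn, hall⟩ := STr.exists_good_prime (K := ℚ) (F := E) Finset.univ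
    (fun i => EE i) hsum' _ hBfin
  rw [Set.mem_union, Set.mem_union, Set.mem_union, not_or, not_or, not_or] at hPB
  obtain ⟨⟨⟨hPB1, hPl⟩, hPr⟩, hPun⟩ := hPB
  have hPl : (l : 𝓞 E) ∉ P.asIdeal := hPl
  have hPr : (r : 𝓞 E) ∉ P.asIdeal := hPr
  have hdvl : l ∣ pn P - 1 := STr.E5_dvd hl hζl hPl
  have hdvr : r ∣ pn P - 1 := STr.E5_dvd hr hζr hPr
  have hprime : (pn P).Prime := by
    rw [hPpn]
    exact SD_pn_rat _
  have hPK : pn (und K P) = pn P := by
    apply le_antisymm (pn_und_le K P)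
    rw [hPpn, ← und_und (K := ℚ) (E₁ := K) P]
    exact pn_und_le ℚ (und K P)
  have hun : ∀ Q : PrI N, und K Q = und K P → Algebra.IsUnramifiedAt (𝓞 K) Q.asIdeal := by
    intro Q hQ
    by_contra hcon
    exact hPun ⟨Q, hcon, hQ⟩
  refine ⟨P, hPB1, hprime, hPK, hdvl, hdvr, ?_, hun, ?_, ?_⟩
  · -- `r ^ 2`
    rintro ⟨k, hk⟩
    obtain ⟨Q, hQ, -, hQ2⟩ := hall (Sum.inr (Sum.inl ())) (Finset.mem_univ _)
    subst hQ
    have := hNFE (Sum.inr (Sum.inl ()))
    have := hG (Sum.inr (Sum.inl ()))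
    obtain ⟨σ, hσ⟩ := exists_isFrob (K := E) Q
    have hint : IsIntegral ℤ ζr :=
      IsIntegral.of_pow (n := r) hr.pos (by rw [hζr.pow_eq_one]; exact isIntegral_one)
    obtain ⟨w', hw'⟩ : ∃ z : 𝓞 E, algebraMap (𝓞 E) E z = ζr := ⟨⟨ζr, hint⟩, rfl⟩
    have hw'1 : w' ^ r = 1 := by
      apply RingOfIntegers.coe_injective
      rw [map_pow, hw', hζr.pow_eq_one, map_one]
    have hgen : (AdjoinSimple.gen E u) ^ r = algebraMap E E⟮u⟯ (w' : E) := by
      apply Subtype.ext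
      rw [SubmonoidClass.coe_pow, AdjoinSimple.coe_gen]
      rw [show (w' : E) = ζr from hw', ← hζrC]
      rfl
    have hwQ : w' ∉ (und E Q).asIdeal := by
      intro h
      have h3 : w' ^ r ∈ (und E Q).asIdeal := Ideal.pow_mem_of_mem _ h r hr.pos
      rw [hw'1] at h3
      exact (und E Q).isPrime.ne_top ((Ideal.eq_top_iff_one _).2 h3)
    have hc : (Ideal.Quotient.mk (und E Q).asIdeal w') ^ ((pn (und E Q) - 1) / r) = 1 := by
      rw [hk, pow_two, mul_assoc, Nat.mul_div_cancel_left _ hr.pos, ← map_pow, pow_mul, hw'1, one_pow,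
        map_one]
    have hσ1 := STr.kummer_frob hr hζr hgen (STr.E5_top _) hPr hwQ hdvr hc hσ
    exact hQ2 (hσ1 ▸ hσ)
  · -- the fields `fixL (γ ^ i)`
    intro i hi φ hφ
    by_contra hcon
    push Not at hcon
    obtain ⟨Q, hQ, -, hQ2⟩ := hall (Sum.inl ⟨i, hi⟩) (Finset.mem_univ _)
    subst hQ
    have := hNFE (Sum.inl ⟨i, hi⟩)
    have := hG (Sum.inl ⟨i, hi⟩)
    obtain ⟨σ, hσ⟩ := exists_isFrob (K := E) Q
    have hund : und K (und E Q) = und K Q := und_und Q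
    have hσK : IsFrob K Q (σ.restrictScalars K) := by
      intro z
      rw [← hund, hPK]
      exact hσ z
    obtain ⟨j, hj⟩ := SD_map (N := N) E (γ ^ i)
    have hnormal := SD_normal hcomm (γ ^ i)
    have hGal : IsGalois K (IntermediateField.fixedField (Subgroup.zpowers (γ ^ i)) :
        IntermediateField K N) := IsGalois.of_fixedField_normal_subgroup _
    have hnorm := hGal.to_normal
    have hσ1 : σ = 1 := by
      apply SD_triv (δ := γ ^ i) σ
      intro x hx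
      have hxN : (x : ℂ) ∈ N := Pool.Agent.STd.fixL_le _ hx
      have hxF : (⟨(x : ℂ), hxN⟩ : N) ∈ (IntermediateField.fixedField (Subgroup.zpowers (γ ^ i)) :
          IntermediateField K N) := (IntermediateField.mem_lift (⟨(x : ℂ), hxN⟩ : N)).1 hx
      have h5 := SD_transfer (IntermediateField.fixedField (Subgroup.zpowers (γ ^ i)) :
        IntermediateField K N) j hσK (φ := φ) (fun Q' h => hun Q' (h.trans hund.symm))
        (fun Q' h => hφ Q' (h.trans hund.symm)) ⟨⟨(x : ℂ), hxN⟩, hxF⟩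
      have h6 : φ.restrictNormal _ (⟨⟨(x : ℂ), hxN⟩, hxF⟩ :
          (IntermediateField.fixedField (Subgroup.zpowers (γ ^ i)) : IntermediateField K N)) =
          ⟨⟨(x : ℂ), hxN⟩, hxF⟩ := by
        apply Subtype.ext
        have h7 := φ.restrictNormal_commutes (IntermediateField.fixedField (Subgroup.zpowers (γ ^ i)) :
          IntermediateField K N) ⟨⟨(x : ℂ), hxN⟩, hxF⟩
        exact h7.trans (hcon ⟨(x : ℂ), hxN⟩ hx)
      rw [h6] at h5
      have h7 : j ⟨⟨(x : ℂ), hxN⟩, hxF⟩ = x := Subtype.ext (hj _)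
      rw [h7] at h5
      exact h5
    exact hQ2 (hσ1 ▸ hσ)
  · -- the elements of `W`
    intro w hw w' hw' hc
    obtain ⟨Q, hQ, -, hQ2⟩ := hall (Sum.inr (Sum.inr ⟨w, hw⟩)) (Finset.mem_univ _)
    subst hQ
    have := hNFE (Sum.inr (Sum.inr ⟨w, hw⟩))
    have := hG (Sum.inr (Sum.inr ⟨w, hw⟩))
    obtain ⟨σ, hσ⟩ := exists_isFrob (K := E) Q
    have hgen : (AdjoinSimple.gen E (y w)) ^ l = algebraMap E E⟮y w⟯ (w' : E) := by
      apply Subtype.ext
      rw [SubmonoidClass.coe_pow, AdjoinSimple.coe_gen, hy, ← hw']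
      rfl
    have hwQ : w' ∉ (und E Q).asIdeal := by
      intro h
      rw [← Ideal.Quotient.eq_zero_iff_mem] at h
      have h3 := two_le_pn (und E Q)
      have h4 : (pn (und E Q) - 1) / l ≠ 0 := by
        intro h5
        have h6 := Nat.div_mul_cancel hdvl
        rw [h5, zero_mul] at h6
        omega
      rw [h, zero_pow h4] at hc
      have := (und E Q).isPrime
      exact zero_ne_one hc
    have hσ1 := STr.kummer_frob hl hζl hgen (STr.E5_top _) hPl hwQ hdvl hc hσ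
    exact hQ2 (hσ1 ▸ hσ)


end Pool.Agent.STs
end

section

/-!
# TASK SF: selection of the prime, complex form

PROOF. `hrun` gives: `cyclotomic r N`, `cyclotomic (r^2) N` irreducible (`cyc_irred_pow`). `R' = N ⊔ KZ K (r^2)`, a number field, finite over `K`. `l₀` such that for primes `l > l₀`: `l ≠ r`, `l ∉ P^2` for the primes `P` of `R'` containing `l` (`exists_unram`, nt_r/E3a, for `R'`), so `cyclotomic l R'` is irreducible
(`cyc_irred`); no `w ∈ W` is an `l`-th power in `R'` (`finite_pow_nf` for the finitely many `w`; a positive real `w ≠ 1` is not a root of unity); `(W.card : ℝ)/l < 1/50`, so `hsum` of SD holds: `5/6 + 1/7 + 1/50 < 1`.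
Let `M = fixL γ`, `X = M ⊔ KZ K r ≤ R'`, `E = X ⊔ KZ K l`. `cyc_inf` for `(N := R', M := X, n := l)`: `E ⊓ R' = X`. `cyc_inf` for `(N, M, r)`: `X ⊓ N = M`. So: `fixL (γ^i) ≤ E` would give `fixL (γ^i) ≤ E ⊓ R' = X`, `≤ X ⊓ N = M`, but `[fixL (γ^i) : M] = i` (Galois theory; `i ∣ orderOf γ` prime;
e.g. `x ∈ fixL (γ^i)` for all such `x ∈ M` would give `γ ∈ zpowers (γ^i)`, impossible). A primitive `r^2`-th root of unity in `E` lies in `R'` (in `KZ K (r^2)`), so in `X`: contradiction to `zeta_notMem`. `w = y^l`, `y ∈ E = X ⊔ KZ K l`: `pow_of_cyc` gives an `l`-th root in `X ≤ R'`: contradiction.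
Non-integral `w`: choose `c : ℕ`, `c ≠ 0`, with `c w` integral; use `w' = w c^l` (integral, in `fixL γ`, not an `l`-th power). Add the primes of `K` containing some `c` to `B`. `exists_PE`, `exists_j`. Let `v = und K P`.
The real field `MR`: `MR.map (jR K) ≤ fixL γ ≤ E`; `P₀ = P ∩ MR` (algebra `MR → E`, as in `exists_Q`, nt_r/E6). `w = a/b` etc.: if `rl P₀ w ^ ((p-1)/l) = 1` then, `w' = w c^l` being an integer of `MR`, `rd P₀ w' = rl P₀ w * c^l` (`c ∉ P₀`; `w` is `PI` at `P₀`: `w = w'/c^l`; if it is not `PU` its `rl` is `0` and the power is not `1`),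
`(rd P₀ w')^((p-1)/l) = c^(p-1) = 1` (Fermat: `p = pn v` is prime and `p ∈ P₀`), hence `(mk P w')^((p-1)/l) = 1` in `𝓞 E/P`: contradiction.
-/

set_option autoImplicit false

open NumberField IsDedekindDomain nonZeroDivisors IntermediateField

namespace Pool.Agent.STs

open Pool.Agent.ST
open Pool.Agent.STd (jR fixL KZ)

variable {K : Type*} [Field K] [NumberField K] [Algebra K ℝ] {N : IntermediateField K ℂ}

open Pool.Agent.STc (IsInt rd)

omit [NumberField K] in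
theorem SF_gamma [FiniteDimensional K N] [IsGalois K N] (γ : N ≃ₐ[K] N) {i : ℕ} (hi : i.Prime)
    (hio : i ∣ orderOf γ) (h : fixL (γ ^ i) ≤ fixL γ) : False := by
  have h1 : γ ∈ Subgroup.zpowers (γ ^ i) := by
    rw [← IntermediateField.fixingSubgroup_fixedField (Subgroup.zpowers (γ ^ i)),
      IntermediateField.mem_fixingSubgroup_iff]
    intro x hx
    have h2 : (x : ℂ) ∈ fixL (γ ^ i) := (IntermediateField.mem_lift (F := N) x).2 hx
    have h3 := (Pool.Agent.STd.mem_fixL γ x.2).1 (h h2)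
    exact h3
  obtain ⟨k, hk⟩ := mem_powers_iff_mem_zpowers.2 h1
  have h2 : γ ^ (i * k) = γ := by
    rw [pow_mul]
    exact hk
  have h3 : i * k ≡ 1 [MOD orderOf γ] := by
    rw [← pow_eq_pow_iff_modEq, h2, pow_one]
  have h4 : i * k ≡ 1 [MOD i] := h3.of_dvd hio
  have h5 : 1 ≡ 0 [MOD i] := h4.symm.trans ((Nat.modEq_zero_iff_dvd).2 (dvd_mul_right i k))
  have h6 := (Nat.modEq_zero_iff_dvd).1 h5
  exact hi.one_lt.ne' (Nat.dvd_one.1 h6)

omit [NumberField K] [Algebra K ℝ] in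
theorem SF_fermat {F : Type*} [Field F] {P : PrI F} {c p : ℕ} (hp : p.Prime)
    (hpP : (p : 𝓞 F) ∈ P.asIdeal) (hc : (c : 𝓞 F) ∉ P.asIdeal) :
    ((c : 𝓞 F ⧸ P.asIdeal)) ^ (p - 1) = 1 := by
  have h1 : ¬ p ∣ c := by
    rintro ⟨t, rfl⟩
    apply hc
    push_cast
    exact P.asIdeal.mul_mem_right _ hpP
  have h2 : Nat.Coprime c p := ((Nat.Prime.coprime_iff_not_dvd hp).2 h1).symm
  have h3 := Nat.ModEq.pow_totient h2
  rw [Nat.totient_prime hp] at h3
  obtain ⟨t, ht⟩ := (Nat.modEq_iff_dvd).1 h3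
  have h4 : ((1 : 𝓞 F) - (c : 𝓞 F) ^ (p - 1)) = (p : 𝓞 F) * (t : 𝓞 F) := by
    have := congrArg (fun z : ℤ => (z : 𝓞 F)) ht
    push_cast at this
    exact this
  have h5 : ((1 : 𝓞 F) - (c : 𝓞 F) ^ (p - 1)) ∈ P.asIdeal := by
    rw [h4]
    exact P.asIdeal.mul_mem_right _ hpP
  have h6 := Ideal.Quotient.eq_zero_iff_mem.2 h5
  rw [map_sub, map_pow, map_natCast, map_one, sub_eq_zero] at h6
  exact h6.symm

theorem SF_up {MR : IntermediateField K ℝ} [FiniteDimensional K MR] {E : IntermediateField K ℂ} [NumberField E]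
    (hle : MR.map (jR K) ≤ E) (P : PrI E) :
    ∃ P₀ : PrI MR, und K P₀ = und K P ∧ ∀ w, IsInt MR w → ∀ w' : 𝓞 E,
      ((w' : E) : ℂ) = (w : ℂ) → ∀ j : ℕ, (rd P₀ w) ^ j = 1 → (Ideal.Quotient.mk P.asIdeal w') ^ j = 1 := by
  have hmem : ∀ y : MR, ((jR K).comp MR.val) y ∈ E.toSubalgebra := by
    intro y
    exact hle ⟨(y : ℝ), y.2, rfl⟩
  let j : MR →ₐ[K] E := ((jR K).comp MR.val).codRestrict E.toSubalgebra hmem
  have := numberField_of_fd MR
  let _ : Algebra MR E := (j : MR →+* E).toAlgebra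
  have : IsScalarTower K MR E :=
    IsScalarTower.of_algebraMap_eq fun x => (j.commutes x).symm
  refine ⟨und MR P, und_und P, fun w hw w' hww j hj => ?_⟩
  have hx : IsInt MR (w ^ j - 1) := (hw.pow j).sub IsInt.one
  have h3 : rd (und MR P) (w ^ j - 1) = 0 := by
    rw [Pool.Agent.STc.rd_sub (hw.pow j) IsInt.one, Pool.Agent.STc.rd_pow hw, hj,
      Pool.Agent.STc.rd_one, sub_self]
  rw [Pool.Agent.STc.rd_eq_zero_iff hx, Pool.Agent.STd.mem_und] at h3
  rw [← map_pow, ← map_one (Ideal.Quotient.mk _), Ideal.Quotient.eq]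
  have h4 : w' ^ j - 1 = algebraMap (𝓞 MR) (𝓞 E) hx.toO := by
    apply RingOfIntegers.coe_injective
    apply Subtype.ext
    have h5 : ((((algebraMap (𝓞 MR) (𝓞 E) hx.toO : 𝓞 E) : E)) : ℂ) = ((w ^ j - 1 : ℝ) : ℂ) := rfl
    rw [h5, map_sub, map_pow, map_one]
    push_cast
    rw [hww]
  rw [h4]
  exact h3

omit [Algebra K ℝ] in
theorem SF_finite {c : ℕ} (hc : c ≠ 0) : {v : PrI K | (c : 𝓞 K) ∈ v.asIdeal}.Finite := by
  have h2 : Ideal.span {(c : 𝓞 K)} ≠ ⊥ := by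
    rw [Ne, Ideal.span_singleton_eq_bot]
    exact_mod_cast hc
  refine (finite_dvd h2).subset ?_
  intro q hq
  exact Ideal.dvd_iff_le.2 ((Ideal.span_singleton_le_iff_mem _).2 hq)

/-- an integral multiple -/
theorem SF_mul [FiniteDimensional K N] {w : ℝ} (hw : (w : ℂ) ∈ N) : ∃ c : ℕ, c ≠ 0 ∧ IsIntegral ℤ ((c : ℝ) * w) := by
  have := Pool.Agent.STr.numberField_C N
  have h1 : IsAlgebraic ℤ (⟨(w : ℂ), hw⟩ : N) := by
    have h2 : IsAlgebraic ℚ (⟨(w : ℂ), hw⟩ : N) := Algebra.IsAlgebraic.isAlgebraic _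
    exact (IsFractionRing.isAlgebraic_iff ℤ ℚ N).2 h2
  obtain ⟨y, hy0, hy⟩ := h1.exists_integral_multiple
  have h3 : IsIntegral ℤ ((y : ℂ) * (w : ℂ)) := by
    have h4 := hy.map (algebraMap N ℂ).toIntAlgHom
    have h5 : (algebraMap N ℂ).toIntAlgHom (y • (⟨(w : ℂ), hw⟩ : N)) = (y : ℂ) * (w : ℂ) := by
      rw [zsmul_eq_mul, map_mul, map_intCast]
      rfl
    rwa [h5] at h4
  have h6 : IsIntegral ℤ ((y : ℝ) * w) := by
    have h7 : ((((y : ℝ) * w : ℝ)) : ℂ) = (y : ℂ) * (w : ℂ) := by push_cast; rfl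
    rw [← h7] at h3
    exact (isIntegral_algebraMap_iff (R := ℤ) (A := ℝ) (B := ℂ) Complex.ofReal_injective).1 h3
  refine ⟨y.natAbs, Int.natAbs_ne_zero.2 hy0, ?_⟩
  rcases Int.natAbs_eq y with h7 | h7
  · rw [h7] at h6
    simpa using h6
  · have h8 := h6.neg
    rw [h7] at h8
    simpa using h8

theorem select_C [FiniteDimensional K N] [IsGalois K N] (hcomm : ∀ σ τ : N ≃ₐ[K] N, σ * τ = τ * σ) (γ : N ≃ₐ[K] N)
    (hγ : ∑ i ∈ (orderOf γ).primeFactors, (1 / (i : ℝ)) ≤ 5 / 6) {r : ℕ} (hr : r.Prime) (hr7 : 7 ≤ r)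
    (hrun : ∀ P : PrI N, (r : 𝓞 N) ∈ P.asIdeal → (r : 𝓞 N) ∉ P.asIdeal ^ 2)
    (W : Finset ℝ) (hW : ∀ w ∈ W, (w : ℂ) ∈ fixL γ ∧ 0 < w ∧ w ≠ 1) :
    ∃ l₀ : ℕ, ∀ l : ℕ, l.Prime → l₀ < l → ∀ B : Set (PrI K), B.Finite →
      ∀ MR : IntermediateField K ℝ, FiniteDimensional K MR → MR.map (jR K) ≤ fixL γ → (∀ w ∈ W, w ∈ MR) →
      ∃ (v : PrI K) (j : ℕ) (P₀ : PrI MR), v ∉ B ∧ (pn v).Prime ∧ l ∣ pn v - 1 ∧ r ∣ pn v - 1 ∧ ¬ r ^ 2 ∣ pn v - 1 ∧
        j < orderOf γ ∧ j.Coprime (orderOf γ) ∧ (∀ Q : PrI N, und K Q = v → IsFrob K Q (γ ^ j)) ∧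
        und K P₀ = v ∧ ∀ w ∈ W, rl P₀ w ^ ((pn v - 1) / l) ≠ 1 := by
  classical
  have hr0 : 0 < r := hr.pos
  have hr20 : 0 < r ^ 2 := by positivity
  have fdr := (Pool.Agent.STd.KZ_fd (K := K) hr0).1
  have fdr2 := (Pool.Agent.STd.KZ_fd (K := K) hr20).1
  have nN : NumberField N := Pool.Agent.STr.numberField_C N
  have hMN : fixL γ ≤ N := Pool.Agent.STd.fixL_le γ
  -- the cyclotomic polynomials
  have irr1 : Irreducible (Polynomial.cyclotomic r N) := Pool.Agent.STr.cyc_irred hr hrun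
  have irr2 : Irreducible (Polynomial.cyclotomic (r ^ 2) N) := cyc_irred_pow hr hrun 1
  obtain ⟨R', hR'⟩ : ∃ R' : IntermediateField K ℂ, R' = N ⊔ KZ K (r ^ 2) := ⟨_, rfl⟩
  have fdR' : FiniteDimensional K R' := by
    rw [hR']
    exact IntermediateField.finiteDimensional_sup _ _
  have nR' : NumberField R' := Pool.Agent.STr.numberField_C R'
  have hNR' : N ≤ R' := by
    rw [hR']
    exact le_sup_left
  have hKZ : KZ K r ≤ KZ K (r ^ 2) := by
    unfold KZ
    refine IntermediateField.adjoin.mono _ _ _ fun x hx => ?_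
    have hx' : x ^ r = 1 := hx
    change x ^ (r ^ 2) = 1
    rw [sq, pow_mul, hx', one_pow]
  obtain ⟨X, hX⟩ : ∃ X : IntermediateField K ℂ, X = fixL γ ⊔ KZ K r := ⟨_, rfl⟩
  have hXR' : X ≤ R' := by
    rw [hX, hR']
    exact sup_le (hMN.trans le_sup_left) (hKZ.trans le_sup_right)
  have hMX : fixL γ ≤ X := by
    rw [hX]
    exact le_sup_left
  have hXN : X ⊓ N = fixL γ := by
    rw [hX]
    exact cyc_inf hMN hr0 irr1
  -- the bounds
  obtain ⟨N₁, hN₁⟩ := Pool.Agent.STr.exists_unram R'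
  have hpow : ∀ w : ℝ, ∃ l₁ : ℕ, w ∈ W → ∀ l : ℕ, l.Prime → l₁ < l → ∀ y ∈ R', y ^ l ≠ (w : ℂ) := by
    intro w
    by_cases hw : w ∈ W
    · have hwR' : (w : ℂ) ∈ R' := hNR' (hMN (hW w hw).1)
      obtain ⟨l₁, hl₁⟩ := finite_pow_nf (w := (⟨(w : ℂ), hwR'⟩ : R')) (by
        intro h
        have h1 : (w : ℂ) = 0 := congrArg (fun z : R' => (z : ℂ)) h
        have h2 : w = 0 := by exact_mod_cast h1
        exact (hW w hw).2.1.ne' h2) (by
        intro k hk h
        have h1 : (w : ℂ) ^ k = 1 := by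
          have := congrArg (fun z : R' => (z : ℂ)) h
          simpa using this
        have h2 : w ^ k = 1 := by exact_mod_cast h1
        exact (hW w hw).2.2 ((pow_eq_one_iff_of_nonneg (hW w hw).2.1.le hk.ne').1 h2))
      refine ⟨l₁, fun _ l hl hll y hy h => hl₁ l hl hll ⟨y, hy⟩ ?_⟩
      apply Subtype.ext
      simpa using h
    · exact ⟨0, fun h => absurd h hw⟩
  choose L₁ hL₁ using hpow
  refine ⟨N₁ + W.sup L₁ + 50 * W.card + r + 1, fun l hl hll B hB MR hMRfd hMR hWMR => ?_⟩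
  have hl0 : 0 < l := hl.pos
  have hlN : N₁ < l := by omega
  have fdl := (Pool.Agent.STd.KZ_fd (K := K) hl0).1
  have irr3 : Irreducible (Polynomial.cyclotomic l R') := Pool.Agent.STr.cyc_irred hl (hN₁ l hl hlN)
  have hXR : (X ⊔ KZ K l) ⊓ R' = X := cyc_inf hXR' hl0 irr3
  obtain ⟨E, hE⟩ : ∃ E : IntermediateField K ℂ, E = fixL γ ⊔ KZ K r ⊔ KZ K l := ⟨_, rfl⟩
  have hEX : E = X ⊔ KZ K l := by rw [hE, hX]
  have fdM : FiniteDimensional K (fixL γ) :=
    FiniteDimensional.of_injective (inclusion hMN).toLinearMap (inclusion hMN).injective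
  have fdE : FiniteDimensional K E := by
    rw [hE]
    have := IntermediateField.finiteDimensional_sup (fixL γ) (KZ K r)
    exact IntermediateField.finiteDimensional_sup _ _
  have nE : NumberField E := Pool.Agent.STr.numberField_C E
  have nMR : NumberField MR := numberField_of_fd MR
  have hXE : X ≤ E := by
    rw [hEX]
    exact le_sup_left
  have hME : fixL γ ≤ E := hMX.trans hXE
  -- no power of `γ`
  have hNi : ∀ i ∈ (orderOf γ).primeFactors, ¬ fixL (γ ^ i) ≤ E := by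
    intro i hi hle
    rw [Nat.mem_primeFactors] at hi
    have h1 : fixL (γ ^ i) ≤ N := Pool.Agent.STd.fixL_le _
    have h2 : fixL (γ ^ i) ≤ X := by
      rw [← hXR, ← hEX]
      exact le_inf hle (h1.trans hNR')
    have h3 : fixL (γ ^ i) ≤ fixL γ := by
      rw [← hXN]
      exact le_inf h2 h1
    exact SF_gamma γ hi.1 hi.2.1 h3
  -- no root of unity of order `r ^ 2`
  have hζ : ∀ z ∈ E, ¬ IsPrimitiveRoot z (r ^ 2) := by
    intro z hz hprim
    have h1 : z ∈ R' := by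
      rw [hR']
      exact (le_sup_right : KZ K (r ^ 2) ≤ _) (subset_adjoin K _ hprim.pow_eq_one)
    have h2 : z ∈ X := by
      rw [← hXR, ← hEX]
      exact ⟨hz, h1⟩
    rw [hX] at h2
    exact zeta_notMem hMN hr irr2 hprim h2
  -- integral multiples
  have hc : ∀ w : ℝ, ∃ c : ℕ, c ≠ 0 ∧ (w ∈ W → IsIntegral ℤ ((c : ℝ) * w)) := by
    intro w
    by_cases hw : w ∈ W
    · obtain ⟨c, h1, h2⟩ := SF_mul (N := N) (hMN (hW w hw).1)
      exact ⟨c, h1, fun _ => h2⟩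
    · exact ⟨1, one_ne_zero, fun h => absurd h hw⟩
  choose c hc0 hcint using hc
  have hint : ∀ w ∈ W, IsIntegral ℤ (w * (c w : ℝ) ^ l) := by
    intro w hw
    have h1 : w * (c w : ℝ) ^ l = ((c w : ℝ) * w) * (c w : ℝ) ^ (l - 1) := by
      obtain ⟨l', rfl⟩ : ∃ l', l = l' + 1 := ⟨l - 1, by omega⟩
      rw [Nat.add_sub_cancel, pow_succ]
      ring
    rw [h1]
    exact (hcint w hw).mul ((IsInt.natCast (L := (⊤ : IntermediateField K ℝ)) (c w)).2.pow _)
  obtain ⟨W', hW'⟩ : ∃ W' : Finset ℂ, W' = W.image fun w => ((w * (c w : ℝ) ^ l : ℝ) : ℂ) := ⟨_, rfl⟩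
  have hW'c : W'.card ≤ W.card := by
    rw [hW']
    exact Finset.card_image_le
  have hW'p : ∀ w' ∈ W', w' ∈ fixL γ ∧ IsIntegral ℤ w' ∧ w' ≠ 0 ∧ ∀ y ∈ E, y ^ l ≠ w' := by
    intro w' hw'
    rw [hW', Finset.mem_image] at hw'
    obtain ⟨w, hw, rfl⟩ := hw'
    have hcc : ((c w : ℕ) : ℂ) ≠ 0 := by exact_mod_cast hc0 w
    have hcast : ((w * (c w : ℝ) ^ l : ℝ) : ℂ) = (w : ℂ) * (c w : ℂ) ^ l := by push_cast; rfl
    refine ⟨?_, ?_, ?_, fun y hy h => ?_⟩
    · rw [hcast]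
      exact mul_mem (hW w hw).1 (pow_mem (_root_.natCast_mem _ _) _)
    · exact (hint w hw).map (algebraMap ℝ ℂ).toIntAlgHom
    · rw [hcast]
      refine mul_ne_zero ?_ (pow_ne_zero _ hcc)
      exact_mod_cast (hW w hw).2.1.ne'
    · have h1 : (y / (c w : ℂ)) ^ l = (w : ℂ) := by
        rw [div_pow, h, hcast, mul_div_assoc, div_self (pow_ne_zero _ hcc), mul_one]
      have h2 : y / (c w : ℂ) ∈ X ⊔ KZ K l := by
        rw [← hEX]
        exact div_mem hy (_root_.natCast_mem _ _)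
      obtain ⟨z, hz, hz'⟩ := pow_of_cyc hl (hMX (hW w hw).1) (by exact_mod_cast (hW w hw).2.1.ne') h2 h1
      exact hL₁ w hw l hl (by
        have := Finset.le_sup (f := L₁) hw
        omega) z (hXR' hz) hz'
  have hsum : ∑ i ∈ (orderOf γ).primeFactors, (1 / (i : ℝ)) + 1 / r + (W'.card : ℝ) / l < 1 := by
    have h1 : (1 : ℝ) / r ≤ 1 / 7 := one_div_le_one_div_of_le (by norm_num) (by exact_mod_cast hr7)
    have hl' : (0 : ℝ) < l := by exact_mod_cast hl0
    have h2 : (W'.card : ℝ) / l ≤ 1 / 50 := by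
      rw [div_le_div_iff₀ hl' (by norm_num)]
      have h3 : (W'.card : ℝ) ≤ W.card := by exact_mod_cast hW'c
      have h4 : (50 * W.card : ℝ) ≤ l := by
        have : 50 * W.card ≤ l := by omega
        exact_mod_cast this
      linarith
    linarith
  obtain ⟨B', hB'⟩ : ∃ B' : Set (PrI K), B' = B ∪ ⋃ w ∈ W, {v : PrI K | ((c w : ℕ) : 𝓞 K) ∈ v.asIdeal} := ⟨_, rfl⟩
  have hB'f : B'.Finite := by
    rw [hB']
    exact hB.union (Set.Finite.biUnion W.finite_toSet fun w _ => SF_finite (hc0 w))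
  obtain ⟨P, hP1, hP2, hP3, hP4, hP5, hP6, hP7, hP8, hP9⟩ :=
    exists_PE hcomm γ hr hl hE hNi hζ hW'p hsum hB'f
  obtain ⟨j, hj1, hj2, hj3⟩ := exists_j hcomm γ hME hP3 hP7 hP8
  obtain ⟨P₀, hQ1, hQ2⟩ := SF_up (hMR.trans hME) P
  refine ⟨und K P, j, P₀, ?_, ?_, ?_, ?_, ?_, hj1, hj2, hj3, hQ1, fun w hw hcon => ?_⟩
  · intro h
    apply hP1
    rw [hB']
    exact Or.inl h
  · rw [hP3]
    exact hP2
  · rw [hP3]
    exact hP4
  · rw [hP3]
    exact hP5
  · rw [hP3]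
    exact hP6
  · -- the residue of `w`
    have hcP : ((c w : ℕ) : 𝓞 MR) ∉ P₀.asIdeal := by
      intro h
      apply hP1
      rw [hB']
      refine Or.inr ?_
      rw [Set.mem_iUnion₂]
      refine ⟨w, hw, ?_⟩
      change ((c w : ℕ) : 𝓞 K) ∈ (und K P).asIdeal
      rw [← hQ1, Pool.Agent.STd.mem_und, map_natCast]
      exact h
    have hpP : ((pn (und K P) : ℕ) : 𝓞 MR) ∈ P₀.asIdeal := by
      have h1 : ((pn (und K P) : ℕ) : 𝓞 K) ∈ (und K P).asIdeal := Ideal.absNorm_mem _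
      have h2 : ((pn (und K P) : ℕ) : 𝓞 K) ∈ (und K P₀).asIdeal := by
        rw [hQ1]
        exact h1
      rw [Pool.Agent.STd.mem_und, map_natCast] at h2
      exact h2
    have hprime : (pn (und K P)).Prime := by
      rw [hP3]
      exact hP2
    have hferm := SF_fermat hprime hpP hcP
    have hI1 : IsInt MR (w * (c w : ℝ) ^ l) :=
      ⟨mul_mem (hWMR w hw) (pow_mem (_root_.natCast_mem _ _) _), hint w hw⟩
    have hI2 : IsInt MR ((c w : ℝ)) := IsInt.natCast _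
    have hrd : rd P₀ ((c w : ℝ)) = ((c w : ℕ) : 𝓞 MR ⧸ P₀.asIdeal) := Pool.Agent.STc.rd_natCast _
    have hne : rd P₀ ((c w : ℝ) ^ l) ≠ 0 := by
      rw [Pool.Agent.STc.rd_pow hI2, hrd]
      have := P₀.isPrime
      refine pow_ne_zero _ fun h => hcP ?_
      rw [← map_natCast (Ideal.Quotient.mk P₀.asIdeal)] at h
      exact Ideal.Quotient.eq_zero_iff_mem.1 h
    have h1 := rl_div (P := P₀) hI1 (hI2.pow l) hne
    have hcc : ((c w : ℕ) : ℝ) ≠ 0 := by exact_mod_cast hc0 w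
    rw [mul_div_assoc, div_self (pow_ne_zero _ hcc), mul_one] at h1
    have h2 : (rd P₀ (w * (c w : ℝ) ^ l)) ^ ((pn (und K P) - 1) / l) = 1 := by
      rw [← h1, mul_pow, hcon, one_mul, Pool.Agent.STc.rd_pow hI2, hrd, ← pow_mul,
        Nat.mul_div_cancel' (by rw [hP3]; exact hP4)]
      exact hferm
    have hwW : ((w * (c w : ℝ) ^ l : ℝ) : ℂ) ∈ W' := by
      rw [hW']
      exact Finset.mem_image_of_mem _ hw
    have hI3 : IsIntegral ℤ (⟨((w * (c w : ℝ) ^ l : ℝ) : ℂ), hME (hW'p _ hwW).1⟩ : E) :=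
      (isIntegral_algebraMap_iff (R := ℤ) (A := E) (B := ℂ) (algebraMap E ℂ).injective).1
        (hW'p _ hwW).2.1
    have h3 := hQ2 _ hI1 ⟨_, hI3⟩ rfl _ h2
    rw [hP3] at h3
    exact hP9 _ hwW _ rfl h3

end Pool.Agent.STs
end

section

/-!
# TASK SG: selection of the prime, real form

PROOF. `N = R₁.map (jR K) ⊔ K⟮I⟯` (`I = Complex.I`), finite and Galois over `K`, abelian: an automorphism is determined by its action on `R₁` and on `I` (`± I`), and these actions commute. Restriction `Gal(N/K) → Gal(R₁/K)` is surjective; the complex conjugation `c` (`N` is stable under it: it is normal over `K`, `K ⊂ ℝ`)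
is trivial on `R₁` and `c I = - I`. So there is `γ ∈ Gal(N/K)` with `γ = σ` on `R₁` and `γ I = I` (if `s = 1`) or `γ I = - I` (if `s = 3`). `γ ^ (2 * orderOf σ) = 1`, so `orderOf γ ∣ 2 * p₀ ^ a₀` and its prime factors are in `{2, p₀}`: `∑ 1/i ≤ 1/2 + 1/3 = 5/6`.
`r₀ = max 7 (bound of exists_unram (nt_r/E3a) for N)`. `select_C` with `MR = fixL σ` (real; its image in `ℂ` is fixed by `γ`); `w ∈ fixL σ` by `act σ w = w` (`mem_fixL`). Add the primes containing `2` to `B`.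
Conclusions: for a prime `Q` of `R₁` over `v` take a prime `Q'` of `N` over it (`R₁ → N`): `γ^j` is a Frobenius at `Q'`, so `σ^j` at `Q` (`isFrob_und`). `pn v % 4 = s`: `γ^j I ≡ I ^ (pn v) mod Q'`, and `γ^j I = I` if `s = 1`, `= -I` if `s = 3` (`j` is odd, because `orderOf γ` is even if `γ I = - I`, and `j` is prime to it);
`I ^ p = I` for `p ≡ 1`, `-I` for `p ≡ 3 mod 4`, and `I ≢ -I mod Q'` (`2 ∉ Q'`). `j` prime to `orderOf γ`, which is divisible by `orderOf σ` (restriction). `j < orderOf γ ≤ 2 * orderOf σ`.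
-/

set_option autoImplicit false

open NumberField IsDedekindDomain nonZeroDivisors IntermediateField

namespace Pool.Agent.STs

open Pool.Agent.ST
open Pool.Agent.STd (jR fixL KZ mem_fixL fixL_le)

variable {K : Type*} [Field K] [NumberField K] [Algebra K ℝ] {R₁ : IntermediateField K ℝ}

/-- the field generated by the square roots of `-1` -/
noncomputable def SG_Z (K : Type*) [Field K] [Algebra K ℝ] : IntermediateField K ℂ :=
  IntermediateField.adjoin K {x : ℂ | x ^ 2 = algebraMap K ℂ (-1)}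

omit [NumberField K] in
lemma SG_I_mem : Complex.I ∈ SG_Z K := by
  refine subset_adjoin K _ ?_
  change Complex.I ^ 2 = algebraMap K ℂ (-1)
  rw [Complex.I_sq, map_neg, map_one]

/-- the field generated by `R₁` and the square roots of `-1` -/
noncomputable def SG_N (R₁ : IntermediateField K ℝ) : IntermediateField K ℂ := R₁.map (jR K) ⊔ SG_Z K

omit [NumberField K] in
lemma SG_j_mem (y : R₁) : ((y : ℝ) : ℂ) ∈ SG_N R₁ :=
  (le_sup_left : R₁.map (jR K) ≤ SG_N R₁) ⟨(y : ℝ), y.2, rfl⟩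

/-- the inclusion of `R₁` -/
noncomputable def SG_j (R₁ : IntermediateField K ℝ) : R₁ →ₐ[K] SG_N R₁ :=
  ((jR K).comp R₁.val).codRestrict (SG_N R₁).toSubalgebra SG_j_mem

/-- the number `I` -/
noncomputable def SG_I (R₁ : IntermediateField K ℝ) : SG_N R₁ :=
  ⟨Complex.I, (le_sup_right : SG_Z K ≤ SG_N R₁) SG_I_mem⟩

omit [NumberField K] in
lemma SG_I_sq : (SG_I R₁) * (SG_I R₁) = -1 := by
  apply Subtype.ext
  exact Complex.I_mul_I

omit [NumberField K] in
lemma SG_fd [FiniteDimensional K R₁] : FiniteDimensional K (SG_N R₁) := by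
  have h1 : FiniteDimensional K (R₁.map (jR K)) :=
    Module.Finite.equiv (IntermediateField.equivMap R₁ (jR K)).toLinearEquiv
  have h2 : FiniteDimensional K (SG_Z K) := (Pool.Agent.STd.adjoin_root_fd (-1 : K) two_pos).1
  exact IntermediateField.finiteDimensional_sup _ _

omit [NumberField K] in
lemma SG_gal [IsGalois K R₁] : IsGalois K (SG_N R₁) := by
  have := charZero_base K
  have h1 : IsGalois K (R₁.map (jR K)) := IsGalois.of_algEquiv (IntermediateField.equivMap R₁ (jR K))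
  have h2 : IsGalois K (SG_Z K) := (Pool.Agent.STd.adjoin_root_fd (-1 : K) two_pos).2
  have : Normal K (R₁.map (jR K) ⊔ SG_Z K : IntermediateField K ℂ) := inferInstance
  have h3 : IsGalois K (R₁.map (jR K) ⊔ SG_Z K : IntermediateField K ℂ) := ⟨⟩
  exact h3

omit [NumberField K] in
lemma SG_eq {δ ε : SG_N R₁ ≃ₐ[K] SG_N R₁} (h1 : ∀ y : R₁, δ (SG_j R₁ y) = ε (SG_j R₁ y))
    (h2 : δ (SG_I R₁) = ε (SG_I R₁)) : δ = ε := by
  have hfix : ∀ z : SG_N R₁, δ z = ε z → (ε⁻¹ * δ) z = z := by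
    intro z hz
    rw [AlgEquiv.mul_apply, hz]
    exact ε.symm_apply_apply z
  have key : SG_N R₁ ≤ fixL (ε⁻¹ * δ) := by
    refine sup_le ?_ ?_
    · rintro _ ⟨x, hx, rfl⟩
      exact (mem_fixL _ (SG_j_mem ⟨x, hx⟩)).2 (hfix _ (h1 ⟨x, hx⟩))
    · unfold SG_Z
      rw [adjoin_le_iff]
      intro x hx
      have h3 : x ^ 2 = Complex.I ^ 2 := by
        have h4 : x ^ 2 = algebraMap K ℂ (-1) := hx
        rw [h4, Complex.I_sq, map_neg, map_one]
      have hI : Complex.I ∈ fixL (ε⁻¹ * δ) := (mem_fixL _ (SG_I R₁).2).2 (hfix _ h2)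
      rcases sq_eq_sq_iff_eq_or_eq_neg.1 h3 with h4 | h4
      · rw [h4]; exact hI
      · rw [h4]; exact neg_mem hI
  ext z
  have h3 : (ε⁻¹ * δ) z = z := (mem_fixL _ z.2).1 (key z.2)
  have h4 : ε ((ε⁻¹ * δ) z) = δ z := by
    rw [AlgEquiv.mul_apply]
    exact ε.apply_symm_apply (δ z)
  rw [← h4, h3]

omit [NumberField K] in
lemma SG_sq (δ : SG_N R₁ ≃ₐ[K] SG_N R₁) : δ (SG_I R₁) = SG_I R₁ ∨ δ (SG_I R₁) = - SG_I R₁ := by
  apply mul_self_eq_mul_self_iff.1
  rw [← map_mul, SG_I_sq, map_neg, map_one]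

omit [NumberField K] in
lemma SG_comm [IsGalois K R₁] (hcomm : ∀ σ τ : R₁ ≃ₐ[K] R₁, σ * τ = τ * σ)
    (δ ε : SG_N R₁ ≃ₐ[K] SG_N R₁) : δ * ε = ε * δ := by
  let _ : Algebra R₁ (SG_N R₁) := (SG_j R₁ : R₁ →+* SG_N R₁).toAlgebra
  have : IsScalarTower K R₁ (SG_N R₁) := IsScalarTower.of_algebraMap_eq fun x => ((SG_j R₁).commutes x).symm
  have h1 : ∀ (ρ : SG_N R₁ ≃ₐ[K] SG_N R₁) (y : R₁), ρ (SG_j R₁ y) = SG_j R₁ (ρ.restrictNormal R₁ y) :=
    fun ρ y => (ρ.restrictNormal_commutes R₁ y).symm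
  apply SG_eq
  · intro y
    rw [AlgEquiv.mul_apply, AlgEquiv.mul_apply, h1, h1, h1, h1]
    exact congrArg (SG_j R₁) (DFunLike.congr_fun (hcomm (δ.restrictNormal R₁) (ε.restrictNormal R₁)) y)
  · rw [AlgEquiv.mul_apply, AlgEquiv.mul_apply]
    rcases SG_sq δ with h | h <;> rcases SG_sq ε with h' | h' <;>
      simp only [h, h', map_neg]

omit [NumberField K] in
lemma SG_lift [IsGalois K R₁] (σ : R₁ ≃ₐ[K] R₁) :
    ∃ γ : SG_N R₁ ≃ₐ[K] SG_N R₁, ∀ y, γ (SG_j R₁ y) = SG_j R₁ (σ y) := by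
  have hg := SG_gal (R₁ := R₁)
  let _ : Algebra R₁ (SG_N R₁) := (SG_j R₁ : R₁ →+* SG_N R₁).toAlgebra
  have : IsScalarTower K R₁ (SG_N R₁) := IsScalarTower.of_algebraMap_eq fun x => ((SG_j R₁).commutes x).symm
  obtain ⟨γ, hγ⟩ := AlgEquiv.restrictNormalHom_surjective (F := K) (K₁ := R₁) (SG_N R₁) σ
  refine ⟨γ, fun y => ?_⟩
  have h1 := γ.restrictNormal_commutes R₁ y
  have h2 : γ.restrictNormal R₁ = σ := hγ
  rw [h2] at h1
  exact h1.symm

omit [NumberField K] in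
lemma SG_conj [IsGalois K R₁] :
    ∃ c : SG_N R₁ ≃ₐ[K] SG_N R₁, (∀ y, c (SG_j R₁ y) = SG_j R₁ y) ∧ c (SG_I R₁) = - SG_I R₁ := by
  have hg := SG_gal (R₁ := R₁)
  let c₀ : ℂ ≃ₐ[K] ℂ := (Complex.conjAe : ℂ ≃ₐ[ℝ] ℂ).restrictScalars K
  have hc : ∀ x : SG_N R₁, ((c₀.restrictNormal (SG_N R₁) x : SG_N R₁) : ℂ) = (starRingEnd ℂ) (x : ℂ) :=
    fun x => c₀.restrictNormal_commutes (SG_N R₁) x
  refine ⟨c₀.restrictNormal (SG_N R₁), fun y => ?_, ?_⟩
  · apply Subtype.ext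
    rw [hc]
    exact Complex.conj_ofReal _
  · apply Subtype.ext
    rw [hc]
    exact Complex.conj_I

omit [NumberField K] in
lemma SG_gamma [IsGalois K R₁] (σ : R₁ ≃ₐ[K] R₁) (b : Bool) :
    ∃ γ : SG_N R₁ ≃ₐ[K] SG_N R₁, (∀ y, γ (SG_j R₁ y) = SG_j R₁ (σ y)) ∧
      (b = true → γ (SG_I R₁) = SG_I R₁) ∧ (b = false → γ (SG_I R₁) = - SG_I R₁) := by
  obtain ⟨γ, hγ⟩ := SG_lift σ
  obtain ⟨c, hc, hcI⟩ := SG_conj (R₁ := R₁)
  have h1 : ∀ y, (γ * c) (SG_j R₁ y) = SG_j R₁ (σ y) := by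
    intro y
    rw [AlgEquiv.mul_apply, hc, hγ]
  have h2 : (γ * c) (SG_I R₁) = - γ (SG_I R₁) := by
    rw [AlgEquiv.mul_apply, hcI, map_neg]
  rcases SG_sq γ with h | h
  · cases b
    · refine ⟨γ * c, h1, fun h' => (Bool.false_ne_true h').elim, fun _ => ?_⟩
      rw [h2, h]
    · exact ⟨γ, hγ, fun _ => h, fun h' => (Bool.false_ne_true h'.symm).elim⟩
  · cases b
    · exact ⟨γ, hγ, fun h' => (Bool.false_ne_true h').elim, fun _ => h⟩
    · refine ⟨γ * c, h1, fun _ => ?_, fun h' => (Bool.false_ne_true h'.symm).elim⟩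
      rw [h2, h, neg_neg]

omit [NumberField K] in
lemma SG_pow {γ : SG_N R₁ ≃ₐ[K] SG_N R₁} {σ : R₁ ≃ₐ[K] R₁} (h : ∀ y, γ (SG_j R₁ y) = SG_j R₁ (σ y)) (k : ℕ)
    (y : R₁) : (γ ^ k) (SG_j R₁ y) = SG_j R₁ ((σ ^ k) y) := by
  induction k generalizing y with
  | zero => rfl
  | succ k ih => rw [pow_succ, pow_succ, AlgEquiv.mul_apply, AlgEquiv.mul_apply, h, ih]

omit [NumberField K] in
lemma SG_powI {γ : SG_N R₁ ≃ₐ[K] SG_N R₁} (h : γ (SG_I R₁) = SG_I R₁) (k : ℕ) :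
    (γ ^ k) (SG_I R₁) = SG_I R₁ := by
  induction k with
  | zero => rfl
  | succ k ih => rw [pow_succ, AlgEquiv.mul_apply, h, ih]

omit [NumberField K] in
lemma SG_powI2 (γ : SG_N R₁ ≃ₐ[K] SG_N R₁) : (γ ^ 2) (SG_I R₁) = SG_I R₁ := by
  rw [pow_two, AlgEquiv.mul_apply]
  rcases SG_sq γ with h | h
  · rw [h, h]
  · rw [h, map_neg, h, neg_neg]

omit [NumberField K] in
lemma SG_powodd {γ : SG_N R₁ ≃ₐ[K] SG_N R₁} (h : γ (SG_I R₁) = - SG_I R₁) {k : ℕ} (hk : Odd k) :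
    (γ ^ k) (SG_I R₁) = - SG_I R₁ := by
  obtain ⟨m, rfl⟩ := hk
  rw [pow_succ, AlgEquiv.mul_apply, h, map_neg, pow_mul, SG_powI (SG_powI2 γ)]

omit [NumberField K] in
lemma SG_I_ne : SG_I R₁ ≠ - SG_I R₁ := by
  intro h
  have h1 : Complex.I = - Complex.I := congrArg Subtype.val h
  have h2 := congrArg Complex.im h1
  rw [Complex.neg_im, Complex.I_im] at h2
  norm_num at h2

omit [NumberField K] in
lemma SG_order {γ : SG_N R₁ ≃ₐ[K] SG_N R₁} {σ : R₁ ≃ₐ[K] R₁} (h : ∀ y, γ (SG_j R₁ y) = SG_j R₁ (σ y)) :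
    orderOf γ ∣ 2 * orderOf σ := by
  apply orderOf_dvd_of_pow_eq_one
  apply SG_eq
  · intro y
    rw [SG_pow h, mul_comm, pow_mul, pow_orderOf_eq_one, one_pow]
    rfl
  · rw [pow_mul, SG_powI (SG_powI2 γ)]
    rfl

omit [NumberField K] in
lemma SG_order' {γ : SG_N R₁ ≃ₐ[K] SG_N R₁} {σ : R₁ ≃ₐ[K] R₁} (h : ∀ y, γ (SG_j R₁ y) = SG_j R₁ (σ y)) :
    orderOf σ ∣ orderOf γ := by
  apply orderOf_dvd_of_pow_eq_one
  ext y
  have h1 := SG_pow h (orderOf γ) y
  rw [pow_orderOf_eq_one] at h1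
  have h2 : SG_j R₁ y = SG_j R₁ ((σ ^ orderOf γ) y) := h1
  have h3 := (SG_j R₁ : R₁ →+* SG_N R₁).injective h2
  rw [← h3]
  rfl

lemma SG_sum {m p₀ a₀ : ℕ} (hp₀ : p₀.Prime) (h : m ∣ 2 * p₀ ^ a₀) :
    ∑ i ∈ m.primeFactors, (1 / (i : ℝ)) ≤ 5 / 6 := by
  have hsub : m.primeFactors ⊆ {2, p₀} := by
    intro i hi
    have hip := Nat.prime_of_mem_primeFactors hi
    have hd := (Nat.dvd_of_mem_primeFactors hi).trans h
    rw [Finset.mem_insert, Finset.mem_singleton]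
    rcases (Nat.Prime.dvd_mul hip).1 hd with h1 | h1
    · left
      exact (Nat.prime_dvd_prime_iff_eq hip Nat.prime_two).1 h1
    · right
      exact (Nat.prime_dvd_prime_iff_eq hip hp₀).1 (hip.dvd_of_dvd_pow h1)
  refine (Finset.sum_le_sum_of_subset_of_nonneg hsub fun i _ _ => by positivity).trans ?_
  by_cases h2 : (2 : ℕ) = p₀
  · rw [← h2]
    simp only [Finset.pair_eq_singleton, Finset.sum_singleton]
    norm_num
  · rw [Finset.sum_pair h2]
    have h3 : 3 ≤ p₀ := by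
      have := hp₀.two_le
      omega
    have h4 : (3 : ℝ) ≤ p₀ := by exact_mod_cast h3
    have h5 : 1 / (p₀ : ℝ) ≤ 1 / 3 := one_div_le_one_div_of_le (by norm_num) h4
    push_cast
    linarith

theorem select (hR₁ : AbR R₁) (σ : R₁ ≃ₐ[K] R₁) {p₀ a₀ : ℕ} (hp₀ : p₀.Prime) (hσ : orderOf σ = p₀ ^ a₀) {s : ℕ}
    (hs : s = 1 ∨ s = 3) :
    ∃ r₀ : ℕ, ∀ r : ℕ, r.Prime → r₀ < r → ∀ W : Finset ℝ, (∀ w ∈ W, w ∈ R₁ ∧ act σ w = w ∧ 0 < w ∧ w ≠ 1) →
      ∃ l₀ : ℕ, ∀ l : ℕ, l.Prime → l₀ < l → ∀ B : Set (PrI K), B.Finite →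
      ∃ (v : PrI K) (j : ℕ) (P₀ : PrI (fixL σ)), v ∉ B ∧ (pn v).Prime ∧ pn v % 4 = s ∧ l ∣ pn v - 1 ∧ r ∣ pn v - 1 ∧
        ¬ r ^ 2 ∣ pn v - 1 ∧ j < 2 * orderOf σ ∧ j.Coprime (orderOf σ) ∧ (s = 3 → Odd j) ∧
        (∀ Q : PrI R₁, und K Q = v → IsFrob K Q (σ ^ j)) ∧ und K P₀ = v ∧
        ∀ w ∈ W, rl P₀ w ^ ((pn v - 1) / l) ≠ 1 := by
  classical
  have hfd := hR₁.fd
  have hgal := hR₁.gal
  have hNfd := SG_fd (R₁ := R₁)
  have hNgal := SG_gal (R₁ := R₁)
  have hNnf : NumberField (SG_N R₁) := NumberField.of_module_finite K _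
  have hRnf := numberField_of_fd R₁
  obtain ⟨γ, hγσ, hγ1, hγ3⟩ := SG_gamma σ (decide (s = 1))
  have hγ1' : s = 1 → γ (SG_I R₁) = SG_I R₁ := fun h => hγ1 (decide_eq_true h)
  have hγ3' : s = 3 → γ (SG_I R₁) = - SG_I R₁ := fun h => hγ3 (decide_eq_false (by omega))
  have hod := SG_order hγσ
  have hod' := SG_order' hγσ
  have hσ0 : 0 < orderOf σ := by rw [hσ]; exact pow_pos hp₀.pos a₀
  have hsum : ∑ i ∈ (orderOf γ).primeFactors, (1 / (i : ℝ)) ≤ 5 / 6 := by
    rw [hσ] at hod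
    exact SG_sum hp₀ hod
  obtain ⟨N₀, hN₀⟩ := Pool.Agent.STr.exists_unram (SG_N R₁)
  refine ⟨max 7 N₀, fun r hr hrr W hW => ?_⟩
  have hr7 : 7 ≤ r := by
    have := le_max_left 7 N₀
    omega
  have hrN : N₀ < r := lt_of_le_of_lt (le_max_right _ _) hrr
  have hfix : ∀ (x : ℝ) (hx : x ∈ R₁), σ ⟨x, hx⟩ = ⟨x, hx⟩ → (x : ℂ) ∈ fixL γ := by
    intro x hx h5
    refine (mem_fixL γ (SG_j_mem ⟨x, hx⟩)).2 ?_
    have h6 := hγσ ⟨x, hx⟩
    rw [h5] at h6
    exact h6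
  have hWσ : ∀ w ∈ W, ∀ hw : w ∈ R₁, σ ⟨w, hw⟩ = ⟨w, hw⟩ := by
    intro w hw hwR
    apply Subtype.ext
    rw [← act_of_mem σ hwR]
    exact (hW w hw).2.1
  have hW' : ∀ w ∈ W, (w : ℂ) ∈ fixL γ ∧ 0 < w ∧ w ≠ 1 := by
    intro w hw
    obtain ⟨h1, h2, h3, h4⟩ := hW w hw
    exact ⟨hfix w h1 (hWσ w hw h1), h3, h4⟩
  obtain ⟨l₀, hl₀⟩ := select_C (SG_comm hR₁.comm) γ hsum hr hr7 (hN₀ r hr hrN) W hW'
  refine ⟨l₀, fun l hl hll B hB => ?_⟩
  have hMRfd : FiniteDimensional K (fixL σ) := Pool.Agent.STb.fd_of_le (fixL_le σ)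
  have hMR : (fixL σ).map (jR K) ≤ fixL γ := by
    rintro _ ⟨x, hx, rfl⟩
    have hxR : x ∈ R₁ := fixL_le σ hx
    exact hfix x hxR ((mem_fixL σ hxR).1 hx)
  obtain ⟨v, j, P₀, hvB, hpv, hlv, hrv, hr2v, hj, hjc, hfrob, hP₀, hrl⟩ :=
    hl₀ l hl hll (B ∪ {q | (2 : 𝓞 K) ∈ q.asIdeal}) (hB.union (Pool.Agent.STd.finite_two K)) (fixL σ) hMRfd hMR
      (fun w hw => (mem_fixL σ (hW w hw).1).2 (hWσ w hw (hW w hw).1))
  rw [Set.mem_union, not_or] at hvB
  obtain ⟨hvB, hv2⟩ := hvB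
  have hv2 : (2 : 𝓞 K) ∉ v.asIdeal := hv2
  have hpv2 : pn v ≠ 2 := by
    intro h2
    apply hv2
    have h3 : ((pn v : ℕ) : 𝓞 K) ∈ v.asIdeal := Ideal.absNorm_mem v.asIdeal
    rw [h2] at h3
    exact_mod_cast h3
  -- the parity of `j`
  have hodd : s = 3 → Odd j := by
    intro h3
    have hI := hγ3' h3
    have h4 : 2 ∣ orderOf γ := by
      by_contra hnd
      have h5 : Odd (orderOf γ) := Nat.not_even_iff_odd.1 fun he => hnd he.two_dvd
      have h6 := SG_powodd hI h5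
      rw [pow_orderOf_eq_one] at h6
      exact SG_I_ne h6
    have h5 : j.Coprime 2 := hjc.coprime_dvd_right h4
    exact (Nat.coprime_two_right).1 h5
  refine ⟨v, j, P₀, hvB, hpv, ?_, hlv, hrv, hr2v, lt_of_lt_of_le hj (Nat.le_of_dvd (by omega) hod),
    hjc.coprime_dvd_right hod', hodd, ?_, hP₀, hrl⟩
  · -- the residue modulo 4
    obtain ⟨Q', hQ'⟩ := exists_ovr (L := SG_N R₁) v
    have hint : IsIntegral ℤ (SG_I R₁) := by
      refine IsIntegral.of_pow (n := 4) (by norm_num) ?_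
      have h1 : SG_I R₁ ^ 4 = 1 := by
        have h2 : SG_I R₁ ^ 4 = (SG_I R₁ * SG_I R₁) * (SG_I R₁ * SG_I R₁) := by ring
        rw [h2, SG_I_sq]
        ring
      rw [h1]
      exact isIntegral_one
    obtain ⟨Io, hIo⟩ : ∃ x : 𝓞 (SG_N R₁), algebraMap (𝓞 (SG_N R₁)) (SG_N R₁) x = SG_I R₁ := ⟨⟨SG_I R₁, hint⟩, rfl⟩
    have hIo2 : Io * Io = -1 := by
      apply RingOfIntegers.coe_injective
      rw [map_mul, hIo, SG_I_sq, map_neg, map_one]
    have hF := hfrob Q' hQ' Io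
    rw [hQ'] at hF
    have h2Q : (2 : 𝓞 (SG_N R₁)) ∉ Q'.asIdeal := by
      intro h2
      apply hv2
      rw [← hQ']
      change algebraMap (𝓞 K) (𝓞 (SG_N R₁)) 2 ∈ Q'.asIdeal
      rw [map_ofNat]
      exact h2
    have h2I : (2 : 𝓞 (SG_N R₁)) * Io ∉ Q'.asIdeal := by
      intro h2
      apply h2Q
      have h3 : (2 : 𝓞 (SG_N R₁)) = - Io * (2 * Io) := by
        have h4 : - Io * (2 * Io) = -2 * (Io * Io) := by ring
        rw [h4, hIo2]
        ring
      rw [h3]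
      exact Ideal.mul_mem_left _ _ h2
    have hodd1 : pn v % 2 = 1 := by
      rcases hpv.eq_two_or_odd with h | h
      · exact absurd h hpv2
      · exact h
    have hI1 : pn v % 4 = 1 → Io ^ pn v = Io := by
      intro h1
      have h2 : pn v = 4 * (pn v / 4) + 1 := by omega
      have h4 : Io ^ 4 = 1 := by
        have h5 : Io ^ 4 = (Io * Io) * (Io * Io) := by ring
        rw [h5, hIo2]
        ring
      rw [h2, pow_succ, pow_mul, h4, one_pow, one_mul]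
    have hI3 : pn v % 4 = 3 → Io ^ pn v = - Io := by
      intro h1
      have h2 : pn v = 4 * (pn v / 4) + 3 := by omega
      have h4 : Io ^ 4 = 1 := by
        have h5 : Io ^ 4 = (Io * Io) * (Io * Io) := by ring
        rw [h5, hIo2]
        ring
      have h6 : Io ^ 3 = - Io := by
        have h5 : Io ^ 3 = (Io * Io) * Io := by ring
        rw [h5, hIo2]
        ring
      rw [h2, pow_add, pow_mul, h4, one_pow, one_mul, h6]
    rcases hs with h1 | h3
    · have h4 : (γ ^ j) • Io = Io := by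
        apply RingOfIntegers.coe_injective
        rw [coe_smul', hIo, SG_powI (hγ1' h1)]
      rw [h4] at hF
      by_contra hne
      have h5 : pn v % 4 = 3 := by omega
      rw [hI3 h5] at hF
      apply h2I
      have h6 : (2 : 𝓞 (SG_N R₁)) * Io = Io - - Io := by ring
      rw [h6]
      exact hF
    · have h4 : (γ ^ j) • Io = - Io := by
        apply RingOfIntegers.coe_injective
        rw [coe_smul', hIo, SG_powodd (hγ3' h3) (hodd h3), map_neg, hIo]
      rw [h4] at hF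
      by_contra hne
      have h5 : pn v % 4 = 1 := by omega
      rw [hI1 h5] at hF
      apply h2I
      have h6 : (2 : 𝓞 (SG_N R₁)) * Io = -(- Io - Io) := by ring
      rw [h6]
      exact neg_mem hF
  · -- Frobenius elements
    intro Q hQ
    let _ : Algebra R₁ (SG_N R₁) := (SG_j R₁ : R₁ →+* SG_N R₁).toAlgebra
    have : IsScalarTower K R₁ (SG_N R₁) :=
      IsScalarTower.of_algebraMap_eq fun x => ((SG_j R₁).commutes x).symm
    obtain ⟨Q', hQ'⟩ := exists_ovr (K := R₁) (L := SG_N R₁) Q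
    have h1 : und K Q' = v := by
      rw [← hQ, ← hQ', und_und]
    have h2 := isFrob_und (K := K) (E₁ := R₁) (E₂ := SG_N R₁) (P := Q') (σ₂ := γ ^ j) (σ₁ := σ ^ j)
      (fun x => (SG_pow hγσ j x).symm) (hfrob Q' h1)
    rw [hQ'] at h2
    exact h2

end Pool.Agent.STs
end
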