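import Pool.Agent.Lib.MP_1ef7cf_nt_s.Dw
import Pool.Agent.Lib.MP_1ef7cf_nt_r.Mg.G009
import Pool.Agent.Lib.MP_1ef7cf_nt_s.Mg.G001
import Pool.Agent.Lib.MP_1ef7cf_nt_r.Mg.G008

section

/-!
# TASK TA4: norm type characters modulo `p = v v'` on the kernel at `v`

PROOF: adapt `NT.order_tame` (nt_r/N5). Let `c₀` be a unit modulo `p`. The residue field of `v'` has `p` elements, so `a + k ∈ v'` for an integer `k`,
and `(a + k)(a - k) = d - k^2 ∈ v' ∩ ℤ = (p)`. Choose integers `u, w` with `u + w k ≡ c₀`, `u - w k ≡ 1 mod p` (`2 k` is invertible modulo `p`).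
`β = u + w a` has `β ≡ 1 mod v'`, and the norm `u^2 - d w^2 ≡ (u + w k)(u - w k) ≡ c₀ mod p`. Choose `z ≡ β mod p`, `z ≡ 1 mod M`, `σ₂ z > 0`. The class `g`
of `(z)` modulo `M'`: `pr g = 1` since `z ≡ 1 mod M * v'`; `ω g = ω₀ (± c₀) = ω₀ c₀` (`NT`).
-/

set_option autoImplicit false

open NumberField IsDedekindDomain nonZeroDivisors IntermediateField

namespace Pool.Agent.STs

open Pool.Agent.ST
open Pool.Agent.STr (NT)
open Pool.Agent.STh.F (FD Lf se)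

variable {K : Type*} [Field K] [NumberField K] [Algebra K ℝ] {σ₂ : K →+* ℝ} {M M' : Ideal (𝓞 K)} {d : ℕ} {a : 𝓞 K}

omit [Algebra K ℝ] in
private lemma TA4_int {p : ℕ} (hp : p.Prime) {v : PrI K} (hpv : pn v = p) (x : 𝓞 K) :
    ∃ k : ℕ, x - (k : 𝓞 K) ∈ v.asIdeal := by
  have hcard : Nat.card (𝓞 K ⧸ v.asIdeal) = p := by
    rw [← hpv]
    rfl
  have hfin : Finite (𝓞 K ⧸ v.asIdeal) := Nat.finite_of_card_ne_zero (by rw [hcard]; exact hp.ne_zero)
  have := Fintype.ofFinite (𝓞 K ⧸ v.asIdeal)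
  have hc : Fintype.card (𝓞 K ⧸ v.asIdeal) = p := by rw [← Nat.card_eq_fintype_card, hcard]
  have : Fact p.Prime := ⟨hp⟩
  let e : ZMod p ≃+* (𝓞 K ⧸ v.asIdeal) := ZMod.ringEquivOfPrime _ hp hc
  obtain ⟨c, hc'⟩ := e.surjective (Ideal.Quotient.mk _ x)
  refine ⟨c.val, ?_⟩
  rw [← Ideal.Quotient.eq, map_natCast, ← hc']
  conv_lhs => rw [← ZMod.natCast_zmod_val c]
  rw [map_natCast]

omit [Algebra K ℝ] [NumberField K] in
private lemma TA4_mem {p : ℕ} (hp : p.Prime) {v : PrI K} (hpv : (p : 𝓞 K) ∈ v.asIdeal) (n : ℤ)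
    (hn : (n : 𝓞 K) ∈ v.asIdeal) : (p : ℤ) ∣ n := by
  by_contra h
  have hcop : IsCoprime (p : ℤ) n := by
    rw [Int.isCoprime_iff_gcd_eq_one]
    exact (Int.isCoprime_iff_gcd_eq_one).1
      ((Prime.coprime_iff_not_dvd (Nat.prime_iff_prime_int.1 hp)).2 h)
  obtain ⟨s, t, hst⟩ := hcop
  apply v.isPrime.ne_top
  rw [Ideal.eq_top_iff_one]
  have h7 := congrArg (Int.cast : ℤ → 𝓞 K) hst
  push_cast at h7
  rw [← h7]
  exact Ideal.add_mem _ (Ideal.mul_mem_left _ _ hpv) (Ideal.mul_mem_left _ _ hn)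

theorem NT_tame_v (D : FD σ₂ d a) {p : ℕ} (hp : p.Prime) (hpd : ¬ p ∣ 2 * d) {v v' : PrI K} (hne : v' ≠ v)
    (hvv : v.asIdeal * v'.asIdeal = Ideal.span {(p : 𝓞 K)}) (hpv : pn v = p) (hpv' : pn v' = p) (hM : M ≠ ⊥)
    (hpM : IsCoprime (Ideal.span {(p : 𝓞 K)}) M) (hM' : M' = M * v'.asIdeal * v.asIdeal)
    [Finite (RayClassGroup σ₂ M')] {ω₀ : (ZMod p)ˣ →* ℂˣ} (h1 : ω₀ (-1) = 1) {ω : RayClassGroup σ₂ M' →* ℂˣ}
    (h : NT p ω₀ ω) (hle : M' ≤ M * v'.asIdeal) (j : ℕ) (hj : ∀ g, pr σ₂ hle g = 1 → ω g ^ j = 1) : ω₀ ^ j = 1 := by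
  classical
  have : Fact p.Prime := ⟨hp⟩
  refine MonoidHom.ext fun c₀ => ?_
  rw [MonoidHom.pow_apply, MonoidHom.one_apply]
  have hpin : (p : 𝓞 K) ∈ v'.asIdeal := by
    have h2 : Ideal.span {(p : 𝓞 K)} ≤ v'.asIdeal := by
      rw [← hvv]
      exact Ideal.mul_le_right
    exact h2 (Ideal.mem_span_singleton_self _)
  -- the integer `k`
  obtain ⟨k, hk⟩ := TA4_int hp hpv' (-a)
  have ha2 : a * a = (d : 𝓞 K) := by
    rw [← pow_two, D.sq]
  have hkd : ((k : ℕ) : ZMod p) ^ 2 = ((d : ℕ) : ZMod p) := by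
    have h2 : (((k : ℤ) ^ 2 - d : ℤ) : 𝓞 K) ∈ v'.asIdeal := by
      have h3 : (((k : ℤ) ^ 2 - d : ℤ) : 𝓞 K) = (-a - (k : 𝓞 K)) * (a - (k : 𝓞 K)) := by
        push_cast
        linear_combination ha2
      rw [h3]
      exact Ideal.mul_mem_right _ _ hk
    have h3 := TA4_mem hp hpin _ h2
    have h4 := (ZMod.intCast_zmod_eq_zero_iff_dvd _ p).2 h3
    push_cast at h4
    exact sub_eq_zero.1 h4
  have hp2 : p ≠ 2 := by
    rintro rfl
    exact hpd (dvd_mul_right _ _)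
  have hd0 : ((d : ℕ) : ZMod p) ≠ 0 := by
    intro h0
    rw [ZMod.natCast_eq_zero_iff] at h0
    exact hpd (h0.mul_left 2)
  have hk0 : ((k : ℕ) : ZMod p) ≠ 0 := by
    intro h0
    rw [h0] at hkd
    exact hd0 (by rw [← hkd]; ring)
  have h20 : (2 : ZMod p) ≠ 0 := by
    intro h0
    have h5 : ((2 : ℕ) : ZMod p) = 0 := by exact_mod_cast h0
    rw [ZMod.natCast_eq_zero_iff] at h5
    exact hp2 ((Nat.prime_dvd_prime_iff_eq hp Nat.prime_two).1 h5)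
  obtain ⟨x, hx⟩ : ∃ x : ℕ, ((x : ℕ) : ZMod p) = (1 + (c₀ : ZMod p)) / 2 :=
    ⟨((1 + (c₀ : ZMod p)) / 2).val, ZMod.natCast_zmod_val _⟩
  obtain ⟨y, hy⟩ : ∃ y : ℕ, ((y : ℕ) : ZMod p) = ((c₀ : ZMod p) - 1) / (2 * k) :=
    ⟨(((c₀ : ZMod p) - 1) / (2 * k)).val, ZMod.natCast_zmod_val _⟩
  have hxy : (((x : ℤ) ^ 2 - d * (y : ℤ) ^ 2 : ℤ) : ZMod p) = c₀ := by
    push_cast
    rw [← hkd, hx, hy]
    field_simp
    ring
  have hp0 : (p : 𝓞 K) ≠ 0 := by exact_mod_cast hp.ne_zero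
  have hsp : Ideal.span {(p : 𝓞 K)} ≠ ⊥ := by
    rw [Ne, Ideal.span_singleton_eq_bot]; exact hp0
  have hMp : M' = M * Ideal.span {(p : 𝓞 K)} := by
    rw [hM', ← hvv, mul_assoc, mul_comm v'.asIdeal]
  have hM'0 : M' ≠ ⊥ := by
    rw [hMp]
    rw [← Ideal.zero_eq_bot] at hM hsp ⊢
    exact mul_ne_zero hM hsp
  have hleM : M' ≤ M := by rw [hMp]; exact Ideal.mul_le_left
  have hlep : M' ≤ Ideal.span {(p : 𝓞 K)} := by rw [hMp]; exact Ideal.mul_le_right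
  obtain ⟨u, hu, w, hw, huv⟩ := Ideal.isCoprime_iff_exists.1 hpM
  set β : 𝓞 K := (x : 𝓞 K) + (y : 𝓞 K) * a with hβ
  have hβ1 : β - 1 ∈ v'.asIdeal := by
    have h6 : (((x : ℤ) - y * k - 1 : ℤ) : ZMod p) = 0 := by
      push_cast
      rw [hx, hy]
      field_simp
      ring
    have h7 := (ZMod.intCast_zmod_eq_zero_iff_dvd _ p).1 h6
    obtain ⟨c, hc⟩ := h7
    have h8 := congrArg (Int.cast : ℤ → 𝓞 K) hc
    push_cast at h8
    have e : β - 1 = (p : 𝓞 K) * (c : 𝓞 K) - (y : 𝓞 K) * (-a - (k : 𝓞 K)) := by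
      rw [hβ]
      linear_combination h8
    rw [e]
    exact Ideal.sub_mem _ (Ideal.mul_mem_right _ _ hpin) (Ideal.mul_mem_left _ _ hk)
  obtain ⟨z, hz, hzpos⟩ := exists_pos σ₂ hM'0 (u + w * β)
  have hz0 : z ≠ 0 := ne_zero_of_pos hzpos
  have hzM : z - 1 ∈ M := by
    have e : z - 1 = (z - (u + w * β)) + w * (β - 1) := by linear_combination huv
    rw [e]
    exact M.add_mem (hleM hz) (M.mul_mem_right _ hw)
  have hzp : z - β ∈ Ideal.span {(p : 𝓞 K)} := by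
    have e : z - β = (z - (u + w * β)) + u * (1 - β) := by linear_combination β * huv
    rw [e]
    exact Ideal.add_mem _ (hlep hz) (Ideal.mul_mem_right _ _ hu)
  have hspv : Ideal.span {(p : 𝓞 K)} ≤ v'.asIdeal := by rw [← hvv]; exact Ideal.mul_le_right
  have hzv : z - 1 ∈ v'.asIdeal := by
    have e : z - 1 = (z - β) + (β - 1) := by ring
    rw [e]
    exact Ideal.add_mem _ (hspv hzp) hβ1
  have hcopMv : IsCoprime M v'.asIdeal := by
    rw [Ideal.isCoprime_iff_exists]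
    exact ⟨w, hw, u, hspv hu, by rw [add_comm]; exact huv⟩
  have hzMv : z - 1 ∈ M * v'.asIdeal := by
    rw [Ideal.mul_eq_inf_of_isCoprime hcopMv]
    exact ⟨hzM, hzv⟩
  have hnorm := Pool.Agent.STr.norm_congr D.deg hzp
  have hnβ : Algebra.norm ℤ β = (x : ℤ) ^ 2 - d * (y : ℤ) ^ 2 := by
    have e := Pool.Agent.STh.F.norm_real D β
    have e1 : ((β : 𝓞 K) : K) = (x : K) + (y : K) * (a : K) := by
      rw [hβ]; push_cast; rfl
    have e2 : algebraMap K ℝ ((β : 𝓞 K) : K) = (x : ℝ) + (y : ℝ) * Real.sqrt d := by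
      rw [e1, map_add, map_mul, map_natCast, map_natCast, D.alg]
    have e3 : σ₂ ((β : 𝓞 K) : K) = (x : ℝ) + (y : ℝ) * (-Real.sqrt d) := by
      rw [e1, map_add, map_mul, map_natCast, map_natCast, D.sig]
    have h2 : Real.sqrt d * Real.sqrt d = (d : ℝ) := Real.mul_self_sqrt (Nat.cast_nonneg d)
    rw [e2, e3] at e
    apply Int.cast_injective (α := ℝ)
    rw [e]
    push_cast
    linear_combination -((y : ℝ) ^ 2) * h2
  have hnz : ((Algebra.norm ℤ z : ℤ) : ZMod p) = (c₀ : ZMod p) := by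
    rw [hnβ] at hnorm
    rw [← hxy]
    have h3 := (ZMod.intCast_zmod_eq_zero_iff_dvd _ p).2 hnorm
    rw [Int.cast_sub, sub_eq_zero] at h3
    exact h3
  have hab : Ideal.absNorm (Ideal.span {z}) = (Algebra.norm ℤ z).natAbs := Ideal.absNorm_span_singleton z
  have hcast : ((Ideal.absNorm (Ideal.span {z}) : ℕ) : ZMod p) = (c₀ : ZMod p) ∨
      ((Ideal.absNorm (Ideal.span {z}) : ℕ) : ZMod p) = -(c₀ : ZMod p) := by
    rw [hab]
    rcases Int.natAbs_eq (Algebra.norm ℤ z) with h4 | h4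
    · left
      rw [← hnz]
      conv_rhs => rw [h4]
      rw [Int.cast_natCast]
    · right
      rw [← hnz]
      conv_rhs => rw [h4]
      rw [Int.cast_neg, Int.cast_natCast, neg_neg]
  have hcop : (Ideal.absNorm (Ideal.span {z})).Coprime p := by
    rw [Nat.coprime_comm, hp.coprime_iff_not_dvd]
    intro h5
    rw [← ZMod.natCast_eq_zero_iff] at h5
    rcases hcast with h6 | h6
    · rw [h5] at h6
      exact c₀.ne_zero h6.symm
    · rw [h5] at h6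
      exact c₀.ne_zero (neg_eq_zero.1 h6.symm)
  have hcopI : IsCoprime (Ideal.span {z}) M' := by
    rw [hMp]
    apply IsCoprime.mul_right (coprime_span_of_sub_one_mem hzM)
    rw [Ideal.isCoprime_iff_exists]
    obtain ⟨s, t, hst⟩ := Nat.isCoprime_iff_coprime.2 hcop
    refine ⟨(s : 𝓞 K) * (Ideal.absNorm (Ideal.span {z}) : 𝓞 K), Ideal.mul_mem_left _ _ (Ideal.absNorm_mem _),
      (t : 𝓞 K) * (p : 𝓞 K), Ideal.mul_mem_left _ _ (Ideal.mem_span_singleton_self _), ?_⟩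
    have h7 := congrArg (Int.cast : ℤ → 𝓞 K) hst
    push_cast at h7
    exact h7
  have hzK : (z : K) ≠ 0 := coe_ne_zero' hz0
  set J : primeTo (K := K) M' :=
    ⟨uP (z : K) hzK, coe_mem_primeTo (I := Ideal.span {z}) (by rw [coe_uP, coe_span_singleton]) hcopI⟩ with hJ
  have hJ1 : ((J : (FI K)ˣ) : FI K) = ((Ideal.span {z} : Ideal (𝓞 K)) : FI K) := by
    exact (coe_span_singleton z).symm
  have hg : pr σ₂ hle (cls σ₂ _ J) = 1 := by
    rw [pr_cls, cls_eq_one_iff, coe_inc]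
    exact ⟨(z : K), oneMod_of_sub_one_mem hzMv, hzpos, rfl⟩
  have h8 := hj _ hg
  rw [h (Ideal.span {z}) J hcop hJ1] at h8
  rw [← h8]
  congr 1
  rcases hcast with h9 | h9
  · congr 1
    apply Units.ext
    rw [ZMod.coe_unitOfCoprime, h9]
  · have h10 : ZMod.unitOfCoprime _ hcop = (-1) * c₀ := by
      apply Units.ext
      rw [ZMod.coe_unitOfCoprime, h9, Units.val_mul, Units.val_neg, Units.val_one, neg_one_mul]
    rw [h10, map_mul, h1, one_mul]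

end Pool.Agent.STs
end

section

/-!
# TASK TA3: the prime `p = v v'`

PROOF. `exists_conj`: `v ∣ (p)` (`p = pn v` prime), `absNorm (p) = p^2`, so `(p) = v J` with `absNorm J = p`, so `J = v'` is a prime ideal (its norm is prime). `v' ≠ v`: suppose `(p) = v^2`. `a^2 = d` in `𝓞 K` (`FD.sq`-like field of `FD`). The residue field of `v` has `p` elements, so `a - k ∈ v` for an integer `k`. `(a-k)(a+k) = d - k^2 ∈ v ∩ ℤ = (p)`,
so `v^2 = (p) ∣ (a-k)(a+k)`. If `a + k ∉ v` then `v^2 ∣ (a - k)`, i.e. `a - k = p z`, `2 z = u + w a` (`FD.coords`, for squarefree `d`; in general use `trace`/conjugation: `z - z' = 2a/p` and `(z-z')^2 = 4 d / p^2` would be an integer, `p^2 ∣ 4 d`, contradiction to `¬ p ∣ 2 d`). If `a + k ∈ v` then `2 a ∈ v`, `4 d ∈ v`, `p ∣ 4 d`: contradiction.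
`UU_two`: `V3_step` (Hx2) twice, for `m₁ = M` and `m₁ = M * v.asIdeal`, and `M * v * v' = M * (p) = M'`.
-/

set_option autoImplicit false

open NumberField IsDedekindDomain nonZeroDivisors IntermediateField

namespace Pool.Agent.STs

open Pool.Agent.ST
open Pool.Agent.STr (Lz ev InX UU)
open Pool.Agent.STh.F (FD Lf se)

variable {K : Type*} [Field K] [NumberField K] [Algebra K ℝ] {σ₂ : K →+* ℝ} {n M M' M₁ : Ideal (𝓞 K)} {d : ℕ} {a : 𝓞 K}

omit [Algebra K ℝ] in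
/-- an integer in `v` is divisible by `p` -/
private lemma TA3_int {v : PrI K} (hp : (pn v).Prime) {m : ℤ} (hm : (m : 𝓞 K) ∈ v.asIdeal) : (pn v : ℤ) ∣ m := by
  by_contra hcon
  have hmem : ((pn v : ℕ) : 𝓞 K) ∈ v.asIdeal := Ideal.absNorm_mem v.asIdeal
  have hco : IsCoprime (pn v : ℤ) m :=
    (Prime.coprime_iff_not_dvd (Nat.prime_iff_prime_int.1 hp)).2 hcon
  obtain ⟨x, y, hxy⟩ := hco
  apply v.isPrime.ne_top
  rw [Ideal.eq_top_iff_one]
  have h1 : (1 : 𝓞 K) = (x : 𝓞 K) * ((pn v : ℕ) : 𝓞 K) + (y : 𝓞 K) * (m : 𝓞 K) := by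
    have := congrArg (Int.cast : ℤ → 𝓞 K) hxy
    push_cast at this
    exact this.symm
  rw [h1]
  exact v.asIdeal.add_mem (v.asIdeal.mul_mem_left _ hmem) (v.asIdeal.mul_mem_left _ hm)

omit [Algebra K ℝ] in
/-- the residue field has `p` elements -/
private lemma TA3_res {v : PrI K} (hp : (pn v).Prime) (x : 𝓞 K) : ∃ k : ℤ, x - (k : 𝓞 K) ∈ v.asIdeal := by
  have hcard : Nat.card (𝓞 K ⧸ v.asIdeal) = pn v := rfl
  have : Fact (pn v).Prime := ⟨hp⟩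
  have hne : (1 : 𝓞 K ⧸ v.asIdeal) ≠ 0 := by
    intro h
    apply v.isPrime.ne_top
    rw [Ideal.eq_top_iff_one, ← Ideal.Quotient.eq_zero_iff_mem, map_one]
    exact h
  have h1 := mem_zmultiples_of_prime_card hcard (g := (1 : 𝓞 K ⧸ v.asIdeal)) (g' := Ideal.Quotient.mk v.asIdeal x) hne
  obtain ⟨k, hk⟩ := AddSubgroup.mem_zmultiples_iff.1 h1
  refine ⟨k, ?_⟩
  rw [← Ideal.Quotient.eq_zero_iff_mem, map_sub, ← hk, map_intCast]
  simp

/-- the norm of `a - j = p x` -/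
private lemma TA3_norm (D : FD σ₂ d a) {j : ℤ} {p : ℕ} {x : 𝓞 K} (h : a - (j : 𝓞 K) = (p : 𝓞 K) * x) :
    j ^ 2 - (d : ℤ) = (p : ℤ) ^ 2 * Algebra.norm ℤ x := by
  have h1 := Pool.Agent.STh.F.norm_real D x
  have ha1 : algebraMap K ℝ (a : K) = Real.sqrt d := D.alg
  have ha2 : σ₂ (a : K) = -Real.sqrt d := D.sig
  have hK : (a : K) - (j : K) = (p : K) * (x : K) := by
    have h4 := congrArg (algebraMap (𝓞 K) K) h
    rw [map_sub, map_mul, map_intCast, map_natCast] at h4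
    exact h4
  have e1 : Real.sqrt d - j = (p : ℝ) * algebraMap K ℝ (x : K) := by
    have h4 := congrArg (algebraMap K ℝ) hK
    rw [map_sub, map_mul, map_intCast, map_natCast, ha1] at h4
    exact h4
  have e2 : -Real.sqrt d - j = (p : ℝ) * σ₂ (x : K) := by
    have h4 := congrArg σ₂ hK
    rw [map_sub, map_mul, map_intCast, map_natCast, ha2] at h4
    exact h4
  have h3 : Real.sqrt d * Real.sqrt d = (d : ℝ) := Real.mul_self_sqrt (Nat.cast_nonneg d)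
  have h5 : ((j ^ 2 - (d : ℤ) : ℤ) : ℝ) = (((p : ℤ) ^ 2 * Algebra.norm ℤ x : ℤ) : ℝ) := by
    push_cast
    rw [h1]
    have h6 : (Real.sqrt d - j) * (-Real.sqrt d - j) = ((p : ℝ) * algebraMap K ℝ (x : K)) * ((p : ℝ) * σ₂ (x : K)) := by
      rw [e1, e2]
    linear_combination h6 + h3
  exact_mod_cast h5

/-- the prime is not ramified -/
private lemma TA3_ne (D : FD σ₂ d a) {v : PrI K} (hp : (pn v).Prime)
    (hpd : ¬ pn v ∣ 2 * d) (hJ : Ideal.span {(pn v : 𝓞 K)} = v.asIdeal * v.asIdeal) : False := by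
  obtain ⟨k, hk⟩ := TA3_res hp a
  have hsq : a * a = (d : 𝓞 K) := by rw [← sq, D.sq]
  -- `p ∣ d - k ^ 2`
  have h1 : (((d : ℤ) - k ^ 2 : ℤ) : 𝓞 K) ∈ v.asIdeal := by
    have h3 : (((d : ℤ) - k ^ 2 : ℤ) : 𝓞 K) = (a + k) * (a - k) := by
      push_cast
      linear_combination -hsq
    rw [h3]
    exact v.asIdeal.mul_mem_left _ hk
  obtain ⟨e, he⟩ := TA3_int hp h1
  have hk2 : ¬ (pn v : ℤ) ∣ 2 * k := by
    intro h
    have hpp : Prime (pn v : ℤ) := Nat.prime_iff_prime_int.1 hp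
    rcases hpp.dvd_or_dvd h with h | h
    · apply hpd
      have h4 : pn v ∣ 2 := by exact_mod_cast h
      exact h4.mul_right _
    · apply hpd
      have h4 : (pn v : ℤ) ∣ (d : ℤ) := by
        have h5 : (d : ℤ) = pn v * e + k * k := by linear_combination he
        rw [h5]
        exact dvd_add (dvd_mul_right _ _) (h.mul_right _)
      have h5 : pn v ∣ d := by exact_mod_cast h4
      exact h5.mul_left _
  -- `(a - k) ^ 2 ∈ (p)`
  have h2 : (a - k) * (a - k) ∈ Ideal.span {(pn v : 𝓞 K)} := by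
    rw [hJ]
    exact Ideal.mul_mem_mul hk hk
  obtain ⟨z, hz⟩ := Ideal.mem_span_singleton.1 h2
  -- `p ∣ a - k`
  have hpp : Prime (pn v : ℤ) := Nat.prime_iff_prime_int.1 hp
  have hco : IsCoprime (pn v : ℤ) (2 * k) := (Prime.coprime_iff_not_dvd hpp).2 hk2
  obtain ⟨x, y, hxy⟩ := hco
  have hxy' : (x : 𝓞 K) * (pn v : 𝓞 K) + y * (2 * k) = 1 := by
    have := congrArg (Int.cast : ℤ → 𝓞 K) hxy
    push_cast at this
    exact this
  have he' : (d : 𝓞 K) - (k : 𝓞 K) ^ 2 = (pn v : 𝓞 K) * e := by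
    have := congrArg (Int.cast : ℤ → 𝓞 K) he
    push_cast at this
    exact this
  obtain ⟨w, hw⟩ : ∃ w : 𝓞 K, a - k = (pn v : 𝓞 K) * w := by
    refine ⟨x * (a - k) + y * (e - z), ?_⟩
    linear_combination (-(a - k)) * hxy' + y * he' - y * hz + y * hsq
  have n1 := TA3_norm D hw
  have hw' : a - ((k + pn v : ℤ) : 𝓞 K) = (pn v : 𝓞 K) * (w - 1) := by
    push_cast
    linear_combination hw
  have n2 := TA3_norm D hw'
  apply hk2
  have hp0 : (pn v : ℤ) ≠ 0 := hpp.ne_zero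
  refine ⟨Algebra.norm ℤ (w - 1) - Algebra.norm ℤ w - 1, ?_⟩
  apply mul_left_cancel₀ hp0
  linear_combination n2 - n1

theorem exists_conj (h2 : Module.finrank ℚ K = 2) (D : FD σ₂ d a) {v : PrI K} (hp : (pn v).Prime)
    (hpd : ¬ pn v ∣ 2 * d) : ∃ v' : PrI K, v' ≠ v ∧ v.asIdeal * v'.asIdeal = Ideal.span {(pn v : 𝓞 K)} ∧ pn v' = pn v := by
  have hmem : ((pn v : ℕ) : 𝓞 K) ∈ v.asIdeal := Ideal.absNorm_mem v.asIdeal
  obtain ⟨J, hJ⟩ := Ideal.dvd_iff_le.2 ((Ideal.span_singleton_le_iff_mem _).2 hmem)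
  have hN : Ideal.absNorm (Ideal.span {(pn v : 𝓞 K)}) = pn v ^ 2 := by
    rw [Ideal.absNorm_span_natCast, RingOfIntegers.rank, h2]
  have hNJ : Ideal.absNorm J = pn v := by
    have h1 : Ideal.absNorm v.asIdeal * Ideal.absNorm J = pn v ^ 2 := by
      rw [← map_mul, ← hJ, hN]
    have h3 : pn v * Ideal.absNorm J = pn v * pn v := by
      rw [← sq]
      exact h1
    exact Nat.eq_of_mul_eq_mul_left hp.pos h3
  have hJp : J.IsPrime := Ideal.isPrime_of_irreducible_absNorm (by rw [hNJ]; exact hp)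
  have hJ0 : J ≠ ⊥ := by
    rintro rfl
    rw [Ideal.absNorm_bot] at hNJ
    exact hp.ne_zero hNJ.symm
  refine ⟨⟨J, hJp, hJ0⟩, ?_, hJ.symm, hNJ⟩
  intro hv
  have hJv : J = v.asIdeal := congrArg HeightOneSpectrum.asIdeal hv
  rw [hJv] at hJ
  exact TA3_ne D hp hpd hJ

theorem UU_two (hx : Hx σ₂ n) (hM₁ : M₁ ≠ ⊥) (hnM₁ : n ∣ M₁) (hM : M ≠ ⊥) (hle : M ≤ M₁) {v v' : PrI K} (hne : v' ≠ v)
    (hv : ¬ v.asIdeal ∣ M) (hv' : ¬ v'.asIdeal ∣ M) (hM' : M' = M * (v.asIdeal * v'.asIdeal)) (hle' : M' ≤ M₁)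
    (hv₁ : ¬ v.asIdeal ∣ M₁) (hv₁' : ¬ v'.asIdeal ∣ M₁) (A : RayClassGroup σ₂ M₁) :
    UU hle' A = UU hle A - UU hle (A * (cls σ₂ M₁ (prJ M₁ v hv₁))⁻¹) - UU hle (A * (cls σ₂ M₁ (prJ M₁ v' hv₁'))⁻¹) +
      UU hle (A * (cls σ₂ M₁ (prJ M₁ v hv₁))⁻¹ * (cls σ₂ M₁ (prJ M₁ v' hv₁'))⁻¹) := by
  have hM'' : M' = M * v.asIdeal * v'.asIdeal := by rw [hM', mul_assoc]
  subst hM''
  have h1 : M * v.asIdeal ≤ M := Ideal.mul_le_left
  have h2 : M * v.asIdeal * v'.asIdeal ≤ M * v.asIdeal := Ideal.mul_le_left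
  have h3 : M * v.asIdeal ≠ ⊥ := mul_ne_bot' hM v.ne_bot
  have h4 : ¬ v'.asIdeal ∣ M * v.asIdeal := by
    intro h
    rcases v'.prime.dvd_or_dvd h with h | h
    · exact hv' h
    · have h5 : v.asIdeal ≤ v'.asIdeal := Ideal.le_of_dvd h
      exact hne (HeightOneSpectrum.ext (v.isMaximal.eq_of_le v'.isPrime.ne_top h5)).symm
  have e1 : ∀ A, UU (h1.trans hle) A = UU hle A - UU hle (A * (cls σ₂ M₁ (prJ M₁ v hv₁))⁻¹) :=
    fun A => V3_step hx hM₁ hnM₁ hM hle hv hv₁ h1 A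
  have e2 := V3_step hx hM₁ hnM₁ h3 (h1.trans hle) h4 hv₁' h2 A
  rw [e1, e1] at e2
  have e3 : UU hle' A = UU (h2.trans (h1.trans hle)) A := rfl
  rw [e3, e2, mul_right_comm A (cls σ₂ M₁ (prJ M₁ v' hv₁'))⁻¹ (cls σ₂ M₁ (prJ M₁ v hv₁))⁻¹]
  ring

end Pool.Agent.STs
end
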