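import Pool.Agent.Lib.MP_1ef7cf_nt_s.X1
import Pool.Agent.Lib.MP_1ef7cf_nt_r.Mg.G001
import Pool.Agent.Lib.MP_1ef7cf_nt_r.Mg.G030
import Pool.Agent.Lib.MP_1ef7cf_nt_e.INR

section

/-!
# TASK X2: the character `Φ(χ)`

PROOF. `chi_eq`: `ev (A * B) = ev (A * B')`, so `Lz (A * B) = Lz (A * B')` (`Real.exp_injective`) and `X_rel` (nt_r/A2, two one-element sums). `exists_Ph`:
`Φ σ = χ (B σ)` with `B σ` from `L.tr σ` (choice); multiplicative by `IsTr.mul` and `chi_eq`. `tr_of`: `IsTr σ B` for some `B` (`L.tr`), `Φ` from `exists_Ph`: `χ B = Φ σ = χ (L.a σ)`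
for all `χ` in `X`; `eq_of_X` (nt_r/A2) gives `Lz (A * B) = Lz (A * L.a σ)`.
-/

set_option autoImplicit false

open NumberField IsDedekindDomain nonZeroDivisors IntermediateField

namespace Pool.Agent.STs

open Pool.Agent.ST
open Pool.Agent.STr (Lz ev InX)

variable {K : Type*} [Field K] [NumberField K] [Algebra K ℝ] {σ₂ : K →+* ℝ} {n m m' : Ideal (𝓞 K)}
  {R : IntermediateField K ℝ}

theorem chi_eq (hx : Hx σ₂ n) (hm : m ≠ ⊥) (hnm : n ∣ m) {χ : RayClassGroup σ₂ m →* ℂˣ} (hχ : InX (Lz σ₂ m) χ)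
    {σ : R ≃ₐ[K] R} {B B' : RayClassGroup σ₂ m} (h : IsTr σ₂ m σ B) (h' : IsTr σ₂ m σ B') : χ B = χ B' := by
  have hfin := hx.finite_cl hm hnm
  have h1 := Pool.Agent.STr.X_rel hχ ({()} : Finset Unit) ({()} : Finset Unit) (fun _ => B) (fun _ => B')
    (fun A => by
      rw [Finset.sum_singleton, Finset.sum_singleton]
      apply Real.exp_injective
      exact (h A).symm.trans (h' A))
  rw [Finset.sum_singleton, Finset.sum_singleton] at h1
  exact Units.ext h1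

theorem exists_Ph (hx : Hx σ₂ n) (hm : m ≠ ⊥) (hnm : n ∣ m) (L : Lw σ₂ m R)
    {χ : RayClassGroup σ₂ m →* ℂˣ} (hχ : InX (Lz σ₂ m) χ) : ∃ Φ : (R ≃ₐ[K] R) →* ℂˣ, IsPh χ Φ := by
  choose T hT using L.tr
  refine ⟨{ toFun := fun σ => χ (T σ), map_one' := ?_, map_mul' := ?_ }, ?_⟩
  · rw [chi_eq hx hm hnm hχ (hT 1) (IsTr.one' L.mem), map_one]
  · intro σ τ
    rw [← map_mul]
    exact chi_eq hx hm hnm hχ (hT (σ * τ)) ((hT σ).mul L.mem (hT τ))
  · intro σ B hB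
    exact chi_eq hx hm hnm hχ (hT σ) hB

/-- if `Φ(χ) = χ ∘ a` for all `χ` in `X` then `a σ` is a translation of `σ` -/
theorem tr_of (hx : Hx σ₂ n) (hm : m ≠ ⊥) (hnm : n ∣ m) (L : Lw σ₂ m R)
    (h : ∀ χ : RayClassGroup σ₂ m →* ℂˣ, InX (Lz σ₂ m) χ → ∀ Φ : (R ≃ₐ[K] R) →* ℂˣ, IsPh χ Φ →
      ∀ σ, Φ σ = χ (L.a σ)) (σ : R ≃ₐ[K] R) : IsTr σ₂ m σ (L.a σ) := by
  have hfin := hx.finite_cl hm hnm
  obtain ⟨B, hB⟩ := L.tr σ
  have h1 : ∀ χ : RayClassGroup σ₂ m →* ℂˣ, InX (Lz σ₂ m) χ → χ B = χ (L.a σ) := by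
    intro χ hχ
    obtain ⟨Φ, hΦ⟩ := exists_Ph hx hm hnm L hχ
    rw [← hΦ σ B hB]
    exact h χ hχ Φ hΦ σ
  intro A
  rw [hB A]
  exact congrArg Real.exp (Pool.Agent.STr.eq_of_X h1 A)

end Pool.Agent.STs
end

section

/-!
# TASK X5: translations at different levels

PROOF: adapt `beta_pr` (nt_r/V5; `V5_exp_UU`, `V5_up`, `V5_down`; `V5_act_zpow`, `V5_exp_UU` can be used or copied). Let `U A = UU hle A`. At level `m'`: `act σ (exp (U A)) = exp (U (A * pr B'))` (the fibre over `A` is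
moved to the fibre over `A * pr B'`). At level `m`: `U A = Σ e g Lz (A g)` (`UU_all` in Hx), so `act σ (exp (U A)) = exp (U (A * B))`. So `U (A * pr B') = U (A * B)` for all `A`, and
`χ (pr B') = χ B` by `X_rel` for the function `U`, which has a nonzero `χ`-component (`SS_UU`).
-/

set_option autoImplicit false

open NumberField IsDedekindDomain nonZeroDivisors IntermediateField

namespace Pool.Agent.STs

open Pool.Agent.ST
open Pool.Agent.STr (Lz ev InX UU)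

variable {K : Type*} [Field K] [NumberField K] [Algebra K ℝ] {σ₂ : K →+* ℝ} {n m m' : Ideal (𝓞 K)}
  {R : IntermediateField K ℝ}

omit [NumberField K] in
private lemma X5_act_zpow {H : IntermediateField K ℝ} (σ : H ≃ₐ[K] H) {x : ℝ} (hx : x ∈ H) (k : ℤ) :
    act σ (x ^ k) = (act σ x) ^ k := by
  cases k with
  | ofNat k =>
    rw [Int.ofNat_eq_natCast, zpow_natCast, zpow_natCast, act_pow σ hx]
  | negSucc k =>
    rw [zpow_negSucc, zpow_negSucc, act_inv σ (pow_mem hx _), act_pow σ hx]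

omit [Algebra K ℝ] in
/-- the exponential of the sum over the fibre -/
private lemma X5_exp_UU [Fintype (RayClassGroup σ₂ m')] [DecidableEq (RayClassGroup σ₂ m)] (hle : m' ≤ m)
    (A : RayClassGroup σ₂ m) :
    Real.exp (UU hle A) = ∏ A' ∈ Finset.univ.filter (fun A' : RayClassGroup σ₂ m' => pr σ₂ hle A' = A),
      ev σ₂ m' A' := by
  have h : UU hle A = ∑ A' ∈ Finset.univ.filter (fun A' : RayClassGroup σ₂ m' => pr σ₂ hle A' = A),
      Lz σ₂ m' A' := by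
    have hs : {A' : RayClassGroup σ₂ m' | pr σ₂ hle A' = A} =
        ((Finset.univ.filter (fun A' : RayClassGroup σ₂ m' => pr σ₂ hle A' = A) : Finset _) :
          Set (RayClassGroup σ₂ m')) := by
      ext A'
      simp
    unfold UU
    rw [hs, finsum_mem_coe_finset]
  rw [h, Real.exp_sum]
  rfl

/-- the numbers `exp (UU A)` lie in `R` and `σ` acts on them by `B` (level `m`) -/
theorem act_UU (hx : Hx σ₂ n) (hm : m ≠ ⊥) (hnm : n ∣ m) (hm' : m' ≠ ⊥) (hle : m' ≤ m) (L : Lw σ₂ m R)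
    {σ : R ≃ₐ[K] R} {B : RayClassGroup σ₂ m} (h : IsTr σ₂ m σ B) (A : RayClassGroup σ₂ m) :
    Real.exp (UU hle A) ∈ R ∧ act σ (Real.exp (UU hle A)) = Real.exp (UU hle (A * B)) := by
  classical
  have i1 := hx.finite_cl hm hnm
  have i3 := Fintype.ofFinite (RayClassGroup σ₂ m)
  obtain ⟨e, he, -⟩ := UU_all hx hm hnm hm' hle
  have h1 : ∀ A, Real.exp (UU hle A) = ∏ g, ev σ₂ m (A * g) ^ (e g) := by
    intro A
    rw [he, finsum_eq_sum_of_fintype, Real.exp_sum]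
    refine Finset.prod_congr rfl fun g _ => ?_
    rw [ev, ← Real.rpow_intCast, ← Real.exp_mul, mul_comm]
  have h2 : ∀ g, ev σ₂ m (A * g) ^ (e g) ∈ R := fun g => zpow_mem (L.mem _) _
  refine ⟨by rw [h1]; exact prod_mem fun g _ => h2 g, ?_⟩
  rw [h1, h1, act_prod _ _ _ fun g _ => h2 g]
  refine Finset.prod_congr rfl fun g _ => ?_
  rw [X5_act_zpow _ (L.mem _), h (A * g), mul_right_comm]

/-- the same at level `m'` -/
theorem act_UU' (hx : Hx σ₂ n) (hm : m ≠ ⊥) (hnm : n ∣ m) (hm' : m' ≠ ⊥) (hle : m' ≤ m) (L' : Lw σ₂ m' R)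
    {σ : R ≃ₐ[K] R} {B' : RayClassGroup σ₂ m'} (h : IsTr σ₂ m' σ B') (A : RayClassGroup σ₂ m) :
    Real.exp (UU hle A) ∈ R ∧ act σ (Real.exp (UU hle A)) = Real.exp (UU hle (A * pr σ₂ hle B')) := by
  classical
  have hnm' : n ∣ m' := hnm.trans (Ideal.dvd_iff_le.2 hle)
  have i2 := hx.finite_cl hm' hnm'
  have i4 := Fintype.ofFinite (RayClassGroup σ₂ m')
  refine ⟨by rw [X5_exp_UU hle]; exact prod_mem fun A' _ => L'.mem A', ?_⟩
  rw [X5_exp_UU hle, X5_exp_UU hle, act_prod _ _ _ fun A' _ => L'.mem A']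
  refine Finset.prod_bij (fun A' _ => A' * B') ?_ ?_ ?_ ?_
  · intro A' hA'
    rw [Finset.mem_filter] at hA' ⊢
    exact ⟨Finset.mem_univ _, by rw [map_mul, hA'.2]⟩
  · intro A' _ B' _ h
    exact mul_right_cancel h
  · intro C' hC'
    rw [Finset.mem_filter] at hC'
    refine ⟨C' * B'⁻¹, ?_, ?_⟩
    · rw [Finset.mem_filter]
      exact ⟨Finset.mem_univ _, by rw [map_mul, hC'.2, map_inv, mul_inv_cancel_right]⟩
    · exact inv_mul_cancel_right _ _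
  · intro A' _
    exact h A'

theorem tr_pr (hx : Hx σ₂ n) (hm : m ≠ ⊥) (hnm : n ∣ m) (hm' : m' ≠ ⊥) (hle : m' ≤ m) (L : Lw σ₂ m R)
    (L' : Lw σ₂ m' R) {χ : RayClassGroup σ₂ m →* ℂˣ} (hχ : InX (Lz σ₂ m') (χ.comp (pr σ₂ hle)))
    {σ : R ≃ₐ[K] R} {B : RayClassGroup σ₂ m} {B' : RayClassGroup σ₂ m'} (h : IsTr σ₂ m σ B)
    (h' : IsTr σ₂ m' σ B') : χ (pr σ₂ hle B') = χ B := by
  classical
  have i1 := hx.finite_cl hm hnm
  have key : ∀ A, UU hle (A * pr σ₂ hle B') = UU hle (A * B) := by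
    intro A
    obtain ⟨-, h2⟩ := act_UU hx hm hnm hm' hle L h A
    obtain ⟨-, h3⟩ := act_UU' hx hm hnm hm' hle L' h' A
    apply Real.exp_injective
    rw [← h3, ← h2]
  have hX : InX (UU hle) χ := by
    obtain ⟨c, hc⟩ := hχ
    exact ⟨c, by rw [SS_UU hx hm hnm hm' hle]; exact hc⟩
  have h3 := Pool.Agent.STr.X_rel hX (Finset.univ : Finset Unit) (Finset.univ : Finset Unit)
    (fun _ => pr σ₂ hle B') (fun _ => B) (fun A => by simpa using key A)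
  apply Units.ext
  simpa using h3

end Pool.Agent.STs
end

section

/-!
# TASK Tau: an element of the inertia group

PROOF (adapt `rd_act_of_res_one`, MP_1ef7cf_nt_e/INR.lean). `I` from `exists_inertia P` (MP_1ef7cf_nt_e/INRC.lean). Suppose `η (Art'⁻¹ (res τ)) = 1` for all `τ ∈ I`. Let `T` be the fixed field of `I` (as in `exists_inertia`), `T' = T ⊓ H'`; it is abelian over `K` and unramified at `ℓ`
(a prime of `T'` over `ℓ` lies under a prime of `T`, which is unramified: `exists_up`, `exists_dn` in MP_1ef7cf_nt_c/Red.lean). Let `A` be a class with `pr A = 1`, `η A ≠ 1`. As in `rd_act_of_res_one`, `exists_norm_rep` for `A` and `exists_norm_eq`, `res_art_norm` for `T'` give: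
`Art' A` is trivial on `T'`. Let `E` be the subfield of `H'` fixed by `Art' B` for all `B` in `ker η`. `E ≤ T`: for `x ∈ E` and `τ ∈ I`, `act τ x = act (Art' (Art'⁻¹ (res τ))) x = x` since `Art'⁻¹ (res τ) ∈ ker η`. So `E ≤ T'`, `Art' A` is trivial on `E`, and by Galois theory
(`fixingSubgroup (fixedField S) = S`) `A ∈ ker η`. Contradiction.
The modulus is written `M'` with `hM' : M' = m * ℓ.asIdeal` for flexibility (`subst` it first).
-/

set_option autoImplicit false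

open NumberField IsDedekindDomain nonZeroDivisors IntermediateField

namespace Pool.Agent.STs

open Pool.Agent.ST
open Pool.Agent.STc (IsInt rd IsUn)

variable {K : Type*} [Field K] [NumberField K] [Algebra K ℝ] {σ₂ : K →+* ℝ} {R H' : IntermediateField K ℝ}

theorem exists_tau {m M' : Ideal (𝓞 K)} {ℓ : PrI K} (hM' : M' = m * ℓ.asIdeal) (hm : m ≠ ⊥) (hℓ : ¬ ℓ.asIdeal ∣ m)
    {Art' : RayClassGroup σ₂ M' ≃* (H' ≃ₐ[K] H')} (h' : IsRayClassField σ₂ M' H' Art')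
    (hR : AbR R) (hle : H' ≤ R) [Normal K H'] {P : PrI R} (hP : und K P = ℓ) (hle' : M' ≤ m)
    (η : RayClassGroup σ₂ M' →* ℂˣ) {A : RayClassGroup σ₂ M'} (hA : pr σ₂ hle' A = 1) (hηA : η A ≠ 1) :
    ∃ τ : R ≃ₐ[K] R, (∀ x, IsInt R x → rd P (act τ x) = rd P x) ∧ η (Art'.symm (res hle τ)) ≠ 1 := by
  subst hM'
  have hne' : m * ℓ.asIdeal ≠ ⊥ := mul_ne_bot' hm ℓ.ne_bot
  have := hR.fd
  have := hR.abel
  have := h'.finite
  have := h'.isRCF.abelian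
  obtain ⟨I, hI, hun⟩ := STe.exists_inertia (K := K) P
  by_contra hcon
  have hcon' : ∀ τ : R ≃ₐ[K] R, τ ∈ I → η (Art'.symm (res hle τ)) = 1 := by
    intro τ hτ
    by_contra h
    exact hcon ⟨τ, fun x hx => hI τ hτ x hx, h⟩
  let T : IntermediateField K ℝ := IntermediateField.lift (IntermediateField.fixedField I)
  have hTR : T ≤ R := IntermediateField.lift_le _
  have hTab : IsAbelianGalois K T := isAbelianGalois_of_le hTR
  have hTfd : FiniteDimensional K T := STb.fd_of_le hTR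
  have hTG : IsGalois K T := inferInstance
  let S : Subgroup (H' ≃ₐ[K] H') := η.ker.map Art'.toMonoidHom
  let E : IntermediateField K ℝ := IntermediateField.lift (IntermediateField.fixedField S)
  have hEH : E ≤ H' := IntermediateField.lift_le _
  have hEab : IsAbelianGalois K E := isAbelianGalois_of_le hEH
  have hEfd : FiniteDimensional K E := STb.fd_of_le hEH
  have hEG : IsGalois K E := inferInstance
  have hET : E ≤ T := by
    intro x hx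
    have hxH : x ∈ H' := hEH hx
    have hxR : x ∈ R := hle hxH
    have hx1 : (⟨x, hxH⟩ : H') ∈ IntermediateField.fixedField S :=
      (IntermediateField.mem_lift (⟨x, hxH⟩ : H')).1 hx
    rw [IntermediateField.mem_fixedField_iff] at hx1
    refine (IntermediateField.mem_lift (⟨x, hxR⟩ : R)).2 ?_
    rw [IntermediateField.mem_fixedField_iff]
    intro τ hτ
    apply Subtype.ext
    have h1 : act τ x = x := by
      rw [← act_res hle τ hxH]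
      have h2 : res hle τ ∈ S := by
        refine ⟨Art'.symm (res hle τ), hcon' τ hτ, ?_⟩
        exact Art'.apply_symm_apply _
      rw [act_of_mem _ hxH, hx1 _ h2]
    rw [← act_of_mem τ hxR, h1]
  obtain ⟨a, ha, hrep⟩ := STe.exists_norm_rep hm hℓ A hA
  have hunE : ∀ P' : PrI E, und K P' = ℓ → Algebra.IsUnramifiedAt (𝓞 K) P'.asIdeal := by
    intro P' hP'
    obtain ⟨P₁, h1, -, h3⟩ := STc.exists_up hET P'
    exact h3 (hun P₁ (by rw [h1, hP', hP]))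
  obtain ⟨y, z, hy, hy0, hyz, hz1, hz2, hz3⟩ := STe.exists_norm_eq σ₂ hm hℓ (T := E) hunE ha
  obtain ⟨J, hJ, hJA⟩ := hrep z hz1 hz2 hz3
  have h5 := STe.res_art_norm hne' h' hEH hy hy0 hyz hJ
  rw [hJA, res_eq_one_iff] at h5
  have h6 : Art' A ∈ S := STd.mem_of_fix S h5
  obtain ⟨B, hB, hBA⟩ := h6
  have h7 : B = A := Art'.injective hBA
  exact hηA (h7 ▸ hB)

end Pool.Agent.STs
end

section

/-!
# TASK G5s: descent

PROOF (cf. nt_r/G5.lean). Let `R' ≥ R` with `AbR R'`, `L' : Lw σ₂ M' R'`, `L₁ : Lw σ₂ m₁ R'` (`Hw.exists_ge` twice, `Lw.mono`), `L↑ = L.mono`, `Φ↑ = Φ ∘ res` (`IsPh χ Φ↑` by `IsTr.res_iff`). `χ₁ = χ ∘ pr * η` (level `m₁`), in `X` for `m₁` by `hX'` (`InX_pr`). `exists_Ph`: `Φ₁` for `χ₁`, `m₁`, and `Φ'` for `χ₁ ∘ pr`, `M'`, all on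
`G' = Gal(R'/K)`. For `σ ∈ G'` with translations `B` (level `m`), `B₁` (level `m₁`), `B'` (level `M'`): `tr_pr` (X5) with `hX'`: `Φ' σ = χ₁ (pr B') = χ₁ B₁ = Φ₁ σ`; `tr_pr` with `hX`: `χ (pr B₁) = χ B = Φ↑ σ`, so `Φ₁ σ = Φ↑ σ * η B₁`. `L'.a`, `L₁.a`, `L↑.a` are compatible (`Lw.a_pr`):
`χ₁ (pr (L'.a σ)) = χ₁ (L₁.a σ) = χ (L↑.a σ) * η (L₁.a σ)`. `h` for `R'`, `L'`, `Φ'`: `δ₁ = (χ₁ ∘ pr).comp L'.a * Φ'⁻¹` has order prime to `l`, and `δ₁ σ = δ↑ σ * (η (L₁.a σ) * (η B₁)⁻¹)`, the last factor is killed by `r ^ i`; so `δ↑ ^ (r ^ i * orderOf δ₁) = 1` (`orderOf δ₁ ≠ 0`: `G'` is finite). `l` does not divide the exponent. `δ↑ = δ ∘ res`, `res` surjective (`res_surjective`), `Lw.mono_a`.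
-/

set_option autoImplicit false

open NumberField IsDedekindDomain nonZeroDivisors IntermediateField

namespace Pool.Agent.STs

open Pool.Agent.ST
open Pool.Agent.STr (Lz ev InX)

variable {K : Type*} [Field K] [NumberField K] [Algebra K ℝ] {σ₂ : K →+* ℝ} {n m m₁ M' : Ideal (𝓞 K)}
  {R : IntermediateField K ℝ}

theorem descend (hw : Hw σ₂ n) (hm : m ≠ ⊥) (hnm : n ∣ m) (hm₁ : m₁ ≠ ⊥) (hle₁ : m₁ ≤ m)
    (hM' : M' ≠ ⊥) (hle' : M' ≤ m₁) {χ : RayClassGroup σ₂ m →* ℂˣ}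
    {η : RayClassGroup σ₂ m₁ →* ℂˣ} {l r i : ℕ} (hl : l.Prime) (hr : r.Prime) (hlr : l ≠ r) (hη : η ^ (r ^ i) = 1)
    (hX : InX (Lz σ₂ m₁) (χ.comp (pr σ₂ hle₁)))
    (hX' : InX (Lz σ₂ M') ((χ.comp (pr σ₂ hle₁) * η).comp (pr σ₂ hle')))
    (h : ∀ (R : IntermediateField K ℝ) (_ : AbR R) (L' : Lw σ₂ M' R) (Φ : (R ≃ₐ[K] R) →* ℂˣ),
        IsPh ((χ.comp (pr σ₂ hle₁) * η).comp (pr σ₂ hle')) Φ →
        ¬ l ∣ orderOf (((χ.comp (pr σ₂ hle₁) * η).comp (pr σ₂ hle')).comp L'.a * Φ⁻¹))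
    (hR : AbR R) (L : Lw σ₂ m R) {Φ : (R ≃ₐ[K] R) →* ℂˣ} (hΦ : IsPh χ Φ) : ¬ l ∣ orderOf (χ.comp L.a * Φ⁻¹) := by
  have hnm₁ : n ∣ m₁ := hnm.trans (Ideal.dvd_iff_le.2 hle₁)
  have hnM : n ∣ M' := hnm₁.trans (Ideal.dvd_iff_le.2 hle')
  obtain ⟨R₁, hRR₁, hR₁, ⟨L₀⟩⟩ := hw.exists_ge hR hm₁ hnm₁
  obtain ⟨R', hR₁R', hR', ⟨L'⟩⟩ := hw.exists_ge hR₁ hM' hnM
  have hle : R ≤ R' := hRR₁.trans hR₁R'
  have i1 := hR.gal
  have i2 := hR'.gal
  obtain ⟨Φ', hΦ'⟩ := exists_Ph hw.toHx hM' hnM L' hX'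
  have h0 := h R' hR' L' Φ' hΦ'
  have L₁ : Lw σ₂ m₁ R' := L₀.mono hR₁R' hR₁
  set χ₁ : RayClassGroup σ₂ m₁ →* ℂˣ := χ.comp (pr σ₂ hle₁) * η with hχ₁
  set δ₁ : (R' ≃ₐ[K] R') →* ℂˣ := (χ₁.comp (pr σ₂ hle')).comp L'.a * Φ'⁻¹ with hδ₁
  have hη' : ∀ C, η C ^ (r ^ i) = 1 := fun C => DFunLike.congr_fun hη C
  have key : ∀ σ : R' ≃ₐ[K] R',
      ((χ.comp L.a * Φ⁻¹) (res hle σ)) ^ (orderOf δ₁ * r ^ i) = 1 := by
    intro σ
    obtain ⟨B, hB⟩ := (L.mono hle hR).tr σ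
    obtain ⟨B₁, hB₁⟩ := L₁.tr σ
    obtain ⟨B', hB'⟩ := L'.tr σ
    have e1 : Φ' σ = χ₁ (pr σ₂ hle' B') := hΦ' σ B' hB'
    have e2 : χ₁ (pr σ₂ hle' B') = χ₁ B₁ :=
      tr_pr hw.toHx hm₁ hnm₁ hM' hle' L₁ L' hX' hB₁ hB'
    have e3 : χ (pr σ₂ hle₁ B₁) = χ B :=
      tr_pr hw.toHx hm hnm hm₁ hle₁ (L.mono hle hR) L₁ hX hB hB₁
    have e4 : Φ (res hle σ) = χ B := hΦ (res hle σ) B ((IsTr.res_iff hle L.mem).2 hB)
    have e5 : χ₁ B₁ = χ (pr σ₂ hle₁ B₁) * η B₁ := rfl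
    have f1 : pr σ₂ hle' (L'.a σ) = L₁.a σ := Lw.a_pr L₁ L' hle' hM' σ
    have f2 : pr σ₂ hle₁ (L₁.a σ) = L.a (res hle σ) := by
      rw [← Lw.mono_a L hle hR σ]
      exact Lw.a_pr (L.mono hle hR) L₁ hle₁ hm₁ σ
    have f3 : χ₁ (pr σ₂ hle' (L'.a σ)) = χ (L.a (res hle σ)) * η (L₁.a σ) := by
      rw [f1, ← f2]
      rfl
    have g1 : (χ.comp L.a * Φ⁻¹) (res hle σ) = δ₁ σ * ((η (L₁.a σ))⁻¹ * η B₁) := by
      show χ (L.a (res hle σ)) * (Φ (res hle σ))⁻¹ =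
        (χ₁ (pr σ₂ hle' (L'.a σ)) * (Φ' σ)⁻¹) * ((η (L₁.a σ))⁻¹ * η B₁)
      rw [f3, e1, e2, e5, e3, e4]
      generalize χ (L.a (res hle σ)) = a
      generalize χ B = b
      generalize η (L₁.a σ) = c
      generalize η B₁ = d
      rw [mul_inv]
      calc a * b⁻¹ = a * b⁻¹ * (c * c⁻¹) * (d⁻¹ * d) := by
            rw [mul_inv_cancel, inv_mul_cancel]; simp
        _ = a * c * (b⁻¹ * d⁻¹) * (c⁻¹ * d) := by
          simp only [mul_assoc, mul_left_comm, mul_comm]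
    have g2 : (δ₁ σ) ^ orderOf δ₁ = 1 := DFunLike.congr_fun (pow_orderOf_eq_one δ₁) σ
    have g3 : ((η (L₁.a σ))⁻¹ * η B₁) ^ (r ^ i) = 1 := by
      rw [mul_pow, inv_pow, hη', hη', inv_one, mul_one]
    rw [g1, mul_pow, pow_mul, g2, one_pow, one_mul, mul_comm (orderOf δ₁), pow_mul, g3, one_pow]
  have h6 : orderOf (χ.comp L.a * Φ⁻¹) ∣ orderOf δ₁ * r ^ i := by
    apply orderOf_dvd_of_pow_eq_one
    apply MonoidHom.ext
    intro τ
    obtain ⟨σ, rfl⟩ := res_surjective hle τ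
    exact key σ
  intro hld
  rcases hl.dvd_mul.1 (hld.trans h6) with h7 | h7
  · exact h0 h7
  · exact absurd ((Nat.prime_dvd_prime_iff_eq hl hr).1 (hl.dvd_of_dvd_pow h7)) hlr

end Pool.Agent.STs
end
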