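import Pool.Agent.Lib.MP_1ef7cf_nt_s.Mg.G002
import Pool.Agent.Lib.MP_1ef7cf_nt_s.Mg.G005
import Pool.Agent.Lib.MP_1ef7cf_nt_r.Mg.G029
import Pool.Agent.Lib.MP_1ef7cf_nt_r.Mg.G015
import Pool.Agent.Lib.MP_1ef7cf_nt_s.Mg.G003
import Pool.Agent.Lib.MP_1ef7cf_nt_s.Mg.G007
import Pool.Agent.Lib.MP_1ef7cf_nt_s.Mg.G001
import Pool.Agent.Lib.MP_1ef7cf_nt_r.Mg.G016
import Pool.Agent.Lib.MP_1ef7cf_nt_r.Mg.G014

section

/-!
# TASK TA6: the tame character `η` of order `l`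

PROOF. `l₀` = the bound of `prop51L` (X9) for `κ`, `s = 2`, and `l₀ ≥ 2`. `p - 1` is even and divisible by `l` odd, so `2 * l ^ 1 ∣ p - 1`: `exists_tame` (nt_r/N4a) gives `ω₀ : (ZMod p)ˣ →* ℂˣ` of order `l`, `ω₀ (-1) = 1`; `exists_NT` (N3a) the norm type character `ω` of `M' = M * (p)`; `orderOf ω = l` (`NT.dvd` (N5a), and `ω ≠ 1` by `NT_tame_v`
or `NT.order_tame`). `Nw M M'` has at most two elements (`G3_ncard`, nt_r/G3). `κ ∘ pr` is in `X` for `M'` (`AK.lift` with `hκ`). `prop51L`: `η ∈ zpowers ω` of order `l` with `κ η` in `X`. `AK.twist'` with `N' = p`: `AK σ₂ M' d a (N * p) (κ ∘ pr * η)`; `AK.truth_eta` gives the last statement. Nontriviality on the kernel at `v`: `ω` is a power of `η`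
(both have the prime order `l`); if `η g = 1` for all `g` with `pr g = 1` then `ω g ^ 1 = 1` for them, and `NT_tame_v` (`j = 1`) gives `ω₀ = 1`, contradiction.
-/

set_option autoImplicit false

open NumberField IsDedekindDomain nonZeroDivisors IntermediateField

namespace Pool.Agent.STs

open Pool.Agent.ST
open Pool.Agent.STr (Lz ev InX NT Nw G3_ncard G3_pow exists_tame exists_NT NT.dvd)
open Pool.Agent.STh.F (FD Lf se)

variable {K : Type*} [Field K] [NumberField K] [Algebra K ℝ] {σ₂ : K →+* ℝ} {n M : Ideal (𝓞 K)} {d : ℕ} {a : 𝓞 K}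

theorem exists_eta (hw : Hw σ₂ n) (D : FD σ₂ d a) (hM : M ≠ ⊥) (hnM : n ∣ M) {N : ℕ}
    {κ : RayClassGroup σ₂ M →* ℂˣ} (hκ : AK σ₂ M d a N κ) :
    ∃ l₀ : ℕ, ∀ l : ℕ, l.Prime → l₀ < l → ∀ (v v' : PrI K), (pn v).Prime → ¬ pn v ∣ 2 * d → v' ≠ v →
      v.asIdeal * v'.asIdeal = Ideal.span {(pn v : 𝓞 K)} → pn v' = pn v →
      ∀ (hv : ¬ v.asIdeal ∣ M) (hv' : ¬ v'.asIdeal ∣ M), κ (cls σ₂ M (prJ M v hv)) ≠ 1 →
      κ (cls σ₂ M (prJ M v' hv')) ≠ 1 → l ∣ pn v - 1 →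
      ∀ (M' : Ideal (𝓞 K)), M' = M * (v.asIdeal * v'.asIdeal) → ∀ hle : M' ≤ M * v'.asIdeal,
      ∃ η : RayClassGroup σ₂ M' →* ℂˣ, η ^ l = 1 ∧ (∃ A, pr σ₂ hle A = 1 ∧ η A ≠ 1) ∧
        ∀ (R : IntermediateField K ℝ) (L' : Lw σ₂ M' R) (σ : R ≃ₐ[K] R) (B : RayClassGroup σ₂ M'),
          IsTr σ₂ M' σ B → η B = η (L'.a σ) := by
  classical
  obtain ⟨l₀, hl₀⟩ := prop51L hw hM hnM hκ.inX 2
  refine ⟨max l₀ 2, fun l hl hll v v' hp hpd hne hvv hpv' hv hv' hκv hκv' hlp M' hM'eq hle => ?_⟩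
  obtain ⟨p, hpe⟩ : ∃ p : ℕ, p = pn v := ⟨_, rfl⟩
  rw [← hpe] at hp hpd hvv hpv' hlp
  have hx := hw.toHx
  have hM'' : M' = M * Ideal.span {(p : 𝓞 K)} := by rw [hM'eq, hvv]
  have hMv : M' = M * v'.asIdeal * v.asIdeal := by rw [hM'eq]; ring
  have hp0 : (p : 𝓞 K) ≠ 0 := Nat.cast_ne_zero.2 hp.ne_zero
  have hspan : Ideal.span {(p : 𝓞 K)} ≠ ⊥ := by
    rw [Ne, Ideal.span_singleton_eq_bot]; exact hp0
  have hM' : M' ≠ ⊥ := by rw [hM'']; exact mul_ne_zero hM hspan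
  have hleM : M' ≤ M := by rw [hM'']; exact Ideal.mul_le_left
  have hlep : M' ≤ Ideal.span {(p : 𝓞 K)} := by rw [hM'']; exact Ideal.mul_le_right
  have hnM' : n ∣ M' := hnM.trans (Ideal.dvd_iff_le.2 hleM)
  have hfin : Finite (RayClassGroup σ₂ M') := hx.finite_cl hM' hnM'
  have hcard : (Nw M M').ncard ≤ 2 := by
    have h1 := G3_ncard hx.h2 hp (M := M) (by rw [← hM'']; exact hM')
    rw [← hM''] at h1
    exact h1
  -- the primes which divide `M'` and not `M`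
  have hq : ∀ (q : PrI K) (hq : ¬ q.asIdeal ∣ M), q.asIdeal ∣ M' → κ (cls σ₂ M (prJ M q hq)) ≠ 1 := by
    intro q hq hqM'
    rw [hM'eq] at hqM'
    have h1 := (q.prime.dvd_or_dvd hqM').resolve_left hq
    have heq : ∀ w : PrI K, q.asIdeal ∣ w.asIdeal → q = w := by
      intro w hw'
      have hm := w.isMaximal
      have hqm := q.isMaximal
      exact HeightOneSpectrum.ext (hm.eq_of_le hqm.ne_top (Ideal.dvd_iff_le.1 hw')).symm
    rcases q.prime.dvd_or_dvd h1 with h2 | h2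
    · have h3 := heq v h2
      subst h3
      exact hκv
    · have h3 := heq v' h2
      subst h3
      exact hκv'
  have hlift := hκ.lift hx hM hnM hM' hleM hq
  -- coprimality
  have hcopv : ∀ w : PrI K, ¬ w.asIdeal ∣ M → IsCoprime w.asIdeal M := by
    intro w hwM
    rw [Ideal.isCoprime_iff_sup_eq]
    have hm := w.isMaximal
    exact hm.out.2 _ (lt_of_le_of_ne le_sup_left fun h =>
      hwM (Ideal.dvd_iff_le.2 (le_sup_right.trans h.symm.le)))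
  have hcop : IsCoprime (Ideal.span {(p : 𝓞 K)}) M := by
    rw [← hvv]
    exact (hcopv v hv).mul_left (hcopv v' hv')
  -- the tame character
  have hl2 : l ≠ 2 := by
    have := lt_of_le_of_lt (le_max_right l₀ 2) hll
    omega
  have hp2 : p ≠ 2 := by
    rintro rfl
    exact hpd (dvd_mul_right _ _)
  have h2p : 2 ∣ p - 1 := by
    have h1 := hp.eq_two_or_odd
    have h2 := hp.two_le
    omega
  have hpl : 2 * l ^ 1 ∣ p - 1 := by
    rw [pow_one]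
    exact Nat.Coprime.mul_dvd_of_dvd_of_dvd ((Nat.coprime_primes Nat.prime_two hl).2 (Ne.symm hl2)) h2p hlp
  obtain ⟨ω₀, hω₀, hω₀1⟩ := exists_tame hp hpl
  obtain ⟨ω, hω⟩ := exists_NT (σ₂ := σ₂) hx.h2 hp.ne_zero hM' hlep ω₀ hω₀1
  have hωV : ¬ ∀ g, pr σ₂ hle g = 1 → ω g = 1 := fun hall => by
    have h1 := NT_tame_v D hp hpd hne hvv hpe.symm hpv' hM hcop hMv hω₀1 hω hle 1
      (fun g hg => by rw [hall g hg, one_pow])
    have h2 : orderOf ω₀ ∣ 1 := orderOf_dvd_of_pow_eq_one h1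
    rw [hω₀, pow_one, Nat.dvd_one] at h2
    exact hl.one_lt.ne' h2
  have hωo : orderOf ω = l := by
    have h1 : orderOf ω ∣ l := by
      have := NT.dvd hM' hp.ne_zero hlep hω
      rwa [hω₀, pow_one] at this
    rcases (Nat.dvd_prime hl).1 h1 with h2 | h2
    · exfalso
      rw [orderOf_eq_one_iff] at h2
      exact hωV fun g _ => by rw [h2, MonoidHom.one_apply]
    · exact h2
  obtain ⟨η, hη, hηo, hηX⟩ := hl₀ l hl (lt_of_le_of_lt (le_max_left _ _) hll) M' hleM hM' hcard hlift.inX ω hωo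
  have htw : AK σ₂ M' d a (N * p) (κ.comp (pr σ₂ hleM) * η) := by
    refine AK.twist' hx hM' hnM' hlift hp.ne_zero ?_ ?_ hω₀1 hω hη hηX
    · rw [hM'', Nat.cast_mul, ← Ideal.span_singleton_mul_span_singleton]
      exact Ideal.mul_mono hκ.le le_rfl
    · intro w hw'
      rw [hM'']
      exact Dvd.dvd.mul_left (Ideal.dvd_span_singleton.2 hw') _
  refine ⟨η, ?_, ?_, fun R L' σ B hB => AK.truth_eta hx D hM' hnM' hlift htw L' hB⟩
  · rw [← hηo]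
    exact pow_orderOf_eq_one η
  · by_contra hcon
    push Not at hcon
    apply hωV
    obtain ⟨u, hu⟩ := G3_pow (ω := ω) (η := ω) (η' := η) (k := 1) (i := 1) hl (by rw [hωo, pow_one])
      (Subgroup.mem_zpowers ω) hη (by rw [hωo, pow_one]) (by rw [hηo, pow_one]) le_rfl
    intro g hg
    rw [hu, MonoidHom.pow_apply, hcon g hg, one_pow]

end Pool.Agent.STs
end

section

/-!
# TASK TA5: the congruence for the ray class groups

PROOF. `kol` (Kol.lean) with `C = RayClassGroup σ₂ M'` (finite, `Hx.finite_cl`), `ε = ev σ₂ M'`, `V = (pr σ₂ hle).ker`, `h = Nat.card (RayClassGroup σ₂ M₁)` (`g ^ h ∈ V` since `pr g ^ h = 1`). `∏_{g ∈ T} ev (A' g) = exp (UU (pr A'))` (`T` the finset of the kernel; `UU` is the sum over the fibre of `pr A'`, `V2_UU_eq`; the fibre is `A' · T`),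
so `hW` is `hU`. `Bφ'` a translation of `φ` at level `M'` (`L'.tr`). `∏_{g ∈ T} ev (A' Bφ'^i g) = exp (UU (pr A' * (pr Bφ')^i)) = act (φ^i) (exp (UU (pr A')))` (`act_UU'` with `IsTr.pow`) `= exp (UU (pr A' * Bφ^i))` (`act_UU`). `A = pr A'` for some `A'` (`Hx.pr_surj`).
-/

set_option autoImplicit false

open NumberField IsDedekindDomain nonZeroDivisors IntermediateField

namespace Pool.Agent.STs

open Pool.Agent.ST
open Pool.Agent.STr (Lz ev InX UU)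
open Pool.Agent.STc (IsInt rd IsUn)

variable {K : Type*} [Field K] [NumberField K] [Algebra K ℝ] {σ₂ : K →+* ℝ} {n M' M₁ : Ideal (𝓞 K)}
  {R : IntermediateField K ℝ}

omit [Algebra K ℝ] in
/-- the exponential of the sum over the fibre -/
private lemma TA5_exp_UU [Fintype (RayClassGroup σ₂ M')] [DecidableEq (RayClassGroup σ₂ M₁)] (hle : M' ≤ M₁)
    (A : RayClassGroup σ₂ M₁) :
    Real.exp (UU hle A) = ∏ A' ∈ Finset.univ.filter (fun A' : RayClassGroup σ₂ M' => pr σ₂ hle A' = A),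
      ev σ₂ M' A' := by
  have h : UU hle A = ∑ A' ∈ Finset.univ.filter (fun A' : RayClassGroup σ₂ M' => pr σ₂ hle A' = A),
      Lz σ₂ M' A' := by
    have hs : {A' : RayClassGroup σ₂ M' | pr σ₂ hle A' = A} =
        ((Finset.univ.filter (fun A' : RayClassGroup σ₂ M' => pr σ₂ hle A' = A) : Finset _) :
          Set (RayClassGroup σ₂ M')) := by
      ext A'
      simp
    unfold UU
    rw [hs, finsum_mem_coe_finset]
  rw [h, Real.exp_sum]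
  rfl

theorem kolR (hx : Hx σ₂ n) (hM₁ : M₁ ≠ ⊥) (hnM₁ : n ∣ M₁) (hM' : M' ≠ ⊥) (hle : M' ≤ M₁) (hR : AbR R)
    (L₁ : Lw σ₂ M₁ R) (L' : Lw σ₂ M' R) (P : PrI R) {l : ℕ} (hl : l.Prime)
    (hlh : ¬ l ∣ Nat.card (RayClassGroup σ₂ M₁)) (η : RayClassGroup σ₂ M' →* ℂˣ) (hη : η ^ l = 1)
    {τ : R ≃ₐ[K] R} (hτ : ∀ x, IsInt R x → rd P (act τ x) = rd P x) {Bτ : RayClassGroup σ₂ M'}
    (hBτ : IsTr σ₂ M' τ Bτ) (hητ : η Bτ ≠ 1) {φ : R ≃ₐ[K] R} (hφ : IsFrob K P φ) {Bφ : RayClassGroup σ₂ M₁}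
    (hBφ : IsTr σ₂ M₁ φ Bφ) (hU : ∀ A : RayClassGroup σ₂ M₁, PU P (Real.exp (UU hle A)))
    (hlq : l ∣ pn (und K P) - 1) (A : RayClassGroup σ₂ M₁) :
    rl P (∏ i ∈ Finset.range (Nat.card (RayClassGroup σ₂ M₁)), Real.exp (UU hle (A * Bφ ^ i))) ^
      ((pn (und K P) - 1) / l) = 1 := by
  classical
  have hnM' : n ∣ M' := hnM₁.trans (Ideal.dvd_iff_le.2 hle)
  have i1 := hx.finite_cl hM₁ hnM₁
  have i2 := hx.finite_cl hM' hnM'
  have i4 := Fintype.ofFinite (RayClassGroup σ₂ M')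
  obtain ⟨Bφ', hBφ'⟩ := L'.tr φ
  obtain ⟨A', hA'⟩ := hx.pr_surj hM₁ hnM₁ hM' hle A
  obtain ⟨T, hTd⟩ : ∃ T : Finset (RayClassGroup σ₂ M'),
      T = Finset.univ.filter (fun g => pr σ₂ hle g = 1) := ⟨_, rfl⟩
  have hTm : ∀ g, g ∈ T ↔ pr σ₂ hle g = 1 := by
    intro g
    rw [hTd, Finset.mem_filter]
    exact ⟨fun h => h.2, fun h => ⟨Finset.mem_univ _, h⟩⟩
  have hT : ∀ g, g ∈ T ↔ g ∈ (pr σ₂ hle).ker := by
    intro g
    rw [hTm, MonoidHom.mem_ker]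
  have key : ∀ B' : RayClassGroup σ₂ M',
      ∏ g ∈ T, ev σ₂ M' (B' * g) = Real.exp (UU hle (pr σ₂ hle B')) := by
    intro B'
    rw [TA5_exp_UU hle]
    refine Finset.prod_bij (fun g _ => B' * g) ?_ ?_ ?_ ?_
    · intro g hg
      rw [hTm] at hg
      rw [Finset.mem_filter]
      exact ⟨Finset.mem_univ _, by rw [map_mul, hg, mul_one]⟩
    · intro g _ g' _ h
      exact mul_left_cancel h
    · intro C' hC'
      rw [Finset.mem_filter] at hC'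
      refine ⟨B'⁻¹ * C', ?_, mul_inv_cancel_left _ _⟩
      rw [hTm, map_mul, map_inv, hC'.2, inv_mul_cancel]
    · intro g _
      rfl
  have hh : ∀ g : RayClassGroup σ₂ M', g ^ Nat.card (RayClassGroup σ₂ M₁) ∈ (pr σ₂ hle).ker := by
    intro g
    rw [MonoidHom.mem_ker, map_pow, pow_card_eq_one']
  have hη' : ∀ g, η g ^ l = 1 := by
    intro g
    have h1 := DFunLike.congr_fun hη g
    rwa [MonoidHom.pow_apply, MonoidHom.one_apply] at h1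
  have hW : ∀ B' : RayClassGroup σ₂ M', PU P (∏ g ∈ T, ev σ₂ M' (B' * g)) := by
    intro B'
    rw [key]
    exact hU _
  have hk := kol hR P (ev σ₂ M') L'.mem (fun _ => (Pool.Agent.STr.ev_pos _).ne') (pr σ₂ hle).ker hT hl hlh
    hh η hη' hτ hBτ hητ hφ hBφ' hW hlq A'
  have hsame : ∀ i : ℕ, ∏ g ∈ T, ev σ₂ M' (A' * Bφ' ^ i * g) = Real.exp (UU hle (A * Bφ ^ i)) := by
    intro i
    have h1 := (act_UU' hx hM₁ hnM₁ hM' hle L' (IsTr.pow L'.mem hBφ' i) A).2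
    have h2 := (act_UU hx hM₁ hnM₁ hM' hle L₁ (IsTr.pow L₁.mem hBφ i) A).2
    rw [key, map_mul, hA', ← h1, h2]
  rw [Finset.prod_congr rfl fun i _ => hsame i] at hk
  exact hk

end Pool.Agent.STs
end

section

/-!
# TASK TA7a: the congruence at the prime `P₀` of the fixed field

PROOF. `M' = M * (v v')`. Enlarge `R₁`: `R'` with `R₁ ≤ R'`, `AbR R'`, `L' : Lw σ₂ M' R'` (`Hw.exists_ge`). `P` a prime of `R'` over `P₀` (`exists_up`, MP_1ef7cf_nt_c/Red, for `fixL σ ≤ R₁ ≤ R'`), `und K P = v`. `exists_tau` (Tau) for `M' = (M * v') * v` (`hM'`, `mul_comm`), `η`, `A` with `pr A = 1`, `η A ≠ 1`: an inertial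
`τ` at `P` with `η (L'.a τ) ≠ 1` (`L'.a τ` is `L'.Art.symm (res L'.le τ)` by definition). `Bτ` a translation of `τ` (`L'.tr`): `η Bτ = η (L'.a τ) ≠ 1`. `φ` a Frobenius at `P` (`exists_isFrob`); its restriction to `R₁` is a Frobenius at `P₁ = P ∩ R₁` (`isFrob_und`), `und K P₁ = v`, `R₁/K` is unramified at `P₁` (`hun`) and `σ ^ j` is a Frobenius at
`P₁` too, so `res φ = σ ^ j` (`isFrob_unique`), and `IsTr σ₂ M₁ φ (B ^ j)` (`IsTr.res_iff`, `IsTr.pow`). `hU` of `kolR`: `UU (M' → M₁)` is given by `UU_two` (TA3) in terms of `UU hle`, so its exponential is a product of `PU`'s and inverses (`hPU`, `PU.mul`, `PU.inv`). `kolR` with `L₁.mono`, `Bφ = B ^ j`. Finally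
`∏_{i<h} exp (UU (M' → M₁) (A * (B^j)^i)) = exp (∑ ...) = exp (gq ...) = w` by `UU_two`, and `PU.up` (from `P₀` to `P`).
-/

set_option autoImplicit false

open NumberField IsDedekindDomain nonZeroDivisors IntermediateField

namespace Pool.Agent.STs

open Pool.Agent.ST
open Pool.Agent.STr (Lz ev InX UU)
open Pool.Agent.STd (fixL)

variable {K : Type*} [Field K] [NumberField K] [Algebra K ℝ] {σ₂ : K →+* ℝ} {n M M' M₁ : Ideal (𝓞 K)}
  {R₁ : IntermediateField K ℝ}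

theorem rl_one (hw : Hw σ₂ n) (hM₁ : M₁ ≠ ⊥) (hnM₁ : n ∣ M₁) (hM : M ≠ ⊥) (hle : M ≤ M₁) (hR₁ : AbR R₁)
    (L₁ : Lw σ₂ M₁ R₁) {l : ℕ} (hl : l.Prime) (hlh : ¬ l ∣ Nat.card (RayClassGroup σ₂ M₁)) {v v' : PrI K} (hne : v' ≠ v)
    (hv : ¬ v.asIdeal ∣ M) (hv' : ¬ v'.asIdeal ∣ M) (hv₁ : ¬ v.asIdeal ∣ M₁) (hv₁' : ¬ v'.asIdeal ∣ M₁)
    (hM' : M' = M * (v.asIdeal * v'.asIdeal)) (hle' : M' ≤ M * v'.asIdeal)
    (hη : ∃ η : RayClassGroup σ₂ M' →* ℂˣ, η ^ l = 1 ∧ (∃ A, pr σ₂ hle' A = 1 ∧ η A ≠ 1) ∧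
        ∀ (R : IntermediateField K ℝ) (L' : Lw σ₂ M' R) (σ : R ≃ₐ[K] R) (B : RayClassGroup σ₂ M'),
          IsTr σ₂ M' σ B → η B = η (L'.a σ))
    {σ : R₁ ≃ₐ[K] R₁} {B : RayClassGroup σ₂ M₁} (hB : IsTr σ₂ M₁ σ B) {j : ℕ}
    (hun : ∀ Q : PrI R₁, und K Q = v → Algebra.IsUnramifiedAt (𝓞 K) Q.asIdeal)
    (hFr : ∀ Q : PrI R₁, und K Q = v → IsFrob K Q (σ ^ j))
    (hPU : ∀ R' : IntermediateField K ℝ, FiniteDimensional K R' → R₁ ≤ R' → ∀ P : PrI R', und K P = v →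
      ∀ A : RayClassGroup σ₂ M₁, PU P (Real.exp (UU hle A)))
    {P₀ : PrI (fixL σ)} (hP₀ : und K P₀ = v) (hlv : l ∣ pn v - 1) (A : RayClassGroup σ₂ M₁) {w : ℝ}
    (hw' : w = Real.exp (gq (UU hle) (Nat.card (RayClassGroup σ₂ M₁)) (B ^ j) (cls σ₂ M₁ (prJ M₁ v hv₁))
      (cls σ₂ M₁ (prJ M₁ v' hv₁')) A)) (hPw : PU P₀ w) : rl P₀ w ^ ((pn v - 1) / l) = 1 := by
  classical
  have hMv' : M * v'.asIdeal ≠ ⊥ := mul_ne_bot' hM v'.ne_bot
  have hM'' : M' = M * v'.asIdeal * v.asIdeal := by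
    rw [hM', mul_comm v.asIdeal v'.asIdeal, mul_assoc]
  have hM'0 : M' ≠ ⊥ := by
    rw [hM'']
    exact mul_ne_bot' hMv' v.ne_bot
  have hle1 : M' ≤ M₁ := (hle'.trans Ideal.mul_le_left).trans hle
  have hnM' : n ∣ M' := hnM₁.trans (Ideal.dvd_iff_le.2 hle1)
  obtain ⟨R', hRR', hR', ⟨L'⟩⟩ := hw.exists_ge hR₁ hM'0 hnM'
  have i1 := hR'.fd
  have i2 := hR'.gal
  have i3 := hR'.abel
  have i4 := hR₁.fd
  have i5 := hR₁.gal
  have i6 := hR₁.abel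
  have i7 := numberField_of_fd R'
  obtain ⟨P, hP, hPrd, -⟩ := STc.exists_up ((STd.fixL_le σ).trans hRR') P₀
  have hPv : und K P = v := hP.trans hP₀
  obtain ⟨η, hη1, ⟨A₀, hA₀, hηA₀⟩, hη2⟩ := hη
  have hvMv' : ¬ v.asIdeal ∣ M * v'.asIdeal := by
    intro h
    rcases v.prime.dvd_or_dvd h with h | h
    · exact hv h
    · have h5 : v'.asIdeal ≤ v.asIdeal := Ideal.le_of_dvd h
      exact hne (HeightOneSpectrum.ext (v'.isMaximal.eq_of_le v.isPrime.ne_top h5))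
  have i8 := L'.rcf.galois
  obtain ⟨τ, hτ, hητ⟩ := exists_tau hM'' hMv' hvMv' L'.rcf hR' L'.le hPv hle' η hA₀ hηA₀
  obtain ⟨Bτ, hBτ⟩ := L'.tr τ
  have hητ' : η Bτ ≠ 1 := by
    rw [hη2 R' L' τ Bτ hBτ]
    exact hητ
  obtain ⟨φ, hφ⟩ := exists_isFrob (K := K) P
  have hFA : STc.FrobAt v R' φ := by
    rw [← hPv]
    exact STc.frobAt_of_isFrob hφ
  have hres : res hRR' φ = σ ^ j := STc.FrobAt.unique (q := v) hun (hFA.res hRR') hFr
  have hBφ : IsTr σ₂ M₁ φ (B ^ j) := by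
    refine (IsTr.res_iff hRR' L₁.mem).1 ?_
    rw [hres]
    exact IsTr.pow L₁.mem hB j
  have hUU := UU_two hw.toHx hM₁ hnM₁ hM hle hne hv hv' hM' hle1 hv₁ hv₁'
  have hPU' := hPU R' i1 hRR' P hPv
  have hU : ∀ A : RayClassGroup σ₂ M₁, PU P (Real.exp (UU hle1 A)) := by
    intro A
    rw [hUU, Real.exp_add, Real.exp_sub, Real.exp_sub, div_eq_mul_inv, div_eq_mul_inv]
    exact (((hPU' _).mul (hPU' _).inv).mul (hPU' _).inv).mul (hPU' _)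
  have key := kolR hw.toHx hM₁ hnM₁ hM'0 hle1 hR' (L₁.mono hRR' hR₁) L' P hl hlh η hη1 hτ hBτ
    hητ' hφ hBφ hU (by rw [hPv]; exact hlv) A
  have hprod : ∏ i ∈ Finset.range (Nat.card (RayClassGroup σ₂ M₁)),
      Real.exp (UU hle1 (A * (B ^ j) ^ i)) = w := by
    rw [hw', gq, ← Real.exp_sum]
    congr 1
    exact Finset.sum_congr rfl fun i _ => hUU _
  rw [hprod, hPv] at key
  exact ((hPw.up ((STd.fixL_le σ).trans hRR') hPrd).2 _).1 key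

end Pool.Agent.STs
end

section

/-!
# TASK TA7b: the level `M` and the wild twist `κ₃`

PROOF. `stepA` (G1s) for `κ` at `M₁` with `r`, `q` and `I₀ = 1`: `t ≥ 2`, `i ≥ 1`, `η₀`, `η` (`NT (r^t) η₀ η`), `M = M₁ * (r)^t`, `κ₃ = κ ∘ pr * η` in `X`. `AK σ₂ M d a (N₂ * r ^ t) κ₃`: `AK.lift` of `hκ` (a prime `q'` dividing `M` and not `M₁` is `q`: `hκq`), then `AK.twist` with `N' = r^t`
(`M₁ ≤ (N₂)`, so `M ≤ (N₂ * r^t)`; a prime containing `r ^ t` contains `r`, so it is `q`, which divides `M`). `InX (UU hle) χ`: `InX_lift` for `χ` (`hχq`) and `SS_UU`.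
`κ₃ [v] ≠ 1`: `twist_ne` (nt_r/G2; `a = orderOf κ`, not divisible by `r` since `0 < orderOf κ < r`), `pn v` is prime to `r` (`r ∣ pn v - 1`); `η₀ (pn v) ≠ 1` by `wild_ne` (nt_r/N4b): `pn v = 1 + r u`, `¬ r ∣ u`, `(pn v)^(r-1) - 1 = (r - 1) r u mod r^2` is not divisible by `r^2`, so not by `r^(i+1)`.
-/

set_option autoImplicit false

open NumberField IsDedekindDomain nonZeroDivisors IntermediateField

namespace Pool.Agent.STs

open Pool.Agent.ST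
open Pool.Agent.STr (Lz ev InX UU NT)
open Pool.Agent.STh.F (FD Lf se)

variable {K : Type*} [Field K] [NumberField K] [Algebra K ℝ] {σ₂ : K →+* ℝ} {n M₁ : Ideal (𝓞 K)} {d : ℕ} {a : 𝓞 K}

private lemma TA7b_val {r i y : ℕ} (hr : r.Prime) (hi : 1 ≤ i) (hy : 1 ≤ y) (h1 : r ∣ y - 1)
    (h2 : ¬ r ^ 2 ∣ y - 1) : ¬ ((r : ℤ) ^ (i + 1) ∣ (y : ℤ) ^ (r - 1) - 1) := by
  intro h
  obtain ⟨u, hu⟩ := h1
  have hyu : (y : ℤ) = 1 + r * u := by
    have h3 : y = 1 + r * u := by omega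
    rw [h3]
    push_cast
    ring
  have key : ∀ k : ℕ, ∃ c : ℤ, (y : ℤ) ^ k = 1 + k * (r * u) + r ^ 2 * c := by
    intro k
    induction k with
    | zero => exact ⟨0, by simp⟩
    | succ k ih =>
      obtain ⟨c, hc⟩ := ih
      refine ⟨c * (1 + r * u) + k * u ^ 2, ?_⟩
      rw [pow_succ, hc, hyu]
      push_cast
      ring
  obtain ⟨c, hc⟩ := key (r - 1)
  have h3 : (r : ℤ) ^ 2 ∣ (y : ℤ) ^ (r - 1) - 1 := (pow_dvd_pow _ (by omega)).trans h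
  have h4 : (r : ℤ) ^ 2 ∣ ((r - 1 : ℕ) : ℤ) * (r * u) := by
    have h5 : ((r - 1 : ℕ) : ℤ) * (r * u) = ((y : ℤ) ^ (r - 1) - 1) - r ^ 2 * c := by
      rw [hc]
      ring
    rw [h5]
    exact dvd_sub h3 (dvd_mul_right _ _)
  have hco : IsCoprime ((r : ℤ) ^ 2) ((r - 1 : ℕ) : ℤ) := by
    apply IsCoprime.pow_left
    refine ⟨1, -1, ?_⟩
    have := hr.one_lt
    push_cast [Nat.cast_sub hr.one_lt.le]
    ring
  have h6 : (r : ℤ) ^ 2 ∣ (r * u : ℤ) := hco.dvd_of_dvd_mul_left h4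
  apply h2
  rw [hu]
  exact_mod_cast h6

theorem exists_k3 (hw : Hw σ₂ n) (hM₁ : M₁ ≠ ⊥) (hnM₁ : n ∣ M₁) {N₂ : ℕ}
    {κ : RayClassGroup σ₂ M₁ →* ℂˣ} (hκ : AK σ₂ M₁ d a N₂ κ) {χ : RayClassGroup σ₂ M₁ →* ℂˣ}
    (hχ : InX (Lz σ₂ M₁) χ) {r : ℕ} (hr : r.Prime) (hr2 : r ≠ 2) (hrκ : orderOf κ < r) {q : PrI K}
    (hqr : q.asIdeal = Ideal.span {(r : 𝓞 K)}) (hq : ¬ q.asIdeal ∣ M₁)
    (hχq : χ (cls σ₂ M₁ (prJ M₁ q hq)) ≠ 1) (hκq : κ (cls σ₂ M₁ (prJ M₁ q hq)) ≠ 1) :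
    ∃ (M : Ideal (𝓞 K)) (hle : M ≤ M₁) (N₃ : ℕ) (κ₃ : RayClassGroup σ₂ M →* ℂˣ), M ≠ ⊥ ∧ AK σ₂ M d a N₃ κ₃ ∧
      InX (UU hle) χ ∧ ∀ (v : PrI K) (hv : ¬ v.asIdeal ∣ M), r ∣ pn v - 1 → ¬ r ^ 2 ∣ pn v - 1 →
        κ₃ (cls σ₂ M (prJ M v hv)) ≠ 1 := by
  have hx := hw.toHx
  have f0 := hx.finite_cl hM₁ hnM₁
  have := Pool.Agent.STr.finite_dual (RayClassGroup σ₂ M₁)
  have hord : 0 < orderOf κ := orderOf_pos κ
  have hrκ' : ¬ r ∣ orderOf κ := fun h => by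
    have := Nat.le_of_dvd hord h
    omega
  obtain ⟨t, i, hle, η₀, η, -, hi, ht, ho, hn1, hNT, hX⟩ := stepA hw hM₁ hnM₁ hκ.inX hr hr2 hqr hq hκq 1
  have hs : Ideal.span {(r : 𝓞 K)} ≠ ⊥ := by rw [← hqr]; exact q.ne_bot
  have hM : M₁ * Ideal.span {(r : 𝓞 K)} ^ t ≠ ⊥ := mul_ne_bot' hM₁ (pow_ne_zero _ hs)
  have hnM : n ∣ M₁ * Ideal.span {(r : 𝓞 K)} ^ t := hnM₁.trans (Dvd.intro _ rfl)
  have hnew : ∀ v : PrI K, ¬ v.asIdeal ∣ M₁ → v.asIdeal ∣ M₁ * Ideal.span {(r : 𝓞 K)} ^ t → v = q := by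
    intro v hv hvM
    rcases v.prime.dvd_or_dvd hvM with h | h
    · exact absurd h hv
    · have h2 := v.prime.dvd_of_dvd_pow h
      rw [← hqr] at h2
      exact eq_of_dvd_prime h2
  have hspan : Ideal.span {(r : 𝓞 K)} ^ t = Ideal.span {((r ^ t : ℕ) : 𝓞 K)} := by
    rw [Ideal.span_singleton_pow, Nat.cast_pow]
  have hleN : M₁ * Ideal.span {(r : 𝓞 K)} ^ t ≤ Ideal.span {((N₂ * r ^ t : ℕ) : 𝓞 K)} := by
    rw [hspan]
    push_cast
    rw [← Ideal.span_singleton_mul_span_singleton]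
    exact Ideal.mul_mono_left hκ.le
  have hab : ∀ v : PrI K, ((r ^ t : ℕ) : 𝓞 K) ∈ v.asIdeal → v.asIdeal ∣ M₁ * Ideal.span {(r : 𝓞 K)} ^ t := by
    intro v hv
    rw [Nat.cast_pow] at hv
    have h6 := v.isPrime.mem_of_pow_mem _ hv
    have h7 : v.asIdeal ∣ Ideal.span {(r : 𝓞 K)} := by
      rw [Ideal.dvd_iff_le, Ideal.span_singleton_le_iff_mem]
      exact h6
    exact (h7.trans (dvd_pow_self _ (by omega))).trans (Dvd.intro_left _ rfl)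
  have hl : AK σ₂ (M₁ * Ideal.span {(r : 𝓞 K)} ^ t) d a N₂ (κ.comp (pr σ₂ hle)) := by
    refine hκ.lift hx hM₁ hnM₁ hM hle fun v hv hvM => ?_
    have h1 := hnew v hv hvM
    subst h1
    exact hκq
  have hAK := hl.twist hx hM hnM (pow_ne_zero _ hr.ne_zero) hleN hab hn1 hNT hX
  refine ⟨M₁ * Ideal.span {(r : 𝓞 K)} ^ t, hle, N₂ * r ^ t, κ.comp (pr σ₂ hle) * η, hM, hAK, ?_, ?_⟩
  · obtain ⟨c, hc⟩ : InX (Lz σ₂ (M₁ * Ideal.span {(r : 𝓞 K)} ^ t)) (χ.comp (pr σ₂ hle)) := by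
      refine InX_lift hx hM₁ hnM₁ hM hle hχ fun v hv hvM => ?_
      have h1 := hnew v hv hvM
      subst h1
      exact hχq
    exact ⟨c, by rw [SS_UU hx hM₁ hnM₁ hM hle]; exact hc⟩
  · intro v hv hr1 hr22
    have h2v := two_le_pn v
    have hyr : (pn v).Coprime r := by
      rw [Nat.coprime_comm, hr.coprime_iff_not_dvd]
      intro h
      have h3 : r ∣ 1 := by
        have h4 := (Nat.dvd_sub h hr1)
        have h5 : pn v - (pn v - 1) = 1 := by omega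
        rwa [h5] at h4
      exact hr.one_lt.ne' (Nat.dvd_one.1 h3)
    have hc : (pn v).Coprime (r ^ t) := hyr.pow_right t
    refine Pool.Agent.STr.twist_ne hr hle (pow_orderOf_eq_one κ) hrκ' ho hNT hv hc ?_
    refine Pool.Agent.STr.wild_ne hr hr2 ho hc hyr ?_
    exact TA7b_val hr hi (by omega) hr1 hr22

end Pool.Agent.STs
end
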