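import Pool.Agent.Lib.MP_1ef7cf_nt_s.TA1
import Pool.Agent.Lib.MP_1ef7cf_nt_s.Mg.G006
import Pool.Agent.Lib.MP_1ef7cf_nt_s.TA7c
import Pool.Agent.Lib.MP_1ef7cf_nt_s.Mg.G004
import Pool.Agent.Lib.MP_1ef7cf_nt_s.Mg.G007
import Pool.Agent.Lib.MP_1ef7cf_nt_r.A5
import Pool.Agent.Lib.MP_1ef7cf_nt_s.Mg.G002
import Pool.Agent.Lib.MP_1ef7cf_nt_r.Mg.G029
import Pool.Agent.Lib.MP_1ef7cf_nt_s.N8
import Pool.Agent.Lib.MP_1ef7cf_nt_r.Mg.G031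

section

/-!
# TASK TA7: `Φ` trivial at `σ` implies `χ ∘ a` trivial at `σ`, for `σ` of prime power order

`M₁` the level, `R₁ ⊇ H_{M₁}, H_{M₀}`, `M₀ ≤ (N₀) ≤ M₁`, `4 ∣ N₀`; `B` a translation of `σ` at level `M₁`, `χ B = 1`. Claim: `χ C = 1` where `C = L₁.a σ`.

PROOF. Suppose `χ C ≠ 1`. `C₀ = L₀.a σ`, `pr C₀ = C` (`Lw.a_pr`). `c` with `IsC σ₂ M₁ c` (`exists_isC`), `χ c = -1` (`InX.neg_one` with `Hx.Lz_c`). `exists_sign` (TA1) with `z = χ C`: `s`, `X`, `χ X ≠ χ C`. `select` (SG) for `R₁`, `σ`, `s`: `r₀`. `hr3` with `b ≥ r₀, 2, orderOf κ`: `r`, `q`.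
`exists_k3` (TA7b): `M`, `hle`, `N₃`, `κ₃`. `U = UU hle`, `h = Nat.card (RayClassGroup σ₂ M₁)`. For `j < 2 * orderOf σ`, `j` prime to `orderOf σ` and odd if `s = 3`, let `D_j = X^j * (C^j)⁻¹`, `g_j(A) = gq U h (B^j) (C^j) D_j A`. `gq_ne` (TA2): `χ (B^j) = 1`; `χ (C^j) ≠ 1` (`pow_ne_one_of_cop`, TA7c: `C ^ orderOf σ = 1`);
`χ D_j = (χ X / χ C)^j ≠ 1` (`C₀ ^ orderOf σ = 1`, so `X ^ (2 * orderOf σ) = 1`, and `X ^ orderOf σ = 1` if `s = 1`; `j` is prime to `2 * orderOf σ` if `s = 3`). So there is `A_j` with `g_j(A_j) ≠ 0`; for the other `j` take `A_j = 1`. `W` = the finite set of the numbers `w_j = exp (g_j(A_j))`, `j` admissible: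
`w_j ∈ R₁`, `act σ w_j = w_j` (`gq_fix`, TA7c), `w_j > 0`, `w_j ≠ 1`. `l` a prime larger than the `l₀` of `select` (for `r`, `W`), the `l₀` of `exists_eta` (TA6, for `κ₃` at `M`) and `h` (so `¬ l ∣ h`; `h > 0`).
`B₀` = the finite set of the primes `v` of `K` which contain the integer `2 * d * absNorm M * absNorm M₀` (nonzero), or over which `R₁/K` is ramified (`finite_ramified`, cf. nt_r/E5), or over which some `exp (U A)` is not `PU` (`PU_of_finite`, Rl, for `R₁`), or some `w_j` is not `PU` (`PU_of_finite` for the field `fixL σ`, `AbR.of_le`).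
`select`: `v`, `j`, `P₀`. `p = pn v` prime; `¬ p ∣ 2 * d`, `v ∤ M, M₀, M₁` (`absNorm M ∈ M`). `exists_conj` (TA3): `v'`; `v' ∤ M` (otherwise `absNorm M ∈ v' ∩ ℤ = (p) ⊆ v`), the same for `M₁ ∣ M` (or `v' ∣ M₁ ∣ M`). `cls_frob` (TA7c): `[v]_{M₀} = C₀^j`, so `[v]_{M₁} = C^j` (`pr_cls`) and by TA1 `[v'] = X^j (C^j)⁻¹ = D_j`.
`κ₃ [v] ≠ 1`, `κ₃ [v'] ≠ 1` (TA7b, `pn v' = pn v`). `exists_eta` for `M' = M * (v v')`. `rl_one` (TA7a) with `A = A_j`, `w = w_j`: `rl P₀ w_j ^ ((p-1)/l) = 1`, contradiction to `select`.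
-/

set_option autoImplicit false

open NumberField IsDedekindDomain nonZeroDivisors IntermediateField

namespace Pool.Agent.STs

open Pool.Agent.ST
open Pool.Agent.STr (Lz ev InX UU)
open Pool.Agent.STd (fixL)
open Pool.Agent.STh.F (FD Lf se)

variable {K : Type*} [Field K] [NumberField K] [Algebra K ℝ] {σ₂ : K →+* ℝ} {n M₀ M₁ : Ideal (𝓞 K)} {d : ℕ} {a : 𝓞 K}
  {R₁ : IntermediateField K ℝ}

omit [NumberField K] [Algebra K ℝ] in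
/-- a prime number in two ideals -/
private lemma TA7_cop {v v' : Ideal (𝓞 K)} (hv' : v'.IsPrime) {p N : ℕ} (hp : p.Prime) (h1 : (p : 𝓞 K) ∈ v)
    (h2 : (p : 𝓞 K) ∈ v') (hN : (N : 𝓞 K) ∉ v) : (N : 𝓞 K) ∉ v' := by
  intro h3
  have h4 : ¬ p ∣ N := by
    rintro ⟨t, rfl⟩
    apply hN
    push_cast
    exact v.mul_mem_right _ h1
  have h5 : IsCoprime (p : ℤ) (N : ℤ) := Nat.isCoprime_iff_coprime.2 ((Nat.Prime.coprime_iff_not_dvd hp).2 h4)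
  obtain ⟨x, y, hxy⟩ := h5
  apply hv'.ne_top
  rw [Ideal.eq_top_iff_one]
  have h6 : (1 : 𝓞 K) = (x : 𝓞 K) * ((p : ℕ) : 𝓞 K) + (y : 𝓞 K) * ((N : ℕ) : 𝓞 K) := by
    have := congrArg (Int.cast : ℤ → 𝓞 K) hxy
    push_cast at this
    exact this.symm
  rw [h6]
  exact v'.add_mem (v'.mul_mem_left _ h2) (v'.mul_mem_left _ h3)

/-- the bad primes for a finite set of numbers -/
private lemma TA7_bad {F : IntermediateField K ℝ} (hF : AbR F) {ι : Type*} (s : Finset ι) (f : ι → ℝ)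
    (hf : ∀ i ∈ s, f i ∈ F ∧ f i ≠ 0) : ∃ B : Set (PrI K), B.Finite ∧ ∀ i ∈ s,
      ∀ R : IntermediateField K ℝ, FiniteDimensional K R → F ≤ R → ∀ P : PrI R, und K P ∉ B → PU P (f i) := by
  have h1 : ∀ i : ι, ∃ B : Set (PrI K), B.Finite ∧ (i ∈ s →
      ∀ R : IntermediateField K ℝ, FiniteDimensional K R → F ≤ R → ∀ P : PrI R, und K P ∉ B → PU P (f i)) := by
    intro i
    by_cases hi : i ∈ s
    · obtain ⟨B, hB, h⟩ := PU_of_finite hF (hf i hi).1 (hf i hi).2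
      exact ⟨B, hB, fun _ => h⟩
    · exact ⟨∅, Set.finite_empty, fun h => absurd h hi⟩
  choose B hB h using h1
  refine ⟨⋃ i ∈ s, B i, s.finite_toSet.biUnion fun i _ => hB i, ?_⟩
  intro i hi R hR hle P hP
  apply h i hi R hR hle P
  intro h2
  apply hP
  exact Set.mem_biUnion (show i ∈ (s : Set ι) from hi) h2

theorem thmA_pp (hw : Hw σ₂ n) (D : FD σ₂ d a) (hM₁ : M₁ ≠ ⊥) (hnM₁ : n ∣ M₁) {N₂ : ℕ}
    {κ : RayClassGroup σ₂ M₁ →* ℂˣ} (hκ : AK σ₂ M₁ d a N₂ κ) (hR₁ : AbR R₁) (L₁ : Lw σ₂ M₁ R₁)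
    (hM₀ : M₀ ≠ ⊥) {N₀ : ℕ} (hN₀ : N₀ ≠ 0) (h4 : 4 ∣ N₀) (h01 : Ideal.span {(N₀ : 𝓞 K)} ≤ M₁)
    (h00 : M₀ ≤ Ideal.span {(N₀ : 𝓞 K)}) (L₀ : Lw σ₂ M₀ R₁) {χ : RayClassGroup σ₂ M₁ →* ℂˣ}
    (hχ : InX (Lz σ₂ M₁) χ)
    (hr3 : ∀ b : ℕ, ∃ (r : ℕ) (q : PrI K) (hq : ¬ q.asIdeal ∣ M₁), r.Prime ∧ b < r ∧
      q.asIdeal = Ideal.span {(r : 𝓞 K)} ∧ χ (cls σ₂ M₁ (prJ M₁ q hq)) ≠ 1 ∧ κ (cls σ₂ M₁ (prJ M₁ q hq)) ≠ 1)
    {σ : R₁ ≃ₐ[K] R₁} {p₀ a₀ : ℕ} (hp₀ : p₀.Prime) (hσ : orderOf σ = p₀ ^ a₀) {B : RayClassGroup σ₂ M₁}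
    (hB : IsTr σ₂ M₁ σ B) (hχB : χ B = 1) : χ (L₁.a σ) = 1 := by
  classical
  by_contra hχC
  have hx := hw.toHx
  have hle₀ : M₀ ≤ M₁ := h00.trans h01
  have hnM₀ : n ∣ M₀ := hnM₁.trans (Ideal.dvd_iff_le.2 hle₀)
  have i0 := hx.finite_cl hM₀ hnM₀
  have i1 := hx.finite_cl hM₁ hnM₁
  have i2 := Fintype.ofFinite (RayClassGroup σ₂ M₁)
  have hfin := hR₁.finite
  have hfd := hR₁.fd
  have hnf := hR₁.numberField
  obtain ⟨C, hC⟩ : ∃ C, C = L₁.a σ := ⟨_, rfl⟩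
  obtain ⟨C₀, hC₀⟩ : ∃ C₀, C₀ = L₀.a σ := ⟨_, rfl⟩
  rw [← hC] at hχC
  have hprC : pr σ₂ hle₀ C₀ = C := by
    rw [hC₀, hC]
    exact L₁.a_pr L₀ hle₀ hM₀ σ
  have hCo : C ^ orderOf σ = 1 := by rw [hC, ← map_pow, pow_orderOf_eq_one, map_one]
  have hC₀o : C₀ ^ orderOf σ = 1 := by rw [hC₀, ← map_pow, pow_orderOf_eq_one, map_one]
  obtain ⟨c, hc⟩ := exists_isC (σ₂ := σ₂) hM₁
  have hχc : χ c = -1 := Pool.Agent.STr.InX.neg_one hχ (fun A => hx.Lz_c hM₁ hnM₁ hc A)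
  obtain ⟨s, X, hs, hXz, hX3, hX4, hX5⟩ := exists_sign hx.h2 hM₀ hN₀ h4 h01 h00 hc hχc C₀ (χ C)
  obtain ⟨r₀, hsel⟩ := select hR₁ σ hp₀ hσ hs
  obtain ⟨r, q, hq, hr, hbr, hqr, hχq, hκq⟩ := hr3 (max r₀ (max 2 (orderOf κ)))
  have hr₀ : r₀ < r := lt_of_le_of_lt (le_max_left _ _) hbr
  have hr2 : r ≠ 2 := (lt_of_le_of_lt ((le_max_left _ _).trans (le_max_right _ _)) hbr).ne'
  have hrκ : orderOf κ < r := lt_of_le_of_lt ((le_max_right _ _).trans (le_max_right _ _)) hbr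
  obtain ⟨M, hle, N₃, κ₃, hM, hκ₃, hU, hκ₃v⟩ := exists_k3 hw hM₁ hnM₁ hκ hχ hr hr2 hrκ hqr hq hχq hκq
  have hnM : n ∣ M := hnM₁.trans (Ideal.dvd_iff_le.2 hle)
  obtain ⟨h, hh⟩ : ∃ h, h = Nat.card (RayClassGroup σ₂ M₁) := ⟨_, rfl⟩
  have hh0 : h ≠ 0 := by
    rw [hh]
    exact Nat.card_pos.ne'
  obtain ⟨D', hD'⟩ : ∃ D' : ℕ → RayClassGroup σ₂ M₁, D' = fun j => X ^ j * (C ^ j)⁻¹ := ⟨_, rfl⟩
  -- nonvanishing
  have hne : ∀ j : ℕ, ∃ A, j.Coprime (orderOf σ) → (s = 3 → Odd j) →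
      gq (UU hle) h (B ^ j) (C ^ j) (D' j) A ≠ 0 := by
    intro j
    by_cases hj : j.Coprime (orderOf σ) ∧ (s = 3 → Odd j)
    · obtain ⟨hj1, hj2⟩ := hj
      have e1 : χ (B ^ j) = 1 := by rw [map_pow, hχB, one_pow]
      have e2 : χ (C ^ j) ≠ 1 := by
        rw [map_pow]
        refine pow_ne_one_of_cop (k := orderOf σ) hχC ?_ hj1
        rw [← map_pow, hCo, map_one]
      have e3 : χ (D' j) ≠ 1 := by
        have e4 : χ (D' j) = (χ X * (χ C)⁻¹) ^ j := by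
          rw [hD']
          simp only [map_mul, map_pow, map_inv, mul_pow, inv_pow]
        have e5 : χ X * (χ C)⁻¹ ≠ 1 := by
          intro h
          exact hXz (mul_inv_eq_one.1 h)
        rw [e4]
        rcases hs with hs1 | hs3
        · refine pow_ne_one_of_cop (k := orderOf σ) e5 ?_ hj1
          rw [mul_pow, inv_pow, ← map_pow, ← map_pow, hX5 hs1 _ hC₀o, hCo, map_one, inv_one, mul_one]
        · refine pow_ne_one_of_cop (k := 2 * orderOf σ) e5 ?_ ?_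
          · rw [mul_pow, inv_pow, ← map_pow, ← map_pow, hX4 _ hC₀o, mul_comm 2, pow_mul C, hCo, one_pow, map_one,
              inv_one, mul_one]
          · exact Nat.Coprime.mul_right ((Nat.coprime_two_right).2 (hj2 hs3)) hj1
      obtain ⟨A, hA⟩ := gq_ne hU hh0 e1 e2 e3
      exact ⟨A, fun _ _ => hA⟩
    · exact ⟨1, fun h1 h2 => absurd ⟨h1, h2⟩ hj⟩
  choose A hA using hne
  obtain ⟨w, hwd⟩ : ∃ w : ℕ → ℝ, w = fun j => Real.exp (gq (UU hle) h (B ^ j) (C ^ j) (D' j) (A j)) := ⟨_, rfl⟩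
  obtain ⟨T, hT⟩ : ∃ T : Finset ℕ, T = (Finset.range (2 * orderOf σ)).filter
      (fun j => j.Coprime (orderOf σ) ∧ (s = 3 → Odd j)) := ⟨_, rfl⟩
  have hTm : ∀ j, j ∈ T ↔ j < 2 * orderOf σ ∧ j.Coprime (orderOf σ) ∧ (s = 3 → Odd j) := by
    intro j
    rw [hT, Finset.mem_filter, Finset.mem_range]
  have hwT : ∀ j ∈ T, w j ∈ R₁ ∧ act σ (w j) = w j ∧ 0 < w j ∧ w j ≠ 1 := by
    intro j hj
    obtain ⟨-, hj1, hj2⟩ := (hTm j).1 hj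
    obtain ⟨g1, g2⟩ := gq_fix hx hM₁ hnM₁ hM hle hR₁ L₁ hB hj1 (C ^ j) (D' j) (A j)
    rw [← hh] at g1 g2
    rw [hwd]
    refine ⟨g1, g2, Real.exp_pos _, ?_⟩
    intro h
    exact hA j hj1 hj2 (Real.exp_eq_one_iff _ |>.1 h)
  obtain ⟨l₀, hl₀⟩ := hsel r hr hr₀ (T.image w) (by
    intro x hx
    obtain ⟨j, hj, rfl⟩ := Finset.mem_image.1 hx
    exact hwT j hj)
  obtain ⟨l₁, hl₁⟩ := exists_eta hw D hM hnM hκ₃
  obtain ⟨l, hll, hl⟩ := Nat.exists_infinite_primes (max l₀ (max l₁ h) + 1)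
  have hll₀ : l₀ < l := lt_of_lt_of_le (Nat.lt_succ_of_le (le_max_left _ _)) hll
  have hll₁ : l₁ < l := lt_of_lt_of_le (Nat.lt_succ_of_le ((le_max_left _ _).trans (le_max_right _ _))) hll
  have hlh' : h < l := lt_of_lt_of_le (Nat.lt_succ_of_le ((le_max_right _ _).trans (le_max_right _ _))) hll
  have hlh : ¬ l ∣ h := fun h' => absurd (Nat.le_of_dvd (Nat.pos_of_ne_zero hh0) h') (not_le.2 hlh')
  -- the bad primes
  have hd0 : d ≠ 0 := by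
    rintro rfl
    exact D.nsq ⟨0, rfl⟩
  obtain ⟨N, hN⟩ : ∃ N : ℕ, N = 2 * d * (Ideal.absNorm M * Ideal.absNorm M₀) := ⟨_, rfl⟩
  have hN0 : N ≠ 0 := by
    rw [hN]
    refine mul_ne_zero (mul_ne_zero two_ne_zero hd0) (mul_ne_zero ?_ ?_)
    · rw [Ne, Ideal.absNorm_eq_zero_iff]
      exact hM
    · rw [Ne, Ideal.absNorm_eq_zero_iff]
      exact hM₀
  have hNs : Ideal.span {(N : 𝓞 K)} ≠ ⊥ := by
    rw [Ne, Ideal.span_singleton_eq_bot]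
    exact_mod_cast hN0
  obtain ⟨B₂, hB₂, hB₂'⟩ := TA7_bad hR₁ (Finset.univ : Finset (RayClassGroup σ₂ M₁)) (fun A => Real.exp (UU hle A))
    (fun A _ => ⟨(act_UU hx hM₁ hnM₁ hM hle L₁ hB A).1, Real.exp_ne_zero _⟩)
  obtain ⟨B₃, hB₃, hB₃'⟩ := TA7_bad (hR₁.of_le (Pool.Agent.STd.fixL_le σ)) T w (fun j hj => by
    obtain ⟨g1, g2, g3, -⟩ := hwT j hj
    refine ⟨?_, g3.ne'⟩
    rw [Pool.Agent.STd.mem_fixL σ g1]
    apply Subtype.ext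
    rw [act_of_mem _ g1] at g2
    exact g2)
  obtain ⟨v, j, P₀, hvB, hp, hps, hlp, hrp, hrp2, hj1, hj2, hj3, hFr, hP₀, hsw⟩ := hl₀ l hl hll₀
    ({v : PrI K | v.asIdeal ∣ Ideal.span {(N : 𝓞 K)}} ∪
      ((und K) '' {P : PrI R₁ | ¬ Algebra.IsUnramifiedAt (𝓞 K) P.asIdeal}) ∪ (B₂ ∪ B₃))
    (((finite_dvd hNs).union ((finite_ramified K).image _)).union (hB₂.union hB₃))
  have hv1 : (N : 𝓞 K) ∉ v.asIdeal := fun h => hvB (Or.inl (Or.inl (Ideal.dvd_span_singleton.2 h)))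
  have hun : ∀ Q : PrI R₁, und K Q = v → Algebra.IsUnramifiedAt (𝓞 K) Q.asIdeal := by
    intro Q hQ
    by_contra hcon
    exact hvB (Or.inl (Or.inr ⟨Q, hcon, hQ⟩))
  have hv2 : v ∉ B₂ := fun h => hvB (Or.inr (Or.inl h))
  have hv3 : v ∉ B₃ := fun h => hvB (Or.inr (Or.inr h))
  have hpv : ((pn v : ℕ) : 𝓞 K) ∈ v.asIdeal := Ideal.absNorm_mem v.asIdeal
  have hpd : ¬ pn v ∣ 2 * d := by
    rintro ⟨t, ht⟩
    apply hv1
    rw [hN, ht]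
    push_cast
    rw [mul_assoc]
    exact v.asIdeal.mul_mem_right _ hpv
  have hvMn : ((Ideal.absNorm M : ℕ) : 𝓞 K) ∉ v.asIdeal := by
    intro h
    apply hv1
    rw [hN]
    push_cast
    exact v.asIdeal.mul_mem_left _ (v.asIdeal.mul_mem_right _ h)
  have hvM : ¬ v.asIdeal ∣ M := fun h => hvMn (Ideal.le_of_dvd h (Ideal.absNorm_mem M))
  have hvM₀ : ¬ v.asIdeal ∣ M₀ := by
    intro h
    apply hv1
    rw [hN]
    push_cast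
    exact v.asIdeal.mul_mem_left _ (v.asIdeal.mul_mem_left _ (Ideal.le_of_dvd h (Ideal.absNorm_mem M₀)))
  have hvM₁ : ¬ v.asIdeal ∣ M₁ := not_dvd_of_le hle hvM
  obtain ⟨v', hne, hvv, hpv'⟩ := exists_conj hx.h2 D hp hpd
  have hpv'' : ((pn v : ℕ) : 𝓞 K) ∈ v'.asIdeal := by
    have h1 : Ideal.span {((pn v : ℕ) : 𝓞 K)} ≤ v'.asIdeal := by
      rw [← hvv]
      exact Ideal.mul_le_right
    exact h1 (Ideal.mem_span_singleton_self _)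
  have hv'M : ¬ v'.asIdeal ∣ M := fun h =>
    TA7_cop v'.isPrime hp hpv hpv'' hvMn (Ideal.le_of_dvd h (Ideal.absNorm_mem M))
  have hv'M₁ : ¬ v'.asIdeal ∣ M₁ := not_dvd_of_le hle hv'M
  -- the classes
  have hcl₀ : cls σ₂ M₀ (prJ M₀ v hvM₀) = C₀ ^ j := by
    rw [hC₀]
    exact cls_frob hR₁ L₀ hvM₀ hFr
  have hcl : cls σ₂ M₁ (prJ M₁ v hvM₁) = C ^ j := by
    have h1 : pr σ₂ hle₀ (cls σ₂ M₀ (prJ M₀ v hvM₀)) = cls σ₂ M₁ (prJ M₁ v hvM₁) := by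
      rw [pr_cls]
      congr 1
    rw [← h1, hcl₀, map_pow, hprC]
  have hcl' : cls σ₂ M₁ (prJ M₁ v' hv'M₁) = D' j := by
    have h1 := hX3 v v' j hvM₀ hvM₁ hv'M₁ hcl₀ hp hps hj3 hvv
    rw [hcl] at h1
    rw [hD']
    show _ = X ^ j * (C ^ j)⁻¹
    rw [← h1, mul_comm (C ^ j), mul_inv_cancel_right]
  -- the twist at the two primes
  have hk1 := hκ₃v v hvM hrp hrp2
  have hk2 := hκ₃v v' hv'M (by rw [hpv']; exact hrp) (by rw [hpv']; exact hrp2)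
  obtain ⟨M', hM'⟩ : ∃ M' : Ideal (𝓞 K), M' = M * (v.asIdeal * v'.asIdeal) := ⟨_, rfl⟩
  have hle' : M' ≤ M * v'.asIdeal := by
    rw [hM']
    exact Ideal.mul_mono le_rfl Ideal.mul_le_right
  have hη := hl₁ l hl hll₁ v v' hp hpd hne hvv hpv' hvM hv'M hk1 hk2 hlp M' hM' hle'
  have hjT : j ∈ T := (hTm j).2 ⟨hj1, hj2, hj3⟩
  refine hsw (w j) (Finset.mem_image_of_mem _ hjT) ?_
  refine rl_one hw hM₁ hnM₁ hM hle hR₁ L₁ hl (by rw [← hh]; exact hlh) hne hvM hv'M hvM₁ hv'M₁ hM' hle' hη hB hun hFr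
    ?_ hP₀ hlp (A j) ?_ ?_
  · intro R' hR' hRR P hP A
    exact hB₂' A (Finset.mem_univ _) R' hR' hRR P (by rw [hP]; exact hv2)
  · rw [hcl, hcl', ← hh, hwd]
  · exact hB₃' j hjT (fixL σ) (hR₁.of_le (Pool.Agent.STd.fixL_le σ)).fd le_rfl P₀ (by rw [hP₀]; exact hv3)

end Pool.Agent.STs
end

section

/-!
# TASK TA8: theorem A: `Φ` and `χ ∘ a` have the same kernel

PROOF. `N₀ = 4 * absNorm M₁` (`absNorm M₁ ∈ M₁`, so `(N₀) ≤ M₁`), `M₀ = M₁ * (N₀)`. `Hw.exists_ge` (X1): `R' ≥ R`, `AbR R'`, `L₀ : Lw σ₂ M₀ R'`; `L₁ = L.mono hle hR'`. `Φ' = Φ ∘ res : Gal(R'/K) → ℂˣ`; `IsPh χ Φ'` (`IsTr.res_iff`) and `L₁.a = L.a ∘ res` (`Lw.mono_a`).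
If `σ` of prime power order is in the kernel of `Φ'`, then `χ B = 1` for a translation `B` of `σ` at level `M₁` (`L₁.tr`, `IsPh`), so `thmA_pp` gives `χ (L₁.a σ) = 1`. A subgroup of a finite abelian group which is contained... : a subgroup is generated by its elements of prime power order, so `Φ'.ker ≤ (χ.comp L₁.a).ker`
(`le_of_primePow`, nt_r/A5b). `res` is surjective (`res_surjective`), so `Φ.ker ≤ (χ.comp L.a).ker`. Orders of the images: `im Φ ≤ im χ` (each `Φ σ = χ B`), `im (χ.comp L.a) = im χ` (`Lw.a_surj`), and `[G : Φ.ker] = |im Φ| ≤ |im χ| = [G : (χ.comp L.a).ker]`, so the kernels are equal. `pow_of_ker` (nt_r/A5a) gives `b`.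
-/

set_option autoImplicit false

open NumberField IsDedekindDomain nonZeroDivisors IntermediateField

namespace Pool.Agent.STs

open Pool.Agent.ST
open Pool.Agent.STr (Lz ev InX UU)
open Pool.Agent.STh.F (FD Lf se)

variable {K : Type*} [Field K] [NumberField K] [Algebra K ℝ] {σ₂ : K →+* ℝ} {n M₁ : Ideal (𝓞 K)} {d : ℕ} {a : 𝓞 K}
  {R : IntermediateField K ℝ}

/-- two subgroups with the same index -/
private lemma TA8_ker_eq {G C : Type*} [Group G] [Finite G] [CommGroup C] {Φ : G →* ℂˣ} {χ : C →* ℂˣ} {a : G →* C}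
    (ha : Function.Surjective a) (hle : Φ.ker ≤ (χ.comp a).ker) (him : ∀ g, ∃ B, Φ g = χ B) :
    Φ.ker = (χ.comp a).ker := by
  have hfr : Finite (χ.comp a).range :=
    Finite.of_surjective (χ.comp a).rangeRestrict (χ.comp a).rangeRestrict_surjective
  have hr : Φ.range ≤ (χ.comp a).range := by
    rintro _ ⟨g, rfl⟩
    obtain ⟨B, hB⟩ := him g
    obtain ⟨g', hg'⟩ := ha B
    exact ⟨g', by rw [MonoidHom.comp_apply, hg', hB]⟩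
  have hc : Nat.card Φ.range ≤ Nat.card (χ.comp a).range := Subgroup.card_le_of_le hr
  rw [← Subgroup.index_ker, ← Subgroup.index_ker] at hc
  refine Subgroup.eq_of_le_of_card_ge hle ?_
  have h1 := Subgroup.card_mul_index Φ.ker
  have h2 := Subgroup.card_mul_index (χ.comp a).ker
  have hpos : 0 < Φ.ker.index := Nat.pos_of_ne_zero Subgroup.index_ne_zero_of_finite
  have h3 : Nat.card (χ.comp a).ker * Φ.ker.index ≤ Nat.card Φ.ker * Φ.ker.index := by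
    calc Nat.card (χ.comp a).ker * Φ.ker.index ≤ Nat.card (χ.comp a).ker * (χ.comp a).ker.index :=
          Nat.mul_le_mul_left _ hc
      _ = Nat.card Φ.ker * Φ.ker.index := by rw [h1, h2]
  exact Nat.le_of_mul_le_mul_right h3 hpos

theorem thmA (hw : Hw σ₂ n) (D : FD σ₂ d a) (hM₁ : M₁ ≠ ⊥) (hnM₁ : n ∣ M₁) {N₂ : ℕ}
    {κ : RayClassGroup σ₂ M₁ →* ℂˣ} (hκ : AK σ₂ M₁ d a N₂ κ) {χ : RayClassGroup σ₂ M₁ →* ℂˣ}
    (hχ : InX (Lz σ₂ M₁) χ)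
    (hr3 : ∀ b : ℕ, ∃ (r : ℕ) (q : PrI K) (hq : ¬ q.asIdeal ∣ M₁), r.Prime ∧ b < r ∧
      q.asIdeal = Ideal.span {(r : 𝓞 K)} ∧ χ (cls σ₂ M₁ (prJ M₁ q hq)) ≠ 1 ∧ κ (cls σ₂ M₁ (prJ M₁ q hq)) ≠ 1)
    (hR : AbR R) (L : Lw σ₂ M₁ R) {Φ : (R ≃ₐ[K] R) →* ℂˣ} (hΦ : IsPh χ Φ) :
    Φ.ker = (χ.comp L.a).ker ∧ ∃ b : ℕ, χ.comp L.a = Φ ^ b := by
  have hgal := hR.gal
  have hfinR := hR.finite
  have hA0 : Ideal.absNorm M₁ ≠ 0 := by
    rw [Ne, Ideal.absNorm_eq_zero_iff]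
    exact hM₁
  obtain ⟨N₀, hN₀def⟩ : ∃ N₀ : ℕ, N₀ = 4 * Ideal.absNorm M₁ := ⟨_, rfl⟩
  have hN₀ : N₀ ≠ 0 := by rw [hN₀def]; exact mul_ne_zero (by norm_num) hA0
  have h01 : Ideal.span {(N₀ : 𝓞 K)} ≤ M₁ := by
    rw [Ideal.span_singleton_le_iff_mem, hN₀def, Nat.cast_mul]
    exact M₁.mul_mem_left _ (Ideal.absNorm_mem M₁)
  have hM₀ : Ideal.span {(N₀ : 𝓞 K)} ≠ ⊥ := by
    rw [Ne, Ideal.span_singleton_eq_bot]
    exact_mod_cast hN₀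
  have hnM₀ : n ∣ Ideal.span {(N₀ : 𝓞 K)} := hnM₁.trans (Ideal.dvd_iff_le.2 h01)
  obtain ⟨R', hle, hR', ⟨L₀⟩⟩ := hw.exists_ge hR hM₀ hnM₀
  have hgal' := hR'.gal
  have hfinR' := hR'.finite
  have hker : Φ.ker ≤ (χ.comp L.a).ker := by
    have h1 : (Φ.comp (res hle)).ker ≤ ((χ.comp L.a).comp (res hle)).ker := by
      refine Pool.Agent.STr.le_of_primePow _ _ fun x hx p k hp hk => ?_
      rw [MonoidHom.mem_ker, MonoidHom.comp_apply] at hx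
      obtain ⟨B, hB⟩ := (L.mono hle hR).tr x
      have h2 : χ B = 1 := by
        rw [← hΦ _ B ((IsTr.res_iff hle L.mem).2 hB)]
        exact hx
      have h3 := thmA_pp hw D hM₁ hnM₁ hκ hR' (L.mono hle hR) hM₀ hN₀ (by rw [hN₀def]; exact Dvd.intro _ rfl)
        h01 le_rfl L₀ hχ hr3 hp hk hB h2
      rw [Lw.mono_a] at h3
      rw [MonoidHom.mem_ker, MonoidHom.comp_apply, MonoidHom.comp_apply]
      exact h3
    intro g hg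
    obtain ⟨g', rfl⟩ := res_surjective hle g
    have h4 : g' ∈ (Φ.comp (res hle)).ker := by
      rw [MonoidHom.mem_ker, MonoidHom.comp_apply]
      exact MonoidHom.mem_ker.1 hg
    have h5 := h1 h4
    rw [MonoidHom.mem_ker, MonoidHom.comp_apply] at h5
    exact MonoidHom.mem_ker.2 h5
  have heq : Φ.ker = (χ.comp L.a).ker := by
    refine TA8_ker_eq (Lw.a_surj hR L) hker fun g => ?_
    obtain ⟨B, hB⟩ := L.tr g
    exact ⟨B, hΦ g B hB⟩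
  refine ⟨heq, ?_⟩
  let : CommGroup (R ≃ₐ[K] R) := { (inferInstance : Group (R ≃ₐ[K] R)) with mul_comm := hR.comm }
  exact Pool.Agent.STr.pow_of_ker heq.symm

end Pool.Agent.STs
end

section

/-!
# TASK G3s: the tame twist

PROOF: follow `stepB` (nt_r/G3.lean), whose proof can be copied for the choice of `k`, `p`, `M' = M * (p)`, `ω₀`, `ω`, `i`, `η`, `η'` (use `prop51'` of X9, `InX_lift` of Hx2, `hw.toHx`). Changes:
(1) truth: `AK.lift` gives `AK σ₂ M' d a N₂ (κ₁ ∘ pr)`, `AK.twist'` (with `N' = p`) gives `AK σ₂ M' d a (N₂ * p) (κ₁ ∘ pr * η')`, and `AK.truth_eta` (for every `R`, `L' : Lw σ₂ M' R`, `IsTr σ₂ M' σ B`): `η' B = η' (L'.a σ)`. `η = η' ^ u` (`G3_pow`), so `η B = η (L'.a σ)`.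
(2) the conclusion, for given `R`, `hR`, `L'`, `Φ`: the group is `G = Gal(R/K)` (commutative by `hR.comm`; `letI : CommGroup (R ≃ₐ[K] R) := { (inferInstance : Group _) with mul_comm := hR.comm }`, or `AbR.abel`). `thmA` (TA8) at `M'` for `κ₁ ∘ pr` and `χ₁ ∘ pr` (`hr3` is `hc2` with `η = 1`): `Φ.ker = ((χ₁ ∘ pr).comp L'.a).ker`.
`thmA` for `χ₁ ∘ pr * η` and `Φη = Φ * η.comp L'.a` (`IsPh (χ₁ ∘ pr * η) Φη` by (1); `hr3` is `hc2` with this `η`, `η ^ (l ^ i) = 1`): `(χ₁ ∘ pr * η).comp L'.a = Φη ^ b`. Apply `twist` (nt_r/A5) to the characters `(χ₁ ∘ pr).comp L'.a`, `ψ = Φ`, `η.comp L'.a` of `G`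
(`orderOf (η.comp L'.a) = orderOf η` since `L'.a` is surjective, `Lw.a_surj`), with `V = ((pr σ₂ hle).comp L'.a).ker`. `hψV` from the equality of the kernels. `hηV` from `hωV` as in nt_r/G3 (`L'.a` is surjective). `¬ l ^ (i + 1) ∣ orderOf Φ`: `Φ ^ orderOf χ₁ = 1` because `Φ σ = χ₁ (pr B)`.
-/

set_option autoImplicit false

open NumberField IsDedekindDomain nonZeroDivisors IntermediateField

namespace Pool.Agent.STs

open Pool.Agent.ST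
open Pool.Agent.STr (Lz ev InX Nw NT)
open Pool.Agent.STh.F (FD Lf se)

variable {K : Type*} [Field K] [NumberField K] [Algebra K ℝ] {σ₂ : K →+* ℝ} {n M : Ideal (𝓞 K)} {d : ℕ} {a : 𝓞 K}

theorem stepB (hw : Hw σ₂ n) (D : FD σ₂ d a) (hM : M ≠ ⊥) (hnM : n ∣ M)
    {χ₁ κ₁ : RayClassGroup σ₂ M →* ℂˣ} (hχ : InX (Lz σ₂ M) χ₁) {N₂ : ℕ} (hκ : AK σ₂ M d a N₂ κ₁) {l : ℕ} (hl : l.Prime)
    (hp : ∀ k b : ℕ, ∃ p : ℕ, p.Prime ∧ b < p ∧ 2 * l ^ k ∣ p - 1 ∧ ∀ (q : PrI K) (hq : ¬ q.asIdeal ∣ M),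
      (p : 𝓞 K) ∈ q.asIdeal → χ₁ (cls σ₂ M (prJ M q hq)) ≠ 1 ∧ κ₁ (cls σ₂ M (prJ M q hq)) ≠ 1)
    (hc2 : ∀ (M' : Ideal (𝓞 K)) (hle : M' ≤ M), M' ≠ ⊥ → InX (Lz σ₂ M') (κ₁.comp (pr σ₂ hle)) →
      ∀ (η : RayClassGroup σ₂ M' →* ℂˣ) (k : ℕ), η ^ (l ^ k) = 1 → ∀ b : ℕ,
      ∃ (r : ℕ) (q : PrI K) (hq : ¬ q.asIdeal ∣ M'), r.Prime ∧ b < r ∧ q.asIdeal = Ideal.span {(r : 𝓞 K)} ∧
        (χ₁.comp (pr σ₂ hle) * η) (cls σ₂ M' (prJ M' q hq)) ≠ 1 ∧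
        (κ₁.comp (pr σ₂ hle)) (cls σ₂ M' (prJ M' q hq)) ≠ 1) :
    ∃ (M' : Ideal (𝓞 K)) (hle : M' ≤ M), M' ≠ ⊥ ∧ InX (Lz σ₂ M') (χ₁.comp (pr σ₂ hle)) ∧
      ∀ (R : IntermediateField K ℝ) (_ : AbR R) (L' : Lw σ₂ M' R) (Φ : (R ≃ₐ[K] R) →* ℂˣ),
        IsPh (χ₁.comp (pr σ₂ hle)) Φ → ¬ l ∣ orderOf ((χ₁.comp (pr σ₂ hle)).comp L'.a * Φ⁻¹) := by
  classical
  have hx := hw.toHx
  have hN₂ := hκ.N0
  obtain ⟨r₀, hr₀⟩ := prop51' hw hM hnM hχ 2 hl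
  obtain ⟨r₁, hr₁⟩ := prop51' hw hM hnM hκ.inX 2 hl
  have hfinM : Finite (RayClassGroup σ₂ M) := hx.finite_cl hM hnM
  obtain ⟨i₀, hi₀⟩ : ∃ i₀ : ℕ, i₀ = orderOf χ₁ := ⟨_, rfl⟩
  obtain ⟨k, hk⟩ : ∃ k : ℕ, k = i₀ + r₀ + r₁ + 2 := ⟨_, rfl⟩
  obtain ⟨p, hpp, hpb, hpl, hpq⟩ := hp k (2 * d + Ideal.absNorm M)
  have hd : 0 < d := D.d_pos
  have hnormM : Ideal.absNorm M ≠ 0 := by
    rw [Ne, Ideal.absNorm_eq_zero_iff]; exact hM
  have hp2d : ¬ p ∣ 2 * d := fun h => by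
    have := Nat.le_of_dvd (by omega) h
    omega
  have hpM : ¬ p ∣ Ideal.absNorm M := fun h => by
    have := Nat.le_of_dvd (Nat.pos_of_ne_zero hnormM) h
    omega
  have hp0 : (p : 𝓞 K) ≠ 0 := Nat.cast_ne_zero.2 hpp.ne_zero
  have hspan : Ideal.span {(p : 𝓞 K)} ≠ ⊥ := by
    rw [Ne, Ideal.span_singleton_eq_bot]; exact hp0
  have hcop : IsCoprime (Ideal.span {(p : 𝓞 K)}) M := by
    rw [Ideal.isCoprime_iff_exists]
    have hc : Nat.Coprime p (Ideal.absNorm M) := (Nat.Prime.coprime_iff_not_dvd hpp).2 hpM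
    have hc' : IsCoprime (p : ℤ) (Ideal.absNorm M : ℤ) := Nat.isCoprime_iff_coprime.2 hc
    obtain ⟨u, v, huv⟩ := hc'
    refine ⟨(u : 𝓞 K) * p, Ideal.mul_mem_left _ _ (Ideal.mem_span_singleton_self _),
      (v : 𝓞 K) * (Ideal.absNorm M : 𝓞 K), Ideal.mul_mem_left _ _ (Ideal.absNorm_mem M), ?_⟩
    have := congrArg (fun z : ℤ => (z : 𝓞 K)) huv
    push_cast at this
    exact this
  have hle : M * Ideal.span {(p : 𝓞 K)} ≤ M := Ideal.mul_le_left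
  have hM' : M * Ideal.span {(p : 𝓞 K)} ≠ ⊥ := mul_ne_zero hM hspan
  have hnM' : n ∣ M * Ideal.span {(p : 𝓞 K)} := hnM.mul_right _
  have hMp : M * Ideal.span {(p : 𝓞 K)} ≤ Ideal.span {(p : 𝓞 K)} := Ideal.mul_le_right
  have hcard := Pool.Agent.STr.G3_ncard hx.h2 hpp hM'
  have hfinM' : Finite (RayClassGroup σ₂ (M * Ideal.span {(p : 𝓞 K)})) := hx.finite_cl hM' hnM'
  have hqp : ∀ (q : PrI K) (h : ¬ q.asIdeal ∣ M), q.asIdeal ∣ M * Ideal.span {(p : 𝓞 K)} →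
      (p : 𝓞 K) ∈ q.asIdeal := fun q h hq => by
    have := (q.prime.dvd_or_dvd hq).resolve_left h
    rw [Ideal.dvd_span_singleton] at this
    exact this
  have hXχ : InX (Lz σ₂ (M * Ideal.span {(p : 𝓞 K)})) (χ₁.comp (pr σ₂ hle)) :=
    InX_lift hx hM hnM hM' hle hχ fun q h hq => (hpq q h (hqp q h hq)).1
  have hAK : AK σ₂ (M * Ideal.span {(p : 𝓞 K)}) d a N₂ (κ₁.comp (pr σ₂ hle)) :=
    hκ.lift hx hM hnM hM' hle fun q h hq => (hpq q h (hqp q h hq)).2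
  have hXκ := hAK.inX
  -- the tame character
  obtain ⟨ω₀, hω₀, hω₀1⟩ := Pool.Agent.STr.exists_tame hpp hpl
  obtain ⟨ω, hω⟩ := Pool.Agent.STr.exists_NT (σ₂ := σ₂) hx.h2 hpp.ne_zero hM' hMp ω₀ hω₀1
  have hωV : ∀ j : ℕ, (∀ g, pr σ₂ hle g = 1 → ω g ^ j = 1) → l ^ k ∣ j := fun j hj => by
    have := Pool.Agent.STr.NT.order_tame D hpp hp2d hM hcop hle hω₀1 hω j hj
    rw [← hω₀]
    exact orderOf_dvd_of_pow_eq_one this
  have hωo : orderOf ω = l ^ k := by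
    apply Nat.dvd_antisymm
    · rw [← hω₀]; exact Pool.Agent.STr.NT.dvd hM' hpp.ne_zero hMp hω
    · apply hωV
      intro g _
      have := pow_orderOf_eq_one ω
      have h2 := DFunLike.congr_fun this g
      rw [MonoidHom.pow_apply, MonoidHom.one_apply] at h2
      exact h2
  obtain ⟨T, hT, hTc, hT2⟩ := hr₀ _ hle hM' hcard hXχ ω k hωo
  obtain ⟨T', hT', hTc', hT2'⟩ := hr₁ _ hle hM' hcard hXκ ω k hωo
  obtain ⟨i, hi, hiT⟩ : ∃ i ∈ Finset.Icc (i₀ + 1) k, i ∉ T ∪ T' := by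
    by_contra hcon
    push Not at hcon
    have h1 : (Finset.Icc (i₀ + 1) k).card ≤ (T ∪ T').card := Finset.card_le_card hcon
    have h2 := Finset.card_union_le T T'
    rw [Nat.card_Icc] at h1
    omega
  rw [Finset.mem_Icc] at hi
  rw [Finset.notMem_union] at hiT
  have hik : i ∈ Finset.Icc 1 k := Finset.mem_Icc.2 ⟨by omega, hi.2⟩
  obtain ⟨η, hη, hηo, hηX⟩ := hT2 i hik hiT.1
  obtain ⟨η', hη', hηo', hηX'⟩ := hT2' i hik hiT.2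
  -- the truth for `κ₁` and `κ₁ η'`
  have hNM' : M * Ideal.span {(p : 𝓞 K)} ≤ Ideal.span {((N₂ * p : ℕ) : 𝓞 K)} := by
    rw [Nat.cast_mul, ← Ideal.span_singleton_mul_span_singleton]
    exact Ideal.mul_mono hκ.le le_rfl
  have hab' : ∀ v : PrI K, (p : 𝓞 K) ∈ v.asIdeal → v.asIdeal ∣ M * Ideal.span {(p : 𝓞 K)} :=
    fun v hv => Dvd.dvd.mul_left (Ideal.dvd_span_singleton.2 hv) _
  have hAK' : AK σ₂ (M * Ideal.span {(p : 𝓞 K)}) d a (N₂ * p) (κ₁.comp (pr σ₂ hle) * η') :=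
    hAK.twist' hx hM' hnM' hpp.ne_zero hNM' hab' hω₀1 hω hη' hηX'
  obtain ⟨u, hu⟩ := Pool.Agent.STr.G3_pow hl hωo hη hη' hηo hηo' hi.2
  have hηtr : ∀ (R : IntermediateField K ℝ) (L' : Lw σ₂ (M * Ideal.span {(p : 𝓞 K)}) R) (σ : R ≃ₐ[K] R)
      (B : RayClassGroup σ₂ (M * Ideal.span {(p : 𝓞 K)})),
      IsTr σ₂ (M * Ideal.span {(p : 𝓞 K)}) σ B → η B = η (L'.a σ) := fun R L' σ B hB => by
    have h1 := hAK.truth_eta hx D hM' hnM' hAK' L' hB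
    rw [hu, MonoidHom.pow_apply, MonoidHom.pow_apply, h1]
  -- the conclusion
  refine ⟨M * Ideal.span {(p : 𝓞 K)}, hle, hM', hXχ, fun R hR L' Φ hΦ => ?_⟩
  have hG := hR.finite
  have hηi : η ^ (l ^ i) = 1 := by
    rw [← hηo]
    exact pow_orderOf_eq_one η
  obtain ⟨hker, -⟩ := thmA hw D hM' hnM' hAK hXχ (fun b => by
    obtain ⟨r, q, hq, h1, h2, h3, h4, h5⟩ := hc2 _ hle hM' hXκ 1 0
      (MonoidHom.ext fun B => by rw [MonoidHom.pow_apply, MonoidHom.one_apply, one_pow]) b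
    rw [MonoidHom.mul_apply, MonoidHom.one_apply, mul_one] at h4
    exact ⟨r, q, hq, h1, h2, h3, h4, h5⟩) hR L' hΦ
  have hΦη : IsPh (χ₁.comp (pr σ₂ hle) * η) (Φ * η.comp L'.a) := by
    intro σ B hB
    rw [MonoidHom.mul_apply, MonoidHom.mul_apply, hΦ σ B hB, hηtr R L' σ B hB]
    rfl
  obtain ⟨-, b, hb⟩ := thmA hw D hM' hnM' hAK hηX (fun b => hc2 _ hle hM' hXκ η i hηi b) hR L' hΦη
  have hsurj : Function.Surjective L'.a := L'.a_surj hR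
  have hcompo : orderOf (η.comp L'.a) = orderOf η := by
    apply Nat.dvd_antisymm
    · apply orderOf_dvd_of_pow_eq_one
      ext g
      have h2 := DFunLike.congr_fun (pow_orderOf_eq_one η) (L'.a g)
      simp only [MonoidHom.pow_apply, MonoidHom.comp_apply, MonoidHom.one_apply] at h2 ⊢
      rw [h2]
    · apply orderOf_dvd_of_pow_eq_one
      ext B
      obtain ⟨g, rfl⟩ := hsurj B
      have h2 := DFunLike.congr_fun (pow_orderOf_eq_one (η.comp L'.a)) g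
      simp only [MonoidHom.pow_apply, MonoidHom.comp_apply, MonoidHom.one_apply] at h2 ⊢
      rw [h2]
  let _ : CommGroup (R ≃ₐ[K] R) := { (inferInstance : Group (R ≃ₐ[K] R)) with mul_comm := hR.comm }
  have hχV : ∀ g ∈ ((pr σ₂ hle).comp L'.a).ker, ((χ₁.comp (pr σ₂ hle)).comp L'.a) g = 1 := fun g hg => by
    rw [MonoidHom.mem_ker, MonoidHom.comp_apply] at hg
    rw [MonoidHom.comp_apply, MonoidHom.comp_apply, hg, map_one]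
  refine Pool.Agent.STr.twist (C := R ≃ₐ[K] R) (χ := (χ₁.comp (pr σ₂ hle)).comp L'.a) (ψ := Φ) (η := η.comp L'.a)
    (i := i) (b := b) hl (hcompo.trans hηo) ((pr σ₂ hle).comp L'.a).ker hχV ?_ ?_ ?_ ?_
  · intro g hg
    have h1 : g ∈ Φ.ker := by
      rw [hker, MonoidHom.mem_ker]
      exact hχV g hg
    exact h1
  · intro j hj
    have hfin : IsOfFinOrder ω := by
      rw [← orderOf_pos_iff, hωo]; exact pow_pos hl.pos k
    rw [← hfin.mem_powers_iff_mem_zpowers] at hη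
    obtain ⟨e, rfl⟩ := hη
    have h1 : l ^ k ∣ e * j := by
      apply hωV
      intro B hB
      obtain ⟨g, rfl⟩ := hsurj B
      have := hj g (MonoidHom.mem_ker.2 hB)
      simp only [MonoidHom.pow_apply, MonoidHom.comp_apply] at this
      rw [pow_mul]
      exact this
    rw [← hηo]
    apply orderOf_dvd_of_pow_eq_one
    rw [← pow_mul]
    exact orderOf_dvd_iff_pow_eq_one.1 (by rw [hωo]; exact h1)
  · exact hb
  · intro hdvd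
    have h1 : orderOf Φ ∣ orderOf χ₁ := by
      apply orderOf_dvd_of_pow_eq_one
      ext g
      obtain ⟨B, hB⟩ := L'.tr g
      have h2 := DFunLike.congr_fun (pow_orderOf_eq_one χ₁) (pr σ₂ hle B)
      rw [MonoidHom.pow_apply, hΦ g B hB]
      simp only [MonoidHom.pow_apply, MonoidHom.comp_apply, MonoidHom.one_apply] at h2 ⊢
      rw [h2]
    have h3 : l ^ (i + 1) ∣ i₀ := by rw [hi₀]; exact hdvd.trans h1
    have h4 : 0 < i₀ := by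
      rw [hi₀, orderOf_pos_iff, isOfFinOrder_iff_pow_eq_one]
      refine ⟨Nat.card (RayClassGroup σ₂ M), Nat.card_pos, ?_⟩
      ext C
      simp only [MonoidHom.pow_apply, MonoidHom.one_apply]
      rw [← map_pow, pow_card_eq_one', map_one]
    have h5 := Nat.le_of_dvd h4 h3
    have h6 : i + 1 < l ^ (i + 1) := Nat.lt_pow_self hl.one_lt
    omega

end Pool.Agent.STs
end

section

/-!
# TASK G4s: assembly

PROOF: follow `order_free` (nt_r/G4.lean; its auxiliary lemmas `G4_l`, `G4_r`, `G4_pn`, `G4_le`, `G4_pow`, `G4_span`, `G4_val`, `G4_valp`, `G4_comp` can be used: `open Pool.Agent.STr (...)`), with `hw.toHx`, `stepA` (G1s), `InX_lift` (Hx2), `stepB` (G3s), `descend` (G5s). Changes: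
(1) choose `r₁` also larger than `2 * d` (so `¬ r₁ ∣ 2 * d`), e.g. add `2 * d` to the bound of `exists_r`.
(2) `AK σ₂ M d a N₂ κ₁`, `N₂ = r₂ ^ t₂`, `κ₁ = (A.κ ∘ pr * η₂) ∘ pr`: `AK.of_anc`, `AK.lift` to `m₂ = A.m₀ * (r₂)^t₂` (new prime `q₂`: `hκq₂`), `AK.twist` with `N' = r₂ ^ t₂` (`AK σ₂ m₂ d a (1 * r₂^t₂) (A.κ ∘ pr * η₂)`), `AK.lift` to `M` (values `≠ 1` at the new primes as in the proof of `hκ₁`). This replaces `hab`, `hNM`, `hse`, `htr` of nt_r/G4.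
(3) `hc2` of `stepB`: given `M' ≤ M`, `η` with `η ^ (l ^ k) = 1`, `b`: `c'` with `IsC σ₂ M' c'` (`exists_isC`), `(κ₁ ∘ pr) c' = -1` (`InX.neg_one`, `Hx.Lz_c`). `exists_r2` (N8) for `M'`, `κ₁ ∘ pr`, `r₁`, `t₁`, `b`: `r`, `q`, `κ₁ [q] ≠ 1`, `r ≡ ±(1 + r₁) mod r₁ ^ t₁`. `chi_ne` (N8) with
`ψ = (χ ∘ pr) * η` on the level `M'`, killed by `orderOf χ * l ^ k` (not divisible by `r₁`: `r₁ ≠ l`, `r₁ ∤ orderOf χ`), and the norm type character `η₁ ∘ pr` (`NT.comp_pr`), `M' ≤ M ≤ m₁ ≤ (r₁ ^ t₁)`: `(ψ * η₁ ∘ pr) [q] ≠ 1`, and `(χ₁ ∘ pr) * η = ψ * η₁ ∘ pr` (commutativity, `pr_pr`).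
-/

set_option autoImplicit false

open NumberField IsDedekindDomain nonZeroDivisors IntermediateField

namespace Pool.Agent.STs

open Pool.Agent.ST
open Pool.Agent.STr (Lz ev InX Nw NT G4_l G4_r G4_pn G4_le G4_pow G4_span G4_val G4_valp G4_comp finite_dual
  exists_r exists_I exists_p)
open Pool.Agent.STh.F (FD Lf se)

variable {K : Type*} [Field K] [NumberField K] [Algebra K ℝ] {σ₂ : K →+* ℝ} {n m : Ideal (𝓞 K)} {d : ℕ} {a : 𝓞 K}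
  {R : IntermediateField K ℝ}

theorem order_free (hw : Hw σ₂ n) (D : FD σ₂ d a) (A : Anc σ₂ n d a) (hm : m ≠ ⊥) (hnm : n ∣ m)
    {χ : RayClassGroup σ₂ m →* ℂˣ} (hχ : InX (Lz σ₂ m) χ) {l : ℕ} (hl : l.Prime) (hR : AbR R) (L : Lw σ₂ m R)
    {Φ : (R ≃ₐ[K] R) →* ℂˣ} (hΦ : IsPh χ Φ) : ¬ l ∣ orderOf (χ.comp L.a * Φ⁻¹) := by
  have hx := hw.toHx
  have h2 := hx.h2
  have := hx.finite_cl hm hnm
  have := hx.finite_cl A.hm₀ A.hn
  have := finite_dual (RayClassGroup σ₂ m)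
  -- step 1
  obtain ⟨c, hc⟩ := exists_isC (σ₂ := σ₂) hm
  obtain ⟨c₀, hc₀⟩ := exists_isC (σ₂ := σ₂) A.hm₀
  have hχc : χ c = -1 := Pool.Agent.STr.InX.neg_one hχ (fun B => hx.Lz_c hm hnm hc B)
  have hκc : A.κ c₀ = -1 := Pool.Agent.STr.InX.neg_one A.inX (fun B => hx.Lz_c A.hm₀ A.hn hc₀ B)
  have hord : 0 < orderOf χ := orderOf_pos χ
  have hd0 : d ≠ 0 := by
    rintro rfl
    exact D.nsq ⟨0, rfl⟩
  obtain ⟨r₁, q₁, hq₁, hr₁, hb₁, hq₁r, hχq₁⟩ := exists_r D hm hc hχc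
    (2 + l + orderOf χ + Ideal.absNorm m + Ideal.absNorm A.m₀ + 2 * d)
  obtain ⟨r₂, q₂, hq₂, hr₂, hb₂, hq₂r, hκq₂⟩ := exists_r D A.hm₀ hc₀ hκc
    (2 + l + orderOf χ + Ideal.absNorm m + Ideal.absNorm A.m₀ + r₁)
  have hr₁2 : r₁ ≠ 2 := by omega
  have hr₂2 : r₂ ≠ 2 := by omega
  have hr₁o : ¬ r₁ ∣ orderOf χ := fun h => by
    have := Nat.le_of_dvd hord h
    omega
  have hr₁d : ¬ r₁ ∣ 2 * d := fun h => by
    have := Nat.le_of_dvd (by omega) h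
    omega
  have hr₂o : ¬ r₂ ∣ 2 := fun h => by
    have := Nat.le_of_dvd (by norm_num) h
    omega
  have hs₁ : Ideal.span {(r₁ : 𝓞 K)} ≠ ⊥ := by rw [← hq₁r]; exact q₁.ne_bot
  have hs₂ : Ideal.span {(r₂ : 𝓞 K)} ≠ ⊥ := by rw [← hq₂r]; exact q₂.ne_bot
  have hmul : ∀ {I J : Ideal (𝓞 K)}, I ≠ ⊥ → J ≠ ⊥ → I * J ≠ ⊥ := fun hI hJ h => by
    rcases Ideal.mul_eq_bot.1 h with h | h
    · exact hI h
    · exact hJ h
  -- step 2
  obtain ⟨I₁, hI₁⟩ := exists_I (K := K) hr₁ (finite_dvd (hmul A.hm₀ hs₂))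
  obtain ⟨t₁, i₁, hle₁, η₀₁, η₁, hIi₁, hi₁, ht₁, ho₁, hn₁, hN₁, hX₁⟩ :=
    stepA hw hm hnm hχ hr₁ hr₁2 hq₁r hq₁ hχq₁ I₁
  obtain ⟨I₂, hI₂⟩ := exists_I (K := K) hr₂ (finite_dvd (hmul hm hs₁))
  obtain ⟨t₂, i₂, hle₂, η₀₂, η₂, hIi₂, hi₂, ht₂, ho₂, hn₂, hN₂, hX₂⟩ :=
    stepA hw A.hm₀ A.hn A.inX hr₂ hr₂2 hq₂r hq₂ hκq₂ I₂
  have hm₁ : m * Ideal.span {(r₁ : 𝓞 K)} ^ t₁ ≠ ⊥ := hmul hm (pow_ne_zero _ hs₁)
  have hm₂ : A.m₀ * Ideal.span {(r₂ : 𝓞 K)} ^ t₂ ≠ ⊥ := hmul A.hm₀ (pow_ne_zero _ hs₂)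
  have hnm₁ : n ∣ m * Ideal.span {(r₁ : 𝓞 K)} ^ t₁ := hnm.trans (Dvd.intro _ rfl)
  have hnm₂ : n ∣ A.m₀ * Ideal.span {(r₂ : 𝓞 K)} ^ t₂ := A.hn.trans (Dvd.intro _ rfl)
  have := hx.finite_cl hm₁ hnm₁
  have := hx.finite_cl hm₂ hnm₂
  -- step 3
  obtain ⟨M, hMd⟩ : ∃ M, M = (m * Ideal.span {(r₁ : 𝓞 K)} ^ t₁) * (A.m₀ * Ideal.span {(r₂ : 𝓞 K)} ^ t₂) := ⟨_, rfl⟩
  have hMle₁ : M ≤ m * Ideal.span {(r₁ : 𝓞 K)} ^ t₁ := by rw [hMd]; exact G4_l _ _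
  have hMle₂ : M ≤ A.m₀ * Ideal.span {(r₂ : 𝓞 K)} ^ t₂ := by rw [hMd]; exact G4_r _ _
  have hM : M ≠ ⊥ := by rw [hMd]; exact hmul hm₁ hm₂
  have hnM : n ∣ M := by rw [hMd]; exact hnm₁.trans (Dvd.intro _ rfl)
  have := hx.finite_cl hM hnM
  have hχo : χ ^ orderOf χ = 1 := pow_orderOf_eq_one χ
  have hχ₁ : InX (Lz σ₂ M) ((χ.comp (pr σ₂ hle₁) * η₁).comp (pr σ₂ hMle₁)) := by
    refine InX_lift hx hm₁ hnm₁ hM hMle₁ hX₁ (fun v hv hvM => ?_)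
    have h3 : v.asIdeal ∣ A.m₀ * Ideal.span {(r₂ : 𝓞 K)} := by
      rw [hMd] at hvM
      rcases v.prime.dvd_or_dvd hvM with h | h
      · exact absurd h hv
      · rcases v.prime.dvd_or_dvd h with h | h
        · exact h.trans (Dvd.intro _ rfl)
        · exact (v.prime.dvd_of_dvd_pow h).trans (Dvd.intro_left _ rfl)
    exact G4_val hr₁ hr₁2 (by omega) hle₁ hχo hr₁o ho₁ hN₁ hv (hI₁ v h3 i₁ hIi₁)
  -- the anchor at the level `M`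
  have hN0 : r₂ ^ t₂ ≠ 0 := pow_ne_zero _ hr₂.ne_zero
  have hA₁ : AK σ₂ (A.m₀ * Ideal.span {(r₂ : 𝓞 K)} ^ t₂) d a 1 (A.κ.comp (pr σ₂ hle₂)) := by
    refine (AK.of_anc hx D A).lift hx A.hm₀ A.hn hm₂ hle₂ (fun v hv hvM => ?_)
    have h3 : v = q₂ := by
      rcases v.prime.dvd_or_dvd hvM with h | h
      · exact absurd h hv
      · have h4 := v.prime.dvd_of_dvd_pow h
        rw [← hq₂r] at h4
        exact eq_of_dvd_prime h4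
    subst h3
    exact hκq₂
  have hA₂ : AK σ₂ (A.m₀ * Ideal.span {(r₂ : 𝓞 K)} ^ t₂) d a (1 * r₂ ^ t₂) (A.κ.comp (pr σ₂ hle₂) * η₂) := by
    refine hA₁.twist hx hm₂ hnm₂ hN0 ?_ (fun v hv => ?_) hn₂ hN₂ hX₂
    · rw [one_mul, ← G4_span]
      exact G4_r _ _
    · rw [Nat.cast_pow] at hv
      have h6 := v.isPrime.mem_of_pow_mem _ hv
      have h7 : v.asIdeal ∣ Ideal.span {(r₂ : 𝓞 K)} := by
        rw [Ideal.dvd_iff_le, Ideal.span_singleton_le_iff_mem]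
        exact h6
      exact (h7.trans (dvd_pow_self _ (by omega))).trans (Dvd.intro_left _ rfl)
  have hA₃ : AK σ₂ M d a (1 * r₂ ^ t₂) ((A.κ.comp (pr σ₂ hle₂) * η₂).comp (pr σ₂ hMle₂)) := by
    refine hA₂.lift hx hm₂ hnm₂ hM hMle₂ (fun v hv hvM => ?_)
    have h3 : v.asIdeal ∣ m * Ideal.span {(r₁ : 𝓞 K)} := by
      rw [hMd] at hvM
      rcases v.prime.dvd_or_dvd hvM with h | h
      · rcases v.prime.dvd_or_dvd h with h | h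
        · exact h.trans (Dvd.intro _ rfl)
        · exact (v.prime.dvd_of_dvd_pow h).trans (Dvd.intro_left _ rfl)
      · exact absurd h hv
    exact G4_val hr₂ hr₂2 (by omega) hle₂ A.sq hr₂o ho₂ hN₂ hv (hI₂ v h3 i₂ hIi₂)
  have hl₁ : l ≠ r₁ := by omega
  have hl₂ : l ≠ r₂ := by omega
  have hp : ∀ k b : ℕ, ∃ p : ℕ, p.Prime ∧ b < p ∧ 2 * l ^ k ∣ p - 1 ∧
      ∀ (q : PrI K) (hq : ¬ q.asIdeal ∣ M), (p : 𝓞 K) ∈ q.asIdeal →
      ((χ.comp (pr σ₂ hle₁) * η₁).comp (pr σ₂ hMle₁)) (cls σ₂ M (prJ M q hq)) ≠ 1 ∧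
      ((A.κ.comp (pr σ₂ hle₂) * η₂).comp (pr σ₂ hMle₂)) (cls σ₂ M (prJ M q hq)) ≠ 1 := by
    intro k b
    obtain ⟨p, hp, hbp, hlp, hp1, hp2⟩ := exists_p (l := l) (k := k) (r₁ := r₁) (t₁ := t₁) (r₂ := r₂) (t₂ := t₂)
      hl hr₁ hr₂ hr₁2 hr₂2 (by omega) hl₁ hl₂ b
    refine ⟨p, hp, hbp, hlp, fun q hq hpq => ⟨?_, ?_⟩⟩
    · have hq' := not_dvd_of_le hMle₁ hq
      rw [G4_comp hMle₁ _ hq hq']
      exact G4_valp h2 hr₁ hr₁2 hi₁ hle₁ hχo hr₁o ho₁ hN₁ hq' hp hpq hp1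
    · have hq' := not_dvd_of_le hMle₂ hq
      rw [G4_comp hMle₂ _ hq hq']
      exact G4_valp h2 hr₂ hr₂2 hi₂ hle₂ A.sq hr₂o ho₂ hN₂ hq' hp hpq hp2
  have hc2 : ∀ (M' : Ideal (𝓞 K)) (hle : M' ≤ M), M' ≠ ⊥ →
      InX (Lz σ₂ M') (((A.κ.comp (pr σ₂ hle₂) * η₂).comp (pr σ₂ hMle₂)).comp (pr σ₂ hle)) →
      ∀ (η : RayClassGroup σ₂ M' →* ℂˣ) (k : ℕ), η ^ (l ^ k) = 1 → ∀ b : ℕ,
      ∃ (r : ℕ) (q : PrI K) (hq : ¬ q.asIdeal ∣ M'), r.Prime ∧ b < r ∧ q.asIdeal = Ideal.span {(r : 𝓞 K)} ∧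
        ((((χ.comp (pr σ₂ hle₁) * η₁).comp (pr σ₂ hMle₁))).comp (pr σ₂ hle) * η) (cls σ₂ M' (prJ M' q hq)) ≠ 1 ∧
        (((A.κ.comp (pr σ₂ hle₂) * η₂).comp (pr σ₂ hMle₂)).comp (pr σ₂ hle)) (cls σ₂ M' (prJ M' q hq)) ≠ 1 := by
    intro M' hle hM' hXκ η k hη b
    have hnM' : n ∣ M' := hnM.trans (Ideal.dvd_iff_le.2 hle)
    have := hx.finite_cl hM' hnM'
    obtain ⟨c', hc'⟩ := exists_isC (σ₂ := σ₂) hM'
    have hκc' := Pool.Agent.STr.InX.neg_one hXκ (fun B => hx.Lz_c hM' hnM' hc' B)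
    obtain ⟨r, q, hq, hr, hbr, hqr, hκq, hrr⟩ := exists_r2 D hM' hc' hκc' (t := t₁) hr₁ hr₁d b
    refine ⟨r, q, hq, hr, hbr, hqr, ?_, hκq⟩
    have e : (((χ.comp (pr σ₂ hle₁) * η₁).comp (pr σ₂ hMle₁))).comp (pr σ₂ hle) * η =
        (χ.comp (pr σ₂ ((hle.trans hMle₁).trans hle₁)) * η) * η₁.comp (pr σ₂ (hle.trans hMle₁)) := by
      refine MonoidHom.ext fun x => ?_
      simp only [MonoidHom.mul_apply, MonoidHom.comp_apply, pr_pr]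
      exact mul_right_comm _ _ _
    rw [e]
    have hψ : (χ.comp (pr σ₂ ((hle.trans hMle₁).trans hle₁)) * η) ^ (orderOf χ * l ^ k) = 1 := by
      refine MonoidHom.ext fun x => ?_
      have h6 := DFunLike.congr_fun hχo (pr σ₂ ((hle.trans hMle₁).trans hle₁) x)
      rw [MonoidHom.pow_apply, MonoidHom.one_apply] at h6
      have h7 := DFunLike.congr_fun hη x
      rw [MonoidHom.pow_apply, MonoidHom.one_apply] at h7
      rw [MonoidHom.pow_apply, MonoidHom.mul_apply, MonoidHom.comp_apply, MonoidHom.one_apply, mul_pow,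
        pow_mul, h6, one_pow, one_mul, mul_comm (orderOf χ), pow_mul, h7, one_pow]
    have hb : ¬ r₁ ∣ orderOf χ * l ^ k := by
      intro h
      rcases hr₁.dvd_mul.1 h with h | h
      · exact hr₁o h
      · exact hl₁ ((Nat.prime_dvd_prime_iff_eq hr₁ hl).1 (hr₁.dvd_of_dvd_pow h)).symm
    exact chi_ne h2 hr₁ hr₁2 hi₁ ((hle.trans hMle₁).trans (by rw [← G4_span]; exact G4_r _ _)) hψ hb ho₁
      (hN₁.comp_pr (hle.trans hMle₁)) hr hq hqr hrr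
  -- step 5
  obtain ⟨M', hle', hM', hX', hfin⟩ := stepB hw D hM hnM hχ₁ hA₃ hl hp hc2
  have hcomp : ((χ.comp (pr σ₂ hle₁) * η₁).comp (pr σ₂ hMle₁)).comp (pr σ₂ hle') =
      (χ.comp (pr σ₂ hle₁) * η₁).comp (pr σ₂ (hle'.trans hMle₁)) := by
    ext x
    simp only [MonoidHom.comp_apply, pr_pr]
  rw [hcomp] at hX' hfin
  have hη : η₁ ^ (r₁ ^ i₁) = 1 := by
    have h5 : orderOf η₁ ∣ orderOf η₀₁ :=
      Pool.Agent.STr.NT.dvd hm₁ (pow_ne_zero _ hr₁.ne_zero) (by rw [← G4_span]; exact G4_r _ _) hN₁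
    rw [ho₁] at h5
    exact orderOf_dvd_iff_pow_eq_one.1 h5
  have hX : InX (Lz σ₂ (m * Ideal.span {(r₁ : 𝓞 K)} ^ t₁)) (χ.comp (pr σ₂ hle₁)) := by
    refine InX_lift hx hm hnm hm₁ hle₁ hχ (fun v hv hvM => ?_)
    have h3 : v = q₁ := by
      rcases v.prime.dvd_or_dvd hvM with h | h
      · exact absurd h hv
      · have h4 := v.prime.dvd_of_dvd_pow h
        rw [← hq₁r] at h4
        exact eq_of_dvd_prime h4
    subst h3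
    exact hχq₁
  exact descend hw hm hnm hm₁ hle₁ hM' (hle'.trans hMle₁) hl hr₁ hl₁ hη hX hX' hfin hR L hΦ

end Pool.Agent.STs
end

section

/-!
# The reciprocity law
-/

set_option autoImplicit false

open NumberField IsDedekindDomain nonZeroDivisors IntermediateField

namespace Pool.Agent.STs

open Pool.Agent.ST
open Pool.Agent.STr (Lz ev InX)
open Pool.Agent.STh.F (FD Lf se)

variable {K : Type*} [Field K] [NumberField K] [Algebra K ℝ] {σ₂ : K →+* ℝ} {n m : Ideal (𝓞 K)}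
  {R : IntermediateField K ℝ}

/-- the goal: `σ` acts as its own class -/
theorem goal (hw : Hw σ₂ n) (hm : m ≠ ⊥) (hnm : n ∣ m) (hR : AbR R) (L : Lw σ₂ m R) (σ : R ≃ₐ[K] R) :
    IsTr σ₂ m σ (L.a σ) := by
  have hn0 : n ≠ ⊥ := by
    rintro rfl
    obtain ⟨c, hc⟩ := hnm
    exact hm (by rw [hc, Ideal.bot_mul])
  obtain ⟨d, a, D, ⟨A⟩⟩ := exists_anchor hw.toHx hn0
  refine tr_of hw.toHx hm hnm L (fun χ hχ Φ hΦ τ => ?_) σ
  have hfin : Finite (R ≃ₐ[K] R) := hR.finite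
  have h0 : 0 < orderOf (χ.comp L.a * Φ⁻¹) := by
    rw [orderOf_pos_iff, isOfFinOrder_iff_pow_eq_one]
    refine ⟨Nat.card (R ≃ₐ[K] R), Nat.card_pos, ?_⟩
    ext g
    simp only [MonoidHom.pow_apply, MonoidHom.one_apply]
    rw [← map_pow, pow_card_eq_one', map_one]
  have h1 : orderOf (χ.comp L.a * Φ⁻¹) = 1 := by
    by_contra hne
    obtain ⟨l, hl, hld⟩ := Nat.exists_prime_and_dvd hne
    exact order_free hw D A hm hnm hχ hl hR L hΦ hld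
  rw [orderOf_eq_one_iff] at h1
  have h2 := DFunLike.congr_fun h1 τ
  rw [MonoidHom.mul_apply, MonoidHom.inv_apply, MonoidHom.one_apply, mul_inv_eq_one] at h2
  exact h2.symm

end Pool.Agent.STs
end
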